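import Pool.Agent.Lib_helper44.OM.Defs

/-!
# OM block A4 (helper12): reflections
-/

set_option autoImplicit false

namespace Pool.Agent.OM

open Module

section

variable {E V : Type*} [Field E] [AddCommGroup V] [Module E V]

theorem a4_apply (b : LinearMap.BilinForm E V) (x y v : V) :
    wedge b x y v = b y v • x - b x v • y := rfl

theorem a4_add (b : LinearMap.BilinForm E V) (x x' y : V) :
    wedge b (x + x') y = wedge b x y + wedge b x' y := by
  ext v
  simp only [a4_apply, LinearMap.add_apply, map_add, smul_add, add_smul]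
  abel

theorem a4_smul (b : LinearMap.BilinForm E V) (c : E) (x y : V) :
    wedge b (c • x) y = c • wedge b x y := by
  ext v
  simp only [a4_apply, LinearMap.smul_apply, map_smul, smul_sub, smul_smul, smul_eq_mul]
  rw [mul_comm]

theorem a4_swap (b : LinearMap.BilinForm E V) (x y : V) : wedge b x y = -wedge b y x := by
  ext v
  simp only [a4_apply, LinearMap.neg_apply]
  abel

theorem a4_self (b : LinearMap.BilinForm E V) (x : V) : wedge b x x = 0 := by
  ext v
  simp [a4_apply]

/-- the bracket with a skew operator -/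
theorem a4_brk (b : LinearMap.BilinForm E V) (X : Module.End E V)
    (hX : ∀ x y, b (X x) y = -b x (X y)) (x y : V) :
    X * wedge b x y - wedge b x y * X = wedge b (X x) y + wedge b x (X y) := by
  ext v
  simp only [LinearMap.sub_apply, Module.End.mul_apply, LinearMap.add_apply, a4_apply, map_sub,
    map_smul, hX]
  simp only [neg_smul]
  abel

/-- the reflection -/
theorem a4_refl [FiniteDimensional E V] (h2 : (2 : E) ≠ 0) (b : LinearMap.BilinForm E V)
    (hs : ∀ x y, b x y = b y x) (hn : ∀ x, (∀ y, b x y = 0) → x = 0) (s : Module.End E V)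
    (hb : ∀ x y, b (s x) (s y) = b x y) (h : s ^ 2 = 1)
    (hr : finrank E (LinearMap.range (s - 1)) = 1) :
    ∃ d : V, b d d ≠ 0 ∧ ∀ x, s x = x - (2 * b d x / b d d) • d := by
  obtain ⟨⟨d, hd⟩, hd0, hall⟩ := finrank_eq_one_iff'.1 hr
  have hd1 : d ≠ 0 := fun h0 => hd0 (by ext; exact h0)
  obtain ⟨v0, hv0⟩ := hd
  have hss : ∀ v, s (s v) = v := by
    intro v
    have := congrArg (fun f : Module.End E V => f v) h
    simpa [pow_two, Module.End.mul_apply] using this
  have hsd : s d = -d := by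
    rw [← hv0]
    simp only [LinearMap.sub_apply, Module.End.one_apply, map_sub, hss]
    abel
  have hφ : ∀ x, ∃ c : E, s x = x + c • d := by
    intro x
    obtain ⟨c, hc⟩ := hall ⟨(s - 1) x, ⟨x, rfl⟩⟩
    refine ⟨c, ?_⟩
    have h1 : c • d = (s - 1) x := congrArg Subtype.val hc
    rw [h1]
    simp
  have key : ∀ x c, s x = x + c • d → c * b d d = -(2 * b d x) := by
    intro x c hx
    have h1 := hb x d
    rw [hx, hsd] at h1
    simp only [map_add, LinearMap.add_apply, map_smul, LinearMap.smul_apply, map_neg,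
      smul_eq_mul] at h1
    have h3 := hs x d
    linear_combination -h1 - 2 * h3
  have hβ : b d d ≠ 0 := by
    intro h0
    apply hd1
    apply hn
    intro y
    obtain ⟨c, hc⟩ := hφ y
    have h1 := key y c hc
    rw [h0, mul_zero] at h1
    have h3 : 2 * b d y = 0 := by linear_combination h1
    exact (mul_eq_zero.1 h3).resolve_left h2
  refine ⟨d, hβ, fun x => ?_⟩
  obtain ⟨c, hc⟩ := hφ x
  have h1 := key x c hc
  have h4 : c = -(2 * b d x / b d d) := by
    field_simp
    linear_combination h1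
  rw [hc, h4, neg_smul, sub_eq_add_neg]

variable {G : Type*} [Group G] {b : LinearMap.BilinForm E V} {L : Submodule E (Module.End E V)}
  {ρ : G →* Module.End E V} {σ : G}

theorem om_full2 [FiniteDimensional E V] (h2 : (2 : E) ≠ 0) (C : Ctx b L ρ σ)
    (h : ρ σ ^ 2 = 1) (hr : finrank E (LinearMap.range (ρ σ - 1)) = 1)
    (hL : ∀ U : Submodule E V, (∀ X ∈ L, ∀ u ∈ U, X u ∈ U) → U = ⊥ ∨ U = ⊤) (x y : V) :
    wedge b x y ∈ L := by
  obtain ⟨d, hβ, hs⟩ := a4_refl h2 b C.symm C.nondeg (ρ σ) (C.orth σ) h hr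
  have hd0 : d ≠ 0 := by
    rintro rfl
    simp at hβ
  have hinv : ρ σ⁻¹ = ρ σ := by
    have h1 : ρ σ * ρ σ = 1 := by rw [← pow_two, h]
    have h3 : ρ σ * ρ σ⁻¹ = 1 := by rw [← map_mul, mul_inv_cancel, map_one]
    calc ρ σ⁻¹ = (ρ σ * ρ σ) * ρ σ⁻¹ := by rw [h1, one_mul]
      _ = ρ σ * (ρ σ * ρ σ⁻¹) := mul_assoc _ _ _
      _ = ρ σ := by rw [h3, mul_one]
  have hskd : ∀ X ∈ L, b d (X d) = 0 := by
    intro X hX
    have h1 := C.skew X hX d d
    rw [C.symm] at h1
    have h3 : 2 * b d (X d) = 0 := by linear_combination h1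
    exact (mul_eq_zero.1 h3).resolve_left h2
  -- step 2
  have step2 : ∀ X ∈ L, wedge b (X d) d ∈ L := by
    intro X hX
    have h1 := L.sub_mem hX (C.conj σ X hX)
    rw [hinv] at h1
    have h3 : X - ρ σ * X * ρ σ = (2 / b d d) • wedge b (X d) d := by
      ext v
      have hXv : b (X d) v = -b d (X v) := C.skew X hX d v
      simp only [LinearMap.sub_apply, Module.End.mul_apply, LinearMap.smul_apply, a4_apply, hs,
        map_sub, map_smul, hXv, hskd X hX, smul_sub, smul_smul, mul_zero, zero_div, zero_smul,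
        sub_zero]
      have e2 : 2 / b d d * -b d (X v) = -(2 * b d (X v) / b d d) := by ring
      have e3 : 2 / b d d * b d v = 2 * b d v / b d d := by ring
      rw [e2, e3, neg_smul]
      abel
    rw [h3] at h1
    have h4 := L.smul_mem (b d d / 2) h1
    rw [smul_smul] at h4
    have h5 : b d d / 2 * (2 / b d d) = 1 := by field_simp
    rwa [h5, one_smul] at h4
  -- step 3
  obtain ⟨W, hW⟩ : ∃ W : Submodule E V, ∀ w, w ∈ W ↔ b d w = 0 ∧ wedge b w d ∈ L := by
    refine ⟨{ carrier := {w | b d w = 0 ∧ wedge b w d ∈ L}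
              add_mem' := ?_
              zero_mem' := ?_
              smul_mem' := ?_ }, fun w => Iff.rfl⟩
    · rintro u v ⟨u1, u2⟩ ⟨v1, v2⟩
      refine ⟨by rw [map_add, u1, v1, add_zero], ?_⟩
      rw [a4_add]
      exact L.add_mem u2 v2
    · refine ⟨map_zero _, ?_⟩
      have : wedge b (0 : V) d = 0 := by
        have := a4_smul b (0 : E) (0 : V) d
        simpa using this
      rw [this]
      exact L.zero_mem
    · rintro c u ⟨u1, u2⟩
      refine ⟨by rw [map_smul, u1, smul_zero], ?_⟩
      rw [a4_smul]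
      exact L.smul_mem c u2
  have hXd : ∀ X ∈ L, X d ∈ W := fun X hX => (hW _).2 ⟨hskd X hX, step2 X hX⟩
  have hstab : ∀ X ∈ L, ∀ u ∈ Submodule.span E {d} ⊔ W, X u ∈ Submodule.span E {d} ⊔ W := by
    intro X hX u hu
    obtain ⟨u1, hu1, w, hw, rfl⟩ := Submodule.mem_sup.1 hu
    obtain ⟨c, rfl⟩ := Submodule.mem_span_singleton.1 hu1
    rw [map_add, map_smul]
    refine Submodule.add_mem _ (Submodule.smul_mem _ _ (Submodule.mem_sup_right (hXd X hX))) ?_
    obtain ⟨w1, w2⟩ := (hW w).1 hw
    have hZ := C.brk X hX _ w2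
    have hZd := hXd _ hZ
    have e : (X * wedge b w d - wedge b w d * X) d = b d d • X w - b (X w) d • d := by
      rw [a4_brk b X (C.skew X hX)]
      have e1 : b (X d) d = 0 := by rw [C.symm]; exact hskd X hX
      have e2 : b w d = 0 := by rw [C.symm]; exact w1
      simp only [LinearMap.add_apply, a4_apply, e1, e2, zero_smul, sub_zero, add_zero]
    rw [e] at hZd
    have e3 : X w = ((b d d)⁻¹ * b (X w) d) • d + (b d d)⁻¹ • (b d d • X w - b (X w) d • d) := by
      rw [smul_sub, smul_smul, smul_smul, inv_mul_cancel₀ hβ, one_smul]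
      abel
    rw [e3]
    exact Submodule.add_mem_sup (Submodule.smul_mem _ _ (Submodule.mem_span_singleton_self d))
      (Submodule.smul_mem _ _ hZd)
  have htop : Submodule.span E {d} ⊔ W = ⊤ := by
    rcases hL _ hstab with h1 | h1
    · exfalso
      apply hd0
      have : d ∈ Submodule.span E {d} ⊔ W :=
        Submodule.mem_sup_left (Submodule.mem_span_singleton_self d)
      rw [h1] at this
      exact (Submodule.mem_bot E).1 this
    · exact h1
  have hdec : ∀ v : V, ∃ c : E, ∃ w ∈ W, v = c • d + w := by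
    intro v
    have hv : v ∈ Submodule.span E {d} ⊔ W := by rw [htop]; exact Submodule.mem_top
    obtain ⟨u1, hu1, w, hw, rfl⟩ := Submodule.mem_sup.1 hv
    obtain ⟨c, rfl⟩ := Submodule.mem_span_singleton.1 hu1
    exact ⟨c, w, hw, rfl⟩
  -- step 4
  have step4 : ∀ w ∈ W, ∀ w' ∈ W, wedge b w w' ∈ L := by
    intro w hw w' hw'
    obtain ⟨w1, w2⟩ := (hW w).1 hw
    obtain ⟨w1', w2'⟩ := (hW w').1 hw'
    have hZ := C.brk _ w2' _ w2
    rw [a4_brk b _ (C.skew _ w2')] at hZ
    have e1 : wedge b w' d w = -(b w' w) • d := by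
      rw [a4_apply, w1, zero_smul, zero_sub, neg_smul]
    have e2 : wedge b w' d d = b d d • w' := by
      have : b w' d = 0 := by rw [C.symm]; exact w1'
      rw [a4_apply, this, zero_smul, sub_zero]
    have e3 : wedge b w (b d d • w') = b d d • wedge b w w' := by
      rw [a4_swap, a4_smul, a4_swap b w' w, smul_neg, neg_neg]
    rw [e1, e2, a4_smul, a4_self, smul_zero, zero_add, e3] at hZ
    have h5 := L.smul_mem (b d d)⁻¹ hZ
    rwa [smul_smul, inv_mul_cancel₀ hβ, one_smul] at h5
  obtain ⟨c, w, hw, rfl⟩ := hdec x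
  obtain ⟨c', w', hw', rfl⟩ := hdec y
  have e : wedge b (c • d + w) (c' • d + w') = c • (c' • (0 : Module.End E V)) +
      c • (-wedge b w' d) + (c' • wedge b w d + wedge b w w') := by
    rw [a4_add, a4_smul, a4_swap b d, a4_add, a4_smul, a4_self, a4_swap b w, a4_add, a4_smul,
      a4_swap b d w, a4_swap b w' w]
    simp only [smul_zero, zero_add, smul_neg, neg_add, neg_neg]
  rw [e]
  refine L.add_mem (L.add_mem ?_ ?_) (L.add_mem ?_ ?_)
  · simp
  · exact L.smul_mem _ (L.neg_mem ((hW w').1 hw').2)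
  · exact L.smul_mem _ ((hW w).1 hw).2
  · exact step4 w hw w' hw'

end

end Pool.Agent.OM
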