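import Pool.Agent.Lib_helper44.OX.Defs

/-!
# Block X1
-/

set_option autoImplicit false

namespace Pool.Agent.OX

open Module Pool.Agent.OM

section

variable {E V : Type*} [Field E] [AddCommGroup V] [Module E V]

theorem x1_nd {b : LinearMap.BilinForm E V}
    (hs : (∀ x y, b x y = b y x) ∨ ∀ x y, b x y = - b y x)
    (hn : ∀ x, (∀ y, b x y = 0) → x = 0) : b.Nondegenerate := by
  refine ⟨hn, fun y hy => hn y fun x => ?_⟩
  rcases hs with h | h
  · rw [h, hy]
  · rw [h, hy, neg_zero]

theorem x1_left [FiniteDimensional E V] {b : LinearMap.BilinForm E V} (hB : b.Nondegenerate)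
    (u : V) : ∑ k, b u (finBasis E V k) • b.dualBasis hB (finBasis E V) k = u := by
  conv_rhs => rw [← (b.dualBasis hB (finBasis E V)).sum_repr u]
  simp only [LinearMap.BilinForm.dualBasis_repr_apply]

theorem x1_right [FiniteDimensional E V] {b : LinearMap.BilinForm E V} (hB : b.Nondegenerate)
    (v : V) : ∑ k, b (b.dualBasis hB (finBasis E V) k) v • finBasis E V k = v := by
  conv_rhs => rw [← (finBasis E V).sum_repr v]
  apply Finset.sum_congr rfl
  intro k _
  congr 1
  conv_lhs => rw [← (finBasis E V).sum_repr v]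
  rw [map_sum]
  simp only [map_smul, LinearMap.BilinForm.apply_dualBasis_left, smul_eq_mul]
  simp

theorem ox_all [FiniteDimensional E V] (h2 : (2 : E) ≠ 0) (b : LinearMap.BilinForm E V)
    (hs : ∀ x y, b x y = b y x) (hn : ∀ x, (∀ y, b x y = 0) → x = 0)
    (L : Submodule E (Module.End E V)) (hL : ∀ x y, wedge b x y ∈ L) : Skew b ≤ L := by
  intro X hX
  have hX' : ∀ x y, b (X x) y = - b x (X y) := hX
  have hB := x1_nd (Or.inl hs) hn
  have h1 : X = (2 : E)⁻¹ • ∑ k, wedge b (X (finBasis E V k)) (b.dualBasis hB (finBasis E V) k) := by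
    apply LinearMap.ext
    intro v
    rw [LinearMap.smul_apply, LinearMap.sum_apply]
    have h3 : ∀ k, wedge b (X (finBasis E V k)) (b.dualBasis hB (finBasis E V) k) v =
        b (b.dualBasis hB (finBasis E V) k) v • X (finBasis E V k) +
          b (X v) (finBasis E V k) • b.dualBasis hB (finBasis E V) k := by
      intro k
      rw [wedge, LinearMap.sub_apply, LinearMap.smulRight_apply, LinearMap.smulRight_apply, hX',
        hs (finBasis E V k) (X v), neg_smul, sub_neg_eq_add]
    simp only [h3]
    rw [Finset.sum_add_distrib, x1_left]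
    have h4 : ∑ k, b (b.dualBasis hB (finBasis E V) k) v • X (finBasis E V k) = X v := by
      simp only [← map_smul]
      rw [← map_sum, x1_right]
    rw [h4, ← two_smul E (X v), smul_smul, inv_mul_cancel₀ h2, one_smul]
  rw [h1]
  exact L.smul_mem _ (L.sum_mem fun k _ => hL _ _)

theorem ox_allS [FiniteDimensional E V] (h2 : (2 : E) ≠ 0) (b : LinearMap.BilinForm E V)
    (hs : ∀ x y, b x y = - b y x) (hn : ∀ x, (∀ y, b x y = 0) → x = 0)
    (L : Submodule E (Module.End E V)) (hL : ∀ x y, wedgeS b x y ∈ L) : Skew b ≤ L := by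
  intro X hX
  have hX' : ∀ x y, b (X x) y = - b x (X y) := hX
  have hB := x1_nd (Or.inr hs) hn
  have h1 : X = (2 : E)⁻¹ • ∑ k, wedgeS b (X (finBasis E V k)) (b.dualBasis hB (finBasis E V) k) := by
    apply LinearMap.ext
    intro v
    rw [LinearMap.smul_apply, LinearMap.sum_apply]
    have h3 : ∀ k, wedgeS b (X (finBasis E V k)) (b.dualBasis hB (finBasis E V) k) v =
        b (b.dualBasis hB (finBasis E V) k) v • X (finBasis E V k) +
          b (X v) (finBasis E V k) • b.dualBasis hB (finBasis E V) k := by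
      intro k
      rw [wedgeS, LinearMap.add_apply, LinearMap.smulRight_apply, LinearMap.smulRight_apply, hX',
        hs (finBasis E V k) (X v), neg_neg]
    simp only [h3]
    rw [Finset.sum_add_distrib, x1_left]
    have h4 : ∑ k, b (b.dualBasis hB (finBasis E V) k) v • X (finBasis E V k) = X v := by
      simp only [← map_smul]
      rw [← map_sum, x1_right]
    rw [h4, ← two_smul E (X v), smul_smul, inv_mul_cancel₀ h2, one_smul]
  rw [h1]
  exact L.smul_mem _ (L.sum_mem fun k _ => hL _ _)

end


end Pool.Agent.OX
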