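import Pool.Agent.Lib_helper44.OF.A4
import Pool.Agent.Lib_helper44.OF.A8
import Pool.Agent.Lib_helper44.OF.X1
import Pool.Agent.Lib_helper99.MP.CtxS

/-!
# The Lie algebra, matrix form
-/

set_option autoImplicit false

namespace Pool.Agent.OX

open Module Pool.Agent.OM

/-- The abstract theorem on Lie algebras, for symmetric and alternating forms. -/
theorem alg {k : Type*} [Field k] [IsAlgClosed k] [CharZero k] {G : Type*} [Group G] {m q : ℕ}
    (hq : q = 2 ∨ q = 3) (hm : 5 ≤ m) (A : G →* Matrix (Fin m) (Fin m) k)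
    (BC : Matrix (Fin m) (Fin m) k) (hB0 : BC.det ≠ 0)
    (hcase : (BC.transpose = BC ∧ ∀ g, (A g).transpose * BC * A g = BC) ∨
      (BC.transpose = -BC ∧ q = 3 ∧ ∀ g, ∃ c : k, (A g).transpose * BC * A g = c • BC))
    (σ : G) (hσ : A σ ^ q = 1) (hr : (A σ - 1).rank = q - 1)
    (hirr : ∀ U : Submodule k (Fin m → k), (∀ n ∈ Subgroup.normalClosure {σ}, ∀ u ∈ U,
      (A n).mulVec u ∈ U) → U = ⊥ ∨ U = ⊤)
    (M : Submodule k (Matrix (Fin m) (Fin m) k))
    (hskew : ∀ X ∈ M, X.transpose * BC + BC * X = 0)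
    (hbrk : ∀ X ∈ M, ∀ Y ∈ M, X * Y - Y * X ∈ M)
    (hconj : ∀ g, ∀ X ∈ M, A g * X * A g⁻¹ ∈ M) (hne : ∃ X ∈ M, X ≠ 0) :
    (∀ U : Submodule k (Fin m → k), (∀ X ∈ M, ∀ u ∈ U, X.mulVec u ∈ U) → U = ⊥ ∨ U = ⊤) ∧
    ∀ X : Matrix (Fin m) (Fin m) k, X.transpose * BC + BC * X = 0 → X ∈ M := by
  classical
  set b : LinearMap.BilinForm k (Fin m → k) := Matrix.toBilin' BC with hb
  have hbapp : ∀ x y, b x y = x ⬝ᵥ BC.mulVec y := fun x y => Matrix.toBilin'_apply' BC x y
  let e : Matrix (Fin m) (Fin m) k ≃ₐ[k] Module.End k (Fin m → k) := Matrix.toLinAlgEquiv'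
  have he : ∀ X v, e X v = X.mulVec v := fun X v => rfl
  let L : Submodule k (Module.End k (Fin m → k)) := M.map e.toLinearMap
  have hL : ∀ X, e X ∈ L ↔ X ∈ M := by
    intro X
    constructor
    · rintro ⟨Y, hY, hXY⟩
      have : Y = X := e.injective hXY
      rwa [← this]
    · intro hX
      exact ⟨X, hX, rfl⟩
  let R : G →* Module.End k (Fin m → k) := (e : _ →* _).comp A
  have hR : ∀ g, R g = e (A g) := fun g => rfl
  have hnd : ∀ x, (∀ y, b x y = 0) → x = 0 := by
    intro x hx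
    have h4 : Matrix.vecMul x BC = 0 := by
      apply dotProduct_eq_zero
      intro y
      rw [← Matrix.dotProduct_mulVec, ← hbapp]
      exact hx y
    exact Matrix.eq_zero_of_vecMul_eq_zero hB0 h4
  have hgen : ∀ (g : G) (c : k), (A g).transpose * BC * A g = c • BC →
      ∀ x y, b (R g x) (R g y) = c * b x y := by
    intro g c hg x y
    rw [hR, he, he, hbapp, hbapp, Matrix.mulVec_mulVec, ← Matrix.vecMul_transpose,
      ← Matrix.dotProduct_mulVec, Matrix.mulVec_mulVec, ← mul_assoc, hg, Matrix.smul_mulVec,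
      dotProduct_smul, smul_eq_mul]
  have hsk : ∀ X : Matrix (Fin m) (Fin m) k, X.transpose * BC + BC * X = 0 ↔
      ∀ x y, b (e X x) y = - b x (e X y) := by
    intro X
    constructor
    · intro h4 x y
      rw [he, he, hbapp, hbapp, ← Matrix.vecMul_transpose, ← Matrix.dotProduct_mulVec,
        Matrix.mulVec_mulVec, Matrix.mulVec_mulVec, eq_neg_of_add_eq_zero_left h4,
        Matrix.neg_mulVec, dotProduct_neg]
    · intro h4
      apply Matrix.toBilin'.injective
      apply LinearMap.ext₂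
      intro x y
      rw [map_add, map_zero]
      have h5 := h4 x y
      rw [he, he, hbapp, hbapp, ← Matrix.vecMul_transpose, ← Matrix.dotProduct_mulVec,
        Matrix.mulVec_mulVec, Matrix.mulVec_mulVec] at h5
      rw [LinearMap.add_apply, LinearMap.add_apply, Matrix.toBilin'_apply', Matrix.toBilin'_apply',
        h5]
      simp
  have hskL : ∀ X ∈ L, ∀ x y, b (X x) y = - b x (X y) := by
    rintro _ ⟨X, hX, rfl⟩
    exact (hsk X).mp (hskew X hX)
  have hbrL : ∀ X ∈ L, ∀ Y ∈ L, X * Y - Y * X ∈ L := by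
    rintro _ ⟨X, hX, rfl⟩ _ ⟨Y, hY, rfl⟩
    exact ⟨X * Y - Y * X, hbrk X hX Y hY, by
      simp only [AlgEquiv.toLinearMap_apply, map_sub, map_mul]⟩
  have hcoL : ∀ g, ∀ X ∈ L, R g * X * R g⁻¹ ∈ L := by
    rintro g _ ⟨X, hX, rfl⟩
    refine ⟨A g * X * A g⁻¹, hconj g X hX, ?_⟩
    simp only [AlgEquiv.toLinearMap_apply, map_mul, hR]
  have hneL : ∃ X ∈ L, X ≠ 0 := by
    obtain ⟨X, hX, hX0⟩ := hne
    exact ⟨e X, (hL X).mpr hX, fun h => hX0 (e.injective (by rw [h, map_zero]))⟩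
  have hirL : ∀ U : Submodule k (Fin m → k), (∀ n ∈ Subgroup.normalClosure {σ}, ∀ u ∈ U,
      R n u ∈ U) → U = ⊥ ∨ U = ⊤ := hirr
  have hRq : R σ ^ q = 1 := by
    rw [hR, ← map_pow, hσ, map_one]
  have hRr : finrank k (LinearMap.range (R σ - 1)) = q - 1 := by
    rw [← hr]
    have h5 : R σ - 1 = Matrix.toLin' (A σ - 1) := by
      rw [hR, map_sub, Matrix.toLin'_one]
      rfl
    rw [h5, Matrix.rank, Matrix.toLin'_apply']
  have h20 : (2 : k) ≠ 0 := two_ne_zero
  have hfin : finrank k (Fin m → k) = m := Module.finrank_fin_fun _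
  have key : (∀ U : Submodule k (Fin m → k), (∀ X ∈ L, ∀ u ∈ U, X u ∈ U) → U = ⊥ ∨ U = ⊤) ∧
      Skew b ≤ L := by
    rcases hq with rfl | rfl
    · rcases hcase with ⟨hBt, hA⟩ | ⟨_, hq3, _⟩
      · have hbs : ∀ x y, b x y = b y x := by
          intro x y
          rw [hbapp, hbapp, Matrix.dotProduct_mulVec, dotProduct_comm, ← Matrix.mulVec_transpose,
            hBt]
        have C : Ctx b L R σ := by
          refine ⟨hbs, hnd, ?_, hskL, hbrL, hcoL, hneL, hirL⟩
          intro g x y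
          rw [hgen g 1 (by rw [one_smul]; exact hA g), one_mul]
        have h7 : ∀ U : Submodule k (Fin m → k), (∀ X ∈ L, ∀ u ∈ U, X u ∈ U) →
            U = ⊥ ∨ U = ⊤ := fun U hU => om_irr2 h20 C hRq hRr (by omega) U hU
        exact ⟨h7, ox_all h20 b hbs hnd L (om_full2 h20 C hRq hRr h7)⟩
      · omega
    · have C : ∃ ε : k, Pool.Agent.MPB.CtxE b ε L R σ := by
        rcases hcase with ⟨hBt, hA⟩ | ⟨hBt, _, hA⟩
        · refine ⟨1, Or.inl rfl, ?_, hnd, ?_, hskL, hbrL, hcoL, hneL, hirL⟩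
          · intro x y
            rw [one_mul, hbapp, hbapp, Matrix.dotProduct_mulVec, dotProduct_comm,
              ← Matrix.mulVec_transpose, hBt]
          · intro g
            exact ⟨1, hgen g 1 (by rw [one_smul]; exact hA g)⟩
        · refine ⟨-1, Or.inr rfl, ?_, hnd, ?_, hskL, hbrL, hcoL, hneL, hirL⟩
          · intro x y
            rw [neg_one_mul, hbapp, hbapp, Matrix.dotProduct_mulVec, dotProduct_comm,
              ← Matrix.mulVec_transpose, hBt, Matrix.neg_mulVec, dotProduct_neg]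
          · intro g
            obtain ⟨c, hc⟩ := hA g
            exact ⟨c, hgen g c hc⟩
      obtain ⟨ε, C⟩ := C
      exact ⟨fun U hU => Pool.Agent.MPB.mp_irr C hRq hRr (by omega) U hU,
        fun X hX => Pool.Agent.MPB.mp_skew C hRq hRr (by omega) X hX⟩
  refine ⟨fun U hU => key.1 U ?_, fun X hX => ?_⟩
  · rintro _ ⟨X, hX, rfl⟩ u hu
    exact hU X hX u hu
  · rw [← hL]
    exact key.2 ((hsk X).mp hX)

end Pool.Agent.OX
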