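import Pool.Agent.Lib_helper44.OM.Top
import Pool.Agent.Lib_helper44.ON.Par
import Pool.Agent.Lib_helper44.OF.R1

/-!
# Fixed vectors and the rank argument
-/

set_option autoImplicit false

namespace Pool.Agent.OM

open NumberField Pool.Agent.TT Pool.Agent.TBL Polynomial Topology Module

attribute [local instance] matRing matAlg matUltra matComplete

section Inc

variable {p : ℕ} [hp : Fact p.Prime]

theorem inc_inj : Function.Injective (inc p) := by
  unfold inc
  rw [RingHom.coe_comp]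
  exact (algebraMap ℚ_[p] ℂ_[p]).injective.comp Subtype.val_injective

theorem inc_norm (x : ℤ_[p]) : ‖inc p x‖ = ‖x‖ := by
  unfold inc
  rw [RingHom.comp_apply, norm_algebraMap']
  rfl

theorem inc_cont : Continuous (inc p) := by
  unfold inc
  rw [RingHom.coe_comp]
  exact (continuous_algebraMap ℚ_[p] ℂ_[p]).comp continuous_subtype_val

/-- The representation over `ℂ_[p]`. -/
noncomputable def toC {G : Type*} [Group G] {m : ℕ}
    (ρ : G →* Matrix (Fin m) (Fin m) ℤ_[p]) : G →* Matrix (Fin m) (Fin m) ℂ_[p] :=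
  (((inc p).mapMatrix : Matrix (Fin m) (Fin m) ℤ_[p] →+* Matrix (Fin m) (Fin m) ℂ_[p]) :
    Matrix (Fin m) (Fin m) ℤ_[p] →* Matrix (Fin m) (Fin m) ℂ_[p]).comp ρ

theorem toC_apply {G : Type*} [Group G] {m : ℕ} (ρ : G →* Matrix (Fin m) (Fin m) ℤ_[p]) (g : G) :
    toC ρ g = (ρ g).map (inc p) := rfl

theorem toC_cont {G : Type*} [Group G] [TopologicalSpace G] {m : ℕ}
    (ρ : G →* Matrix (Fin m) (Fin m) ℤ_[p]) (hc : Continuous ρ) :
    Continuous (toC ρ : G → Matrix (Fin m) (Fin m) ℂ_[p]) :=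
  hc.matrix_map inc_cont

end Inc

/-- Fixed vectors and the rank argument. -/
theorem coset_step {G : Type*} [Group G] {p m : ℕ} [hp : Fact p.Prime]
    (A : G →* Matrix (Fin m) (Fin m) ℂ_[p]) (BC : Matrix (Fin m) (Fin m) ℂ_[p])
    (hB : BC.transpose = BC) (hB0 : BC.det ≠ 0) (hA : ∀ g, (A g).transpose * BC * A g = BC)
    (N : Subgroup G) (hN : ∀ h ∈ N, ‖A h - 1‖ ≤ ‖(p : ℂ_[p])‖ ^ 2)
    (hN1 : ∀ h ∈ N, (A h).det = 1) (hp0 : (p : ℂ_[p]) ≠ 0) (hp1 : ‖(p : ℂ_[p])‖ < 1)
    (hfull : ∀ x y : Fin m → ℂ_[p], LinearMap.toMatrix' (wedge (Matrix.toBilin' BC) x y) ∈ sp A N p)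
    (h₀ : G) (hdet : (A h₀).det = (-1) ^ m) : ∃ h ∈ N, (A (h * h₀) - 1).det ≠ 0 := by
  classical
  set b : LinearMap.BilinForm ℂ_[p] (Fin m → ℂ_[p]) := Matrix.toBilin' BC with hb
  have hbapp : ∀ x y, b x y = x ⬝ᵥ BC.mulVec y := fun x y => Matrix.toBilin'_apply' BC x y
  have hbs : ∀ x y, b x y = b y x := by
    intro x y
    rw [hbapp, hbapp, Matrix.dotProduct_mulVec, dotProduct_comm, ← Matrix.mulVec_transpose, hB]
  have hbn : ∀ x, (∀ y, b x y = 0) → x = 0 := by
    intro x hx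
    have h1 : Matrix.vecMul x BC = 0 := by
      apply dotProduct_eq_zero
      intro y
      rw [← Matrix.dotProduct_mulVec, ← hbapp]
      exact hx y
    exact Matrix.eq_zero_of_vecMul_eq_zero hB0 h1
  have hborth : ∀ g x y, b ((A g).mulVec x) ((A g).mulVec y) = b x y := by
    intro g x y
    rw [hbapp, hbapp, Matrix.mulVec_mulVec, ← Matrix.vecMul_transpose, ← Matrix.dotProduct_mulVec,
      Matrix.mulVec_mulVec, ← mul_assoc, hA]
  -- an element of maximal rank
  obtain ⟨h, hh, hmax⟩ : ∃ h ∈ N, ∀ h' ∈ N, (A (h' * h₀) - 1).rank ≤ (A (h * h₀) - 1).rank := by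
    let S : Set ℕ := {r | ∃ h ∈ N, (A (h * h₀) - 1).rank = r}
    have hS : S.Nonempty := ⟨_, 1, N.one_mem, rfl⟩
    have hSb : BddAbove S := by
      refine ⟨m, ?_⟩
      rintro r ⟨h, _, rfl⟩
      exact (Matrix.rank_le_width _).trans le_rfl
    obtain ⟨h, hh, hr⟩ := Nat.sSup_mem hS hSb
    refine ⟨h, hh, fun h' hh' => ?_⟩
    rw [hr]
    exact le_csSup hSb ⟨h', hh', rfl⟩
  refine ⟨h, hh, fun hzero => ?_⟩
  set y := h * h₀ with hy
  have hmax' : ∀ h' ∈ N, (A (h' * y) - 1).rank ≤ (A y - 1).rank := by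
    intro h' hh'
    rw [hy, ← mul_assoc]
    exact hmax _ (N.mul_mem hh' hh)
  have hdy : (A y).det = (-1) ^ m := by
    rw [hy, map_mul, Matrix.det_mul, hN1 h hh, one_mul, hdet]
  have hlin : Matrix.toLin' (A y) - 1 = Matrix.toLin' (A y - 1) := by
    rw [map_sub, Matrix.toLin'_one]
    rfl
  have hpar := Pool.Agent.ON.on_parity b hbs hbn (Matrix.toLin' (A y)) (by
    intro u v
    rw [Matrix.toLin'_apply, Matrix.toLin'_apply]
    exact hborth y u v)
  rw [LinearMap.det_toLin', hdy, hlin] at hpar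
  have hrk : finrank ℂ_[p] (LinearMap.range (Matrix.toLin' (A y - 1))) = (A y - 1).rank := by
    rw [Matrix.rank, Matrix.toLin'_apply']
  rw [hrk] at hpar
  have hle : (A y - 1).rank ≤ m := Matrix.rank_le_width _
  have hker : finrank ℂ_[p] (LinearMap.ker (Matrix.toLin' (A y - 1))) = m - (A y - 1).rank := by
    have h5 := LinearMap.finrank_range_add_finrank_ker (Matrix.toLin' (A y - 1))
    rw [hrk, Module.finrank_fin_fun] at h5
    omega
  have hge : 1 < finrank ℂ_[p] (LinearMap.ker (Matrix.toLin' (A y - 1))) := by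
    obtain ⟨u, hu0, hu⟩ := Matrix.exists_mulVec_eq_zero_iff.mpr hzero
    have h4 : 0 < finrank ℂ_[p] (LinearMap.ker (Matrix.toLin' (A y - 1))) := by
      rw [Module.finrank_pos_iff_exists_ne_zero]
      refine ⟨⟨u, ?_⟩, fun h => hu0 (congrArg Subtype.val h)⟩
      rw [LinearMap.mem_ker, Matrix.toLin'_apply]
      exact hu
    by_contra hcon
    have h5 : m = (A y - 1).rank + 1 := by omega
    have h6 : ((-1 : ℂ_[p]) ^ m) = (-1) ^ (A y - 1).rank * (-1) := by
      rw [← pow_succ, ← h5]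
    rw [h6] at hpar
    have h7 : (-1 : ℂ_[p]) = 1 := by
      apply mul_left_cancel₀ (pow_ne_zero (A y - 1).rank (neg_ne_zero.mpr (one_ne_zero (α := ℂ_[p]))))
      rw [mul_one]
      exact hpar
    have h8 : (2 : ℂ_[p]) = 0 := by
      have : (2 : ℂ_[p]) = 1 - (-1) := by norm_num
      rw [this, h7, sub_self]
    exact two_ne_zero h8
  -- two independent fixed vectors
  obtain ⟨v, w, hvF, hwF, hvw⟩ : ∃ v w : Fin m → ℂ_[p], (A y).mulVec v = v ∧
      (A y).mulVec w = w ∧ LinearIndependent ℂ_[p] ![v, w] := by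
    have hmem : ∀ c : LinearMap.ker (Matrix.toLin' (A y - 1)), (A y).mulVec c = c := by
      intro c
      have h5 := c.2
      rw [LinearMap.mem_ker, Matrix.toLin'_apply, Matrix.sub_mulVec, Matrix.one_mulVec,
        sub_eq_zero] at h5
      exact h5
    obtain ⟨c, hc0⟩ : ∃ c : LinearMap.ker (Matrix.toLin' (A y - 1)), c ≠ 0 := by
      rw [← Module.finrank_pos_iff_exists_ne_zero (R := ℂ_[p])]
      omega
    obtain ⟨d, hd⟩ := exists_linearIndependent_pair_of_one_lt_finrank (R := ℂ_[p]) hge hc0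
    refine ⟨c, d, hmem c, hmem d, ?_⟩
    have h5 := hd.map' (Submodule.subtype _) (Submodule.ker_subtype _)
    have h6 : ![(c : Fin m → ℂ_[p]), (d : Fin m → ℂ_[p])] = (Submodule.subtype _) ∘ ![c, d] := by
      funext i
      fin_cases i <;> rfl
    rw [h6]
    exact h5
  have hw' : Matrix.vecMul (Matrix.vecMul w BC) (A y) = Matrix.vecMul w BC := by
    have h5 : Matrix.vecMul (Matrix.vecMul ((A y).mulVec w) BC) (A y) = Matrix.vecMul w BC := by
      rw [← Matrix.vecMul_transpose, Matrix.vecMul_vecMul, Matrix.vecMul_vecMul, ← mul_assoc, hA]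
    rwa [hwF] at h5
  have hzero2 : ∀ x z : Fin m → ℂ_[p], b z v * b w x - b x v * b w z = 0 := by
    intro x z
    have h5 := om_rank A N hp0 hp1 hN hmax' (hfull x z) hvF hw'
    rw [LinearMap.toMatrix'_mulVec, ← Matrix.dotProduct_mulVec, ← hbapp] at h5
    rw [wedge, LinearMap.sub_apply, LinearMap.smulRight_apply, LinearMap.smulRight_apply, map_sub,
      map_smul, map_smul, smul_eq_mul, smul_eq_mul] at h5
    exact h5
  -- contradiction
  have hv0 : v ≠ 0 := hvw.ne_zero 0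
  obtain ⟨x, hx1, hx2⟩ : ∃ x, b x v = 0 ∧ b w x ≠ 0 := by
    by_contra hcon
    push Not at hcon
    obtain ⟨u, hu⟩ : ∃ u, b u v ≠ 0 := by
      by_contra h5
      push Not at h5
      exact hv0 (hbn v fun y => by rw [hbs]; exact h5 y)
    have h6 : w = (b w u / b u v) • v := by
      rw [← sub_eq_zero]
      apply hbn
      intro z
      have h7 := hcon (z - (b z v / b u v) • u) (by
        rw [map_sub, LinearMap.sub_apply, map_smul, LinearMap.smul_apply, smul_eq_mul,
          div_mul_cancel₀ _ hu, sub_self])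
      rw [map_sub, map_smul, smul_eq_mul] at h7
      rw [map_sub, LinearMap.sub_apply, map_smul, LinearMap.smul_apply, smul_eq_mul, hbs v z]
      rw [← h7]
      ring
    have h7 := (LinearIndependent.pair_iff.mp hvw) (b w u / b u v) (-1) (by
      rw [← h6]
      simp)
    exact one_ne_zero (neg_eq_zero.mp h7.2)
  apply hv0
  apply hbn
  intro z
  have h5 := hzero2 x z
  rw [hx1, zero_mul, sub_zero] at h5
  rw [hbs]
  exact (mul_eq_zero.mp h5).resolve_right hx2

theorem ncl_lift {G M : Type*} [Group G] [Monoid M] (r : G →* M) {g₀ σ : G}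
    (h : r σ = r g₀) : ∀ g ∈ Subgroup.normalClosure {g₀}, ∃ g' ∈ Subgroup.normalClosure {σ},
      r g' = r g := by
  intro g hg
  induction hg using Subgroup.closure_induction with
  | mem x hx =>
    rw [Group.mem_conjugatesOfSet_iff] at hx
    obtain ⟨a, ha, hax⟩ := hx
    rw [Set.mem_singleton_iff] at ha
    subst ha
    rw [isConj_iff] at hax
    obtain ⟨c, rfl⟩ := hax
    refine ⟨c * σ * c⁻¹, ?_, ?_⟩
    · exact Subgroup.normalClosure_normal.conj_mem σ
        (Subgroup.subset_normalClosure (Set.mem_singleton σ)) c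
    · rw [map_mul, map_mul, map_mul, map_mul, h]
  | one => exact ⟨1, one_mem _, rfl⟩
  | mul x y _ _ hx hy =>
    obtain ⟨x', hx', hx2⟩ := hx
    obtain ⟨y', hy', hy2⟩ := hy
    exact ⟨x' * y', mul_mem hx' hy', by rw [map_mul, map_mul, hx2, hy2]⟩
  | inv x _ hx =>
    obtain ⟨x', hx', hx2⟩ := hx
    refine ⟨x'⁻¹, inv_mem hx', ?_⟩
    have h4 : r x'⁻¹ * r x' = 1 := by rw [← map_mul, inv_mul_cancel, map_one]
    have h5 : r x * r x⁻¹ = 1 := by rw [← map_mul, mul_inv_cancel, map_one]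
    calc r x'⁻¹ = r x'⁻¹ * (r x * r x⁻¹) := by rw [h5, mul_one]
      _ = (r x'⁻¹ * r x') * r x⁻¹ := by rw [hx2, mul_assoc]
      _ = r x⁻¹ := by rw [h4, one_mul]

/-- The reduction modulo `p`. -/
noncomputable def toF {G : Type*} [Group G] {p m : ℕ} [Fact p.Prime]
    (ρ : G →* Matrix (Fin m) (Fin m) ℤ_[p]) : G →* Matrix (Fin m) (Fin m) (ZMod p) :=
  (((PadicInt.toZMod : ℤ_[p] →+* ZMod p).mapMatrix : Matrix (Fin m) (Fin m) ℤ_[p] →+*
    Matrix (Fin m) (Fin m) (ZMod p)) : Matrix (Fin m) (Fin m) ℤ_[p] →*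
      Matrix (Fin m) (Fin m) (ZMod p)).comp ρ


end Pool.Agent.OM
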