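import Pool.Agent.Lib_helper7.TE.Zar
import Pool.Agent.Lib_helper44.OF.G1
import Mathlib

/-!
# Odd dimension: the special orthogonal group in the Zariski closure
-/

set_option autoImplicit false

namespace Pool.Agent.OX

open Pool.Agent.TBL Pool.Agent.TE Pool.Agent.OM Topology Module

section

variable {k : Type*} [Field k] {m d : ℕ}

/-- The matrix of polynomials `M ↦ 1 - (M₁₁ P) ⊗ (M₂₂ Q)`. -/
noncomputable def polM (P : Matrix (Fin m) (Fin m) k) (Q : Matrix (Fin d) (Fin d) k) :
    Matrix (Fin m × Fin d) (Fin m × Fin d)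
      (MvPolynomial ((Fin m ⊕ Fin d) × (Fin m ⊕ Fin d)) k) := fun x y =>
  MvPolynomial.C ((1 : Matrix (Fin m × Fin d) (Fin m × Fin d) k) x y) -
    (∑ l, MvPolynomial.X (Sum.inl x.1, Sum.inl l) * MvPolynomial.C (P l y.1)) *
      (∑ l, MvPolynomial.X (Sum.inr x.2, Sum.inr l) * MvPolynomial.C (Q l y.2))

theorem ev_pol (P : Matrix (Fin m) (Fin m) k) (Q : Matrix (Fin d) (Fin d) k)
    (X : Matrix (Fin m) (Fin m) k) (Z : Matrix (Fin d) (Fin d) k) :
    ev (Matrix.fromBlocks X 0 0 Z) (polM P Q).det =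
      (1 - Matrix.kroneckerMap (· * ·) (X * P) (Z * Q)).det := by
  unfold ev
  rw [RingHom.map_det]
  congr 1
  ext x y
  simp [polM, Matrix.mul_apply, RingHom.mapMatrix_apply]

end

theorem dual_dual {k : Type*} [CommRing k] {n : Type*} [Fintype n] [DecidableEq n] {G : Type*}
    [Group G] (A : G →* Matrix n n k) : dual (dual A) = A := by
  ext g : 1
  change ((A g⁻¹⁻¹).transpose).transpose = A g
  rw [inv_inv, Matrix.transpose_transpose]

/-- In odd dimension: an element without the eigenvalue one in the tensor product. -/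
theorem odd_step {G : Type*} [Group G] {p m d : ℕ} [hp : Fact p.Prime] (hm : 5 ≤ m)
    (hodd : Odd m) (A : G →* Matrix (Fin m) (Fin m) ℂ_[p]) (BC : Matrix (Fin m) (Fin m) ℂ_[p])
    (hB : BC.transpose = BC) (hB0 : BC.det ≠ 0) (hA : ∀ g, (A g).transpose * BC * A g = BC)
    (ν : G →* Matrix (Fin d) (Fin d) ℂ_[p]) (N : Subgroup G) (hs : Small p (join A ν) N)
    (hp0 : (p : ℂ_[p]) ≠ 0) (hp1 : ‖(p : ℂ_[p])‖ < 1)
    (hfull : ∀ X : Matrix (Fin m) (Fin m) ℂ_[p], X.transpose * BC + BC * X = 0 →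
      Matrix.fromBlocks X 0 0 0 ∈ sp (join A ν) N p) (h₀ : G)
    (hne : (1 - (A h₀).det • ν h₀).det ≠ 0) : ∃ h ∈ N, (tens A ν (h * h₀) - 1).det ≠ 0 := by
  classical
  by_contra hcon
  push Not at hcon
  set b : LinearMap.BilinForm ℂ_[p] (Fin m → ℂ_[p]) := Matrix.toBilin' BC with hb
  have hbapp : ∀ x y, b x y = x ⬝ᵥ BC.mulVec y := fun x y => Matrix.toBilin'_apply' BC x y
  have hbs : ∀ x y, b x y = b y x := by
    intro x y
    rw [hbapp, hbapp, Matrix.dotProduct_mulVec, dotProduct_comm, ← Matrix.mulVec_transpose, hB]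
  have hbn : ∀ x, (∀ y, b x y = 0) → x = 0 := by
    intro x hx
    have h1 : Matrix.vecMul x BC = 0 := by
      apply dotProduct_eq_zero
      intro y
      rw [← Matrix.dotProduct_mulVec, ← hbapp]
      exact hx y
    exact Matrix.eq_zero_of_vecMul_eq_zero hB0 h1
  -- the polynomial
  set Φ := (polM (A h₀) (ν h₀)).det with hΦ
  have hvan : ∀ h ∈ N, ev (join A ν h) Φ = 0 := by
    intro h hh
    have h1 := hcon h hh
    have h2 : join A ν h = Matrix.fromBlocks (A h) 0 0 (ν h) := rfl
    have h3 : tens A ν (h * h₀) = Matrix.kroneckerMap (· * ·) (A h * A h₀) (ν h * ν h₀) := by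
      rw [← map_mul, ← map_mul]
      rfl
    rw [h2, hΦ, ev_pol, ← h3, ← neg_sub, Matrix.det_neg, h1, mul_zero]
  have hcl : ∀ g ∈ cl (join A ν) N p, ev g Φ = 0 := by
    intro g hg
    have h1 := lemmaZ (join A ν) N hp0 hp1 hs hg Φ hvan 1 N.one_mem
    rwa [map_one, mul_one] at h1
  -- the submonoid
  let e : Module.End ℂ_[p] (Fin m → ℂ_[p]) ≃ₐ[ℂ_[p]] Matrix (Fin m) (Fin m) ℂ_[p] :=
    (Matrix.toLinAlgEquiv' : Matrix (Fin m) (Fin m) ℂ_[p] ≃ₐ[ℂ_[p]] _).symm
  have he : ∀ T v, (e T).mulVec v = T v := by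
    intro T v
    exact congrFun (congrArg DFunLike.coe
      ((Matrix.toLinAlgEquiv' : Matrix (Fin m) (Fin m) ℂ_[p] ≃ₐ[ℂ_[p]] _).apply_symm_apply T)) v
  let S : Submonoid (Module.End ℂ_[p] (Fin m → ℂ_[p])) :=
    { carrier := {T | Matrix.fromBlocks (e T) 0 0 1 ∈ cl (join A ν) N p}
      one_mem' := by
        change Matrix.fromBlocks (e 1) 0 0 1 ∈ cl (join A ν) N p
        rw [map_one, Matrix.fromBlocks_one]
        exact one_mem _
      mul_mem' := by
        intro T T' hT hT'
        change Matrix.fromBlocks (e (T * T')) 0 0 1 ∈ cl (join A ν) N p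
        have h1 := mul_mem (show Matrix.fromBlocks (e T) 0 0 1 ∈ cl (join A ν) N p from hT)
          (show Matrix.fromBlocks (e T') 0 0 1 ∈ cl (join A ν) N p from hT')
        rw [Matrix.fromBlocks_multiply] at h1
        simpa using h1 }
  have hδ : (A h₀).det * (A h₀).det = 1 := by
    have h4 := congrArg Matrix.det (hA h₀)
    rw [Matrix.det_mul, Matrix.det_mul, Matrix.det_transpose] at h4
    have h5 : ((A h₀).det * (A h₀).det - 1) * BC.det = 0 := by
      rw [sub_mul, one_mul, sub_eq_zero]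
      calc (A h₀).det * (A h₀).det * BC.det = (A h₀).det * BC.det * (A h₀).det := by ring
        _ = BC.det := h4
    exact sub_eq_zero.mp ((mul_eq_zero.mp h5).resolve_right hB0)
  set δ := (A h₀).det with hδd
  have hAi : A h₀⁻¹ * A h₀ = 1 := by rw [← map_mul, inv_mul_cancel, map_one]
  set T : Module.End ℂ_[p] (Fin m → ℂ_[p]) := e.symm (δ • A h₀⁻¹) with hT
  have heT : e T = δ • A h₀⁻¹ := by rw [hT, AlgEquiv.apply_symm_apply]
  have hmem : T ∈ S := by
    refine ox_gen two_ne_zero b hbs hbn (by rw [Module.finrank_fin_fun]; exact hm) S ?_ T ?_ ?_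
    · intro x y hx hy hxy
      have hyx : b y x = 0 := by rw [hbs]; exact hxy
      change Matrix.fromBlocks (e (1 + wedge b x y)) 0 0 1 ∈ cl (join A ν) N p
      have hw0 : wedge b x y * wedge b x y = 0 := by
        apply LinearMap.ext
        intro v
        rw [Module.End.mul_apply]
        simp only [wedge, LinearMap.sub_apply, LinearMap.smulRight_apply, map_sub, map_smul, hx,
          hy, hxy, hyx]
        simp
      apply Submonoid.subset_closure
      refine ⟨Matrix.fromBlocks (e (wedge b x y)) 0 0 0, ?_, ?_, 1, ?_⟩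
      · apply hfull
        apply Matrix.toBilin'.injective
        apply LinearMap.ext₂
        intro u v
        rw [map_add, map_zero]
        have h5 : b (wedge b x y u) v = - b u (wedge b x y v) := by
          simp only [wedge, LinearMap.sub_apply, LinearMap.smulRight_apply, map_sub, map_smul,
            LinearMap.smul_apply, smul_eq_mul]
          rw [hbs u x, hbs u y]
          ring
        rw [← he, ← he, hbapp, hbapp, ← Matrix.vecMul_transpose, ← Matrix.dotProduct_mulVec,
          Matrix.mulVec_mulVec, Matrix.mulVec_mulVec] at h5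
        rw [LinearMap.add_apply, LinearMap.add_apply, Matrix.toBilin'_apply',
          Matrix.toBilin'_apply', h5]
        simp
      · rw [Matrix.fromBlocks_multiply]
        rw [← map_mul, hw0, map_zero]
        simp
      · rw [map_add, map_one, one_smul]
        have h6 : (1 : Matrix (Fin m ⊕ Fin d) (Fin m ⊕ Fin d) ℂ_[p]) =
            Matrix.fromBlocks 1 0 0 1 := Matrix.fromBlocks_one.symm
        rw [h6, Matrix.fromBlocks_add]
        simp
    · intro x y
      rw [← he, ← he, heT, hbapp, hbapp, Matrix.mulVec_mulVec, ← Matrix.vecMul_transpose,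
        ← Matrix.dotProduct_mulVec, Matrix.mulVec_mulVec, ← mul_assoc]
      have h6 : (δ • A h₀⁻¹).transpose * BC * (δ • A h₀⁻¹) = BC := by
        rw [Matrix.transpose_smul, smul_mul_assoc, smul_mul_assoc, mul_smul_comm, smul_smul, hδ,
          one_smul, hA]
      rw [h6]
    · have h6 : LinearMap.det T = (e T).det := by
        rw [← LinearMap.det_toMatrix' T]
        rfl
      rw [h6, heT, Matrix.det_smul, Fintype.card_fin]
      have h7 : (A h₀⁻¹).det * δ = 1 := by rw [hδd, ← Matrix.det_mul, hAi, Matrix.det_one]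
      have h8 : (A h₀⁻¹).det = δ := by
        calc (A h₀⁻¹).det = (A h₀⁻¹).det * (δ * δ) := by rw [hδ, mul_one]
          _ = ((A h₀⁻¹).det * δ) * δ := by ring
          _ = δ := by rw [h7, one_mul]
      rw [h8]
      obtain ⟨r, hr⟩ := hodd
      rw [hr, pow_succ, pow_mul, sq, hδ, one_pow, one_mul, hδ]
  have h9 := hcl _ (show Matrix.fromBlocks (e T) 0 0 1 ∈ cl (join A ν) N p from hmem)
  rw [hΦ, ev_pol, heT, smul_mul_assoc, hAi, one_mul] at h9
  have h10 : (1 : Matrix (Fin m × Fin d) (Fin m × Fin d) ℂ_[p]) -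
      Matrix.kroneckerMap (· * ·) (δ • (1 : Matrix (Fin m) (Fin m) ℂ_[p])) (ν h₀) =
      Matrix.kroneckerMap (· * ·) (1 : Matrix (Fin m) (Fin m) ℂ_[p]) (1 - δ • ν h₀) := by
    ext i j
    by_cases h9 : i.1 = j.1 <;> by_cases h10 : i.2 = j.2 <;>
      simp [Matrix.one_apply, Prod.ext_iff, h9, h10]
  rw [h10, Matrix.det_kronecker, Matrix.det_one, one_pow, one_mul] at h9
  exact hne (eq_zero_of_pow_eq_zero h9)

end Pool.Agent.OX
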