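import Pool.Agent.Lib_helper44.OF.X1
import Pool.Agent.Lib_helper48.OT.Fft3

/-!
# OX block X4: first fundamental theorem for the symplectic Lie algebra
-/

set_option autoImplicit false

namespace Pool.Agent.OX

open Module Pool.Agent.OM

section

variable {E V : Type*} [Field E] [CharZero E] [AddCommGroup V] [Module E V]
  [FiniteDimensional E V]

/-- The pairing is a product over a matching of its positions. -/
theorem x4_pair {n : ℕ} (ω : Unit → LinearMap.BilinForm E V)
    {P : Finset (Fin n)} {F : (Fin n → Unit → V) → E} (h : OT.Pairing (W := fun _ : Unit => V) ω P F) :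
    ∃ (k : ℕ) (g : Fin k × Fin 2 → Fin n), Function.Injective g ∧ (∀ x, x ∈ P ↔ ∃ t, g t = x) ∧
      ∀ v, F v = ∏ i : Fin k, ω () (v (g (i, 0)) ()) (v (g (i, 1)) ()) := by
  induction h with
  | one =>
    refine ⟨0, fun t => t.1.elim0, fun t => t.1.elim0, fun x => ?_, fun v => by simp⟩
    simp
  | @mul P F a a' i hne ha ha' hF ih =>
    obtain ⟨k, g, hg, hP, hFe⟩ := ih
    obtain ⟨g', h0, hs⟩ : ∃ g' : Fin (k + 1) × Fin 2 → Fin n,
        (∀ e, g' (0, e) = if e = 0 then a else a') ∧ ∀ (j : Fin k) e, g' (j.succ, e) = g (j, e) :=
      ⟨fun t => Fin.cases (if t.2 = 0 then a else a') (fun j => g (j, t.2)) t.1,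
        fun e => rfl, fun j e => rfl⟩
    have hga : ∀ t, g t ≠ a := fun t h => ha ((hP a).2 ⟨t, h⟩)
    have hga' : ∀ t, g t ≠ a' := fun t h => ha' ((hP a').2 ⟨t, h⟩)
    have h00 : g' (0, 0) = a := by rw [h0, if_pos rfl]
    have h01 : g' (0, 1) = a' := by rw [h0, if_neg (by decide)]
    refine ⟨k + 1, g', ?_, ?_, ?_⟩
    · rintro ⟨i, e⟩ ⟨i', e'⟩ h
      induction i using Fin.cases with
      | zero =>
        induction i' using Fin.cases with
        | zero =>
          have : e = e' := by
            fin_cases e <;> fin_cases e'
            · rfl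
            · have h2 : g' (0, 0) = g' (0, 1) := h
              rw [h00, h01] at h2
              exact absurd h2 hne
            · have h2 : g' (0, 1) = g' (0, 0) := h
              rw [h00, h01] at h2
              exact absurd h2.symm hne
            · rfl
          rw [this]
        | succ j =>
          rw [h0, hs] at h
          split_ifs at h
          · exact absurd h.symm (hga _)
          · exact absurd h.symm (hga' _)
      | succ j =>
        induction i' using Fin.cases with
        | zero =>
          rw [h0, hs] at h
          split_ifs at h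
          · exact absurd h (hga _)
          · exact absurd h (hga' _)
        | succ j' =>
          rw [hs, hs] at h
          have := hg h
          simp only [Prod.mk.injEq] at this
          rw [this.1, this.2]
    · intro x
      rw [Finset.mem_insert, Finset.mem_insert, hP]
      constructor
      · rintro (rfl | rfl | ⟨⟨j, e⟩, rfl⟩)
        · exact ⟨(0, 0), h00⟩
        · exact ⟨(0, 1), h01⟩
        · exact ⟨(j.succ, e), hs j e⟩
      · rintro ⟨⟨i, e⟩, rfl⟩
        induction i using Fin.cases with
        | zero =>
          rw [h0]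
          split_ifs
          · exact Or.inl rfl
          · exact Or.inr (Or.inl rfl)
        | succ j => exact Or.inr (Or.inr ⟨(j, e), (hs j e).symm⟩)
    · intro v
      rw [Fin.prod_univ_succ, h00, h01]
      simp only [hs]
      rw [hFe]

/-- OX8: first fundamental theorem for the symplectic Lie algebra. -/
theorem ox_fftS (b : LinearMap.BilinForm E V) (hs : ∀ x y, b x y = - b y x)
    (hn : ∀ x, (∀ y, b x y = 0) → x = 0) (n : ℕ)
    (f : MultilinearMap E (fun _ : Fin n => V) E)
    (hf : ∀ (x y : V) (v : Fin n → V), ∑ i, f (Function.update v i (wedgeS b x y (v i))) = 0) :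
    (fun v => f v) ∈ Submodule.span E {F : (Fin n → V) → E | IsPairing b n F} := by
  classical
  have hnd : b.Nondegenerate := by
    refine ⟨fun x hx => hn x hx, fun y hy => hn y (fun x => ?_)⟩
    rw [hs, hy, neg_zero]
  -- all skew operators
  let L : Submodule E (Module.End E V) :=
    { carrier := {X | ∀ v : Fin n → V, ∑ i, f (Function.update v i (X (v i))) = 0}
      zero_mem' := fun v => by simp
      add_mem' := fun {X Y} hX hY v => by
        have hX : ∀ v : Fin n → V, ∑ i, f (Function.update v i (X (v i))) = 0 := hX
        have hY : ∀ v : Fin n → V, ∑ i, f (Function.update v i (Y (v i))) = 0 := hY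
        simp only [LinearMap.add_apply, MultilinearMap.map_update_add, Finset.sum_add_distrib, hX,
          hY, add_zero]
      smul_mem' := fun c X hX v => by
        have hX : ∀ v : Fin n → V, ∑ i, f (Function.update v i (X (v i))) = 0 := hX
        simp only [LinearMap.smul_apply, MultilinearMap.map_update_smul, ← Finset.smul_sum, hX,
          smul_zero] }
  have hL : Skew b ≤ L := ox_allS two_ne_zero b hs hn L (fun x y => hf x y)
  obtain ⟨f', hf'⟩ : ∃ f' : (Fin n → Unit → V) → E, ∀ v, f' v = f (fun a => v a ()) :=
    ⟨_, fun v => rfl⟩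
  have hup : ∀ (v : Fin n → Unit → V) (a : Fin n) (x : Unit → V),
      (fun c => Function.update v a x c ()) = Function.update (fun c => v c ()) a (x ()) := by
    intro v a x
    funext c
    by_cases hc : c = a
    · subst hc
      rw [Function.update_self, Function.update_self]
    · rw [Function.update_of_ne hc, Function.update_of_ne hc]
  have hpml : OT.PML E (Finset.univ : Finset (Fin n)) f' := by
    refine ⟨fun a _ v x y => ?_, fun a _ v c x => ?_, fun a ha => absurd (Finset.mem_univ a) ha⟩
    · rw [hf', hf', hf', hup, hup, hup, Pi.add_apply, MultilinearMap.map_update_add]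
    · rw [hf', hf', hup, hup, Pi.smul_apply, MultilinearMap.map_update_smul, smul_eq_mul]
  have hinv : OT.Inv (W := fun _ : Unit => V) (fun _ => b) (Finset.univ : Finset (Fin n)) f' := by
    intro i x hx v
    have h1 := hL (mem_Skew.2 hx) (fun c => v c ())
    rw [← h1]
    refine Finset.sum_congr rfl fun a _ => ?_
    rw [hf', hup]
    rfl
  have key := OT.fft (W := fun _ : Unit => V) (ω := fun _ => b) (fun _ => hnd) (fun _ => hs) n
    (Finset.univ : Finset (Fin n)) (by rw [Finset.card_univ, Fintype.card_fin]) f' hpml hinv
  -- transport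
  let T : ((Fin n → Unit → V) → E) →ₗ[E] ((Fin n → V) → E) :=
    { toFun := fun F v => F (fun a _ => v a)
      map_add' := fun _ _ => rfl
      map_smul' := fun _ _ => rfl }
  have hT : (fun v => f v) = T f' := by
    funext v
    show f v = f' (fun a _ => v a)
    rw [hf']
  rw [hT]
  have h2 : T f' ∈ (OT.S (W := fun _ : Unit => V) (fun _ => b) (Finset.univ : Finset (Fin n))).map T :=
    Submodule.mem_map_of_mem key
  rw [OT.S, Submodule.map_span] at h2
  refine Submodule.span_mono ?_ h2
  rintro _ ⟨F, hF, rfl⟩
  obtain ⟨k, g, hg, hP, hFe⟩ := x4_pair _ hF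
  have hb : Function.Bijective g := ⟨hg, fun x => (hP x).1 (Finset.mem_univ x)⟩
  refine ⟨k, Equiv.ofBijective g hb, fun v => ?_⟩
  show F (fun a _ => v a) = _
  rw [hFe]
  rfl

end


end Pool.Agent.OX
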