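import Pool.Agent.Lib_helper7.TB.Lie
import Pool.Agent.Lib_helper44.OX.Defs

/-!
# OX block Y3, helper75: logarithms of a tensor product
-/

set_option autoImplicit false

namespace Pool.Agent.OX

open Module Pool.Agent.TBL Filter Topology

theorem y3_lim {k R : Type*} [NontriviallyNormedField k] [NormedRing R] [NormedAlgebra k R]
    {p : ℕ} {a L : R} (h : Tendsto (dq k p a) atTop (𝓝 L)) : lg k p a = L := by
  have h1 : ∃ L : R, Tendsto (dq k p a) atTop (𝓝 L) := ⟨L, h⟩
  rw [lg, dif_pos h1]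
  exact tendsto_nhds_unique h1.choose_spec h

section

variable {k : Type*} [NontriviallyNormedField k] [IsUltrametricDist k] [CompleteSpace k]
  {n : Type*} [Fintype n] [DecidableEq n] {n' : Type*} [Fintype n'] [DecidableEq n']

attribute [local instance] matRing matAlg matUltra matComplete

variable {G : Type*} [Group G] (A : G →* Matrix n n k) (A' : G →* Matrix n' n' k)
  (N : Subgroup G)

/-- The linear map `M ↦ M₁₁ ⊗ 1 - 1 ⊗ M₂₂ᵀ`. -/
def y3_T : Matrix (n ⊕ n') (n ⊕ n') k →ₗ[k] Matrix (n × n') (n × n') k where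
  toFun M := Matrix.of fun i j => M (Sum.inl i.1) (Sum.inl j.1) * (1 : Matrix n' n' k) i.2 j.2 -
    (1 : Matrix n n k) i.1 j.1 * M (Sum.inr j.2) (Sum.inr i.2)
  map_add' M M' := by
    ext i j
    simp only [Matrix.of_apply, Matrix.add_apply]
    ring
  map_smul' c M := by
    ext i j
    simp only [Matrix.of_apply, Matrix.smul_apply, smul_eq_mul, RingHom.id_apply]
    ring

theorem y3_T_apply (X : Matrix n n k) (Y : Matrix n' n' k) :
    y3_T (Matrix.fromBlocks X 0 0 Y) = Matrix.kroneckerMap (fun x y => x * y) X (1 : Matrix n' n' k) -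
      Matrix.kroneckerMap (fun x y => x * y) (1 : Matrix n n k) Y.transpose := by
  ext i j
  rfl

theorem y3_near_join {p : ℕ} {h : G} (h1 : ‖A h - 1‖ ≤ ‖(p : k)‖ ^ 2)
    (h2 : ‖A' h - 1‖ ≤ ‖(p : k)‖ ^ 2) : ‖join A A' h - 1‖ ≤ ‖(p : k)‖ ^ 2 := by
  refine (Matrix.norm_le_iff (by positivity)).2 fun i j => ?_
  rcases i with i | i <;> rcases j with j | j
  · have e : (join A A' h - 1) (Sum.inl i) (Sum.inl j) = (A h - 1) i j := by
      simp [join, Matrix.one_apply]
    rw [e]
    exact (Matrix.norm_entry_le_entrywise_sup_norm _).trans h1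
  · have e : (join A A' h - 1) (Sum.inl i) (Sum.inr j) = 0 := by
      simp [join, Matrix.one_apply]
    rw [e, norm_zero]
    positivity
  · have e : (join A A' h - 1) (Sum.inr i) (Sum.inl j) = 0 := by
      simp [join, Matrix.one_apply]
    rw [e, norm_zero]
    positivity
  · have e : (join A A' h - 1) (Sum.inr i) (Sum.inr j) = (A' h - 1) i j := by
      simp [join, Matrix.one_apply]
    rw [e]
    exact (Matrix.norm_entry_le_entrywise_sup_norm _).trans h2

theorem y3_near_dual {p : ℕ} {h : G} (h2 : ‖A' h⁻¹ - 1‖ ≤ ‖(p : k)‖ ^ 2) :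
    ‖dual A' h - 1‖ ≤ ‖(p : k)‖ ^ 2 := by
  refine (Matrix.norm_le_iff (by positivity)).2 fun i j => ?_
  have e : (dual A' h - 1) i j = (A' h⁻¹ - 1) j i := by
    simp [dual, Matrix.one_apply, eq_comm]
  rw [e]
  exact (Matrix.norm_entry_le_entrywise_sup_norm _).trans h2

theorem y3_dq (p : ℕ) (h : G) (m : ℕ) : dq k p (tens A A' h) m =
    y3_T (dq k p (join A (dual A') h) m) *
      Matrix.kroneckerMap (fun x y => x * y) (1 : Matrix n n k) (A' h ^ p ^ m) := by
  have h1 : tens A A' h ^ p ^ m =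
      Matrix.kroneckerMap (fun x y => x * y) (A h ^ p ^ m) (A' h ^ p ^ m) := by
    rw [← map_pow, ← map_pow A, ← map_pow A']
    rfl
  have h2 : join A (dual A') h ^ p ^ m - 1 =
      Matrix.fromBlocks (A h ^ p ^ m - 1) 0 0 ((A' h⁻¹ ^ p ^ m).transpose - 1) := by
    have h3 : join A (dual A') h ^ p ^ m =
        Matrix.fromBlocks (A h ^ p ^ m) 0 0 ((A' h⁻¹ ^ p ^ m).transpose) := by
      rw [← map_pow, ← map_pow A, ← map_pow A', inv_pow]
      rfl
    rw [h3]
    ext i j
    rcases i with i | i <;> rcases j with j | j <;>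
      simp [Matrix.fromBlocks, Matrix.one_apply]
  have h4 : A' h⁻¹ ^ p ^ m * A' h ^ p ^ m = 1 := by
    rw [← map_pow, ← map_pow, ← map_mul, inv_pow, inv_mul_cancel, map_one]
  have k1 : ∀ (X X' : Matrix n n k) (Y Y' : Matrix n' n' k),
      Matrix.kroneckerMap (fun x y => x * y) X Y * Matrix.kroneckerMap (fun x y => x * y) X' Y' =
        Matrix.kroneckerMap (fun x y => x * y) (X * X') (Y * Y') := fun X X' Y Y' =>
    (Matrix.mul_kronecker_mul X X' Y Y').symm
  have k2 : ∀ (X X' : Matrix n n k) (Y : Matrix n' n' k),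
      Matrix.kroneckerMap (fun x y => x * y) (X - X') Y =
        Matrix.kroneckerMap (fun x y => x * y) X Y - Matrix.kroneckerMap (fun x y => x * y) X' Y :=
    fun X X' Y => by
      ext i j
      simp [sub_mul]
  have k3 : ∀ (X : Matrix n n k) (Y Y' : Matrix n' n' k),
      Matrix.kroneckerMap (fun x y => x * y) X (Y - Y') =
        Matrix.kroneckerMap (fun x y => x * y) X Y - Matrix.kroneckerMap (fun x y => x * y) X Y' :=
    fun X Y Y' => by
      ext i j
      simp [mul_sub]
  have k4 : Matrix.kroneckerMap (fun x y => x * y) (1 : Matrix n n k) (1 : Matrix n' n' k) = 1 :=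
    Matrix.one_kronecker_one
  rw [dq, dq, map_smul, h2, y3_T_apply, smul_mul_assoc, Matrix.transpose_sub,
    Matrix.transpose_transpose, Matrix.transpose_one, sub_mul, k1, k1, one_mul, mul_one, mul_one,
    sub_mul, h4, one_mul, k2, k3, k4, h1]
  congr 1
  abel

theorem y3_lg {p : ℕ} (hp0 : (p : k) ≠ 0) (hp : ‖(p : k)‖ < 1)
    (hN : ∀ h ∈ N, ‖A h - 1‖ ≤ ‖(p : k)‖ ^ 2) (hN' : ∀ h ∈ N, ‖A' h - 1‖ ≤ ‖(p : k)‖ ^ 2)
    {h : G} (hh : h ∈ N) :
    lg k p (tens A A' h) = y3_T (lg k p (join A (dual A') h)) := by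
  have h1 := tendsto_dq (k := k) hp0 hp
    (y3_near_join A (dual A') (hN h hh) (y3_near_dual A' (hN' h⁻¹ (N.inv_mem hh))))
  have h2 := tendsto_pow_pow (k := k) hp (hN' h hh)
  have h3 : Continuous (fun Y : Matrix n' n' k =>
      Matrix.kroneckerMap (fun x y => x * y) (1 : Matrix n n k) Y) := by
    apply continuous_pi
    intro i
    apply continuous_pi
    intro j
    exact continuous_const.mul (continuous_apply_apply i.2 j.2)
  have h4 : Tendsto (fun m => y3_T (dq k p (join A (dual A') h) m) *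
      Matrix.kroneckerMap (fun x y => x * y) (1 : Matrix n n k) (A' h ^ p ^ m)) atTop
      (𝓝 (y3_T (lg k p (join A (dual A') h)) *
        Matrix.kroneckerMap (fun x y => x * y) (1 : Matrix n n k) (1 : Matrix n' n' k))) :=
    (((LinearMap.continuous_of_finiteDimensional
      (y3_T (k := k) (n := n) (n' := n'))).tendsto _).comp h1).mul ((h3.tendsto _).comp h2)
  have k4 : Matrix.kroneckerMap (fun x y => x * y) (1 : Matrix n n k) (1 : Matrix n' n' k) = 1 :=
    Matrix.one_kronecker_one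
  rw [k4, mul_one] at h4
  refine y3_lim (h4.congr fun m => ?_)
  rw [y3_dq]

theorem ox_tens {p : ℕ} (hp0 : (p : k) ≠ 0) (hp : ‖(p : k)‖ < 1)
    (hN : ∀ h ∈ N, ‖A h - 1‖ ≤ ‖(p : k)‖ ^ 2) (hN' : ∀ h ∈ N, ‖A' h - 1‖ ≤ ‖(p : k)‖ ^ 2)
    {X : Matrix n n k} (hX : Matrix.fromBlocks X 0 0 0 ∈ sp (join A (dual A')) N p) :
    Matrix.kroneckerMap (fun x y => x * y) X (1 : Matrix n' n' k) ∈ sp (tens A A') N p := by
  have h1 : ∀ M ∈ sp (join A (dual A')) N p, y3_T M ∈ sp (tens A A') N p := by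
    intro M hM
    induction hM using Submodule.span_induction with
    | mem x hx =>
      obtain ⟨h, hh, rfl⟩ := hx
      rw [← y3_lg A A' N hp0 hp hN hN' hh]
      exact lg_mem_sp (tens A A') N p hh
    | zero => rw [map_zero]; exact zero_mem _
    | add x y _ _ hx hy => rw [map_add]; exact add_mem hx hy
    | smul c x _ hx => rw [map_smul]; exact Submodule.smul_mem _ _ hx
  have h2 := h1 _ hX
  rw [y3_T_apply] at h2
  have h3 : Matrix.kroneckerMap (fun x y => x * y) (1 : Matrix n n k)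
      ((0 : Matrix n' n' k).transpose) = 0 := by
    ext i j
    simp
  rwa [h3, sub_zero] at h2

end


end Pool.Agent.OX
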