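import Pool.Agent.Lib_helper7.TB.Lie
import Pool.Agent.Lib_helper44.OX.Defs
import Pool.Agent.Lib_helper7.TB.Coef

/-!
# OX block Y4: a nonsingular combination of logarithms (copy of helper28, TE28/Gen.lean, Red.lean)
-/

set_option autoImplicit false

namespace Pool.Agent.OX

section

open Matrix Polynomial

/-- The polynomial `det (X + t Y)`. -/
theorem y4_det_line {k : Type*} [Field k] {n : Type*} [Fintype n] [DecidableEq n]
    (X Y : Matrix n n k) : ∃ P : k[X], ∀ t : k, P.eval t = (X + t • Y).det := by
  refine ⟨(X.map C + (Polynomial.X : k[X]) • Y.map C).det, fun t => ?_⟩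
  rw [← Polynomial.coe_evalRingHom, RingHom.map_det]
  congr 1
  ext i j
  simp
  ring

/-- If all matrices of an additive set stable under infinitely many scalars are singular, then all
matrices of its span are singular. -/
theorem y4_det_span {k : Type*} [Field k] {n : Type*} [Fintype n] [DecidableEq n]
    (S : AddSubmonoid (Matrix n n k)) (c : Set k) (hc : c.Infinite)
    (hS : ∀ a ∈ c, ∀ X ∈ S, a • X ∈ S) (h : ∀ X ∈ S, X.det = 0) :
    ∀ X ∈ Submodule.span k (S : Set (Matrix n n k)), X.det = 0 := by
  classical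
  have key : ∀ (s : Finset (Matrix n n k)) (f : Matrix n n k → k),
      (∀ L ∈ s, L ∈ S) → ∀ Y ∈ S, (Y + ∑ L ∈ s, f L • L).det = 0 := by
    intro s f
    induction s using Finset.induction_on with
    | empty =>
      intro _ Y hY
      rw [Finset.sum_empty, add_zero]
      exact h Y hY
    | insert L s hL ih =>
      intro hs Y hY
      have ih' := ih (fun M hM => hs M (Finset.mem_insert_of_mem hM))
      have hLS := hs L (Finset.mem_insert_self _ _)
      rw [Finset.sum_insert hL]
      obtain ⟨P, hP⟩ := y4_det_line (Y + ∑ M ∈ s, f M • M) L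
      have hP0 : P = 0 := by
        apply Polynomial.eq_zero_of_infinite_isRoot
        apply hc.mono
        intro a ha
        rw [Set.mem_ofPred_eq, Polynomial.IsRoot.def, hP]
        have h1 : Y + ∑ M ∈ s, f M • M + a • L = (Y + a • L) + ∑ M ∈ s, f M • M := by abel
        rw [h1]
        exact ih' _ (S.add_mem hY (hS a ha L hLS))
      have h2 := hP (f L)
      rw [hP0, Polynomial.eval_zero] at h2
      have h3 : Y + (f L • L + ∑ M ∈ s, f M • M) = Y + ∑ M ∈ s, f M • M + f L • L := by abel
      rw [h3, ← h2]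
  intro X hX
  rw [Submodule.mem_span_set'] at hX
  obtain ⟨m, f, g, rfl⟩ := hX
  have hX' : (∑ i, f i • (g i : Matrix n n k)) ∈
      Submodule.span k ((Finset.univ.image fun i => (g i : Matrix n n k) :
        Finset (Matrix n n k)) : Set (Matrix n n k)) := by
    apply Submodule.sum_mem
    intro i _
    apply Submodule.smul_mem
    apply Submodule.subset_span
    rw [Finset.mem_coe, Finset.mem_image]
    exact ⟨i, Finset.mem_univ i, rfl⟩
  rw [Submodule.mem_span_finset] at hX'
  obtain ⟨f', _, hf'⟩ := hX'
  rw [← hf']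
  have h1 := key (Finset.univ.image fun i => (g i : Matrix n n k)) f' (by
    intro L hL
    rw [Finset.mem_image] at hL
    obtain ⟨i, _, rfl⟩ := hL
    exact (g i).2) 0 S.zero_mem
  rw [zero_add] at h1
  exact h1

end

open Module Pool.Agent.TBL Filter Topology

section

variable {k : Type*} [NontriviallyNormedField k] [IsUltrametricDist k] [CompleteSpace k]
  {n : Type*} [Fintype n] [DecidableEq n]

attribute [local instance] matRing matAlg matUltra matComplete

variable {G : Type*} [Group G] (A : G →* Matrix n n k) (N : Subgroup G)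

/-- Sums of logarithms are limits of difference quotients. -/
theorem y4_tendsto_list {p : ℕ} (hp0 : (p : k) ≠ 0) (hp : ‖(p : k)‖ < 1)
    (hN : ∀ h ∈ N, ‖A h - 1‖ ≤ ‖(p : k)‖ ^ 2) (l : List G) (hl : ∀ h ∈ l, h ∈ N) :
    ∃ s : ℕ → G, (∀ m, s m ∈ N) ∧ Tendsto (fun m => A (s m)) atTop (𝓝 1) ∧
      Tendsto (fun m => ((p : k) ^ m)⁻¹ • (A (s m) - 1)) atTop
        (𝓝 (l.map fun h => lg k p (A h)).sum) := by
  induction l with
  | nil =>
    refine ⟨fun _ => 1, fun _ => N.one_mem, ?_, ?_⟩
    · simp only [map_one]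
      exact tendsto_const_nhds
    · simp only [map_one, sub_self, smul_zero, List.map_nil, List.sum_nil]
      exact tendsto_const_nhds
  | cons h l ih =>
    obtain ⟨s, hs, hs1, hs2⟩ := ih (fun g hg => hl g (List.mem_cons_of_mem _ hg))
    have hh : h ∈ N := hl h List.mem_cons_self
    have h1 := tendsto_dq (k := k) hp0 hp (hN h hh)
    have h2 := tendsto_pow_pow (k := k) hp (hN h hh)
    refine ⟨fun m => h ^ p ^ m * s m, fun m => N.mul_mem (N.pow_mem hh _) (hs m), ?_, ?_⟩
    · have h3 := h2.mul hs1
      rw [mul_one] at h3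
      refine h3.congr fun m => ?_
      rw [map_mul, map_pow]
    · have h3 := (h1.mul hs1).add hs2
      rw [mul_one, ← List.sum_cons, ← List.map_cons (f := fun h => lg k p (A h))] at h3
      refine h3.congr fun m => ?_
      rw [dq, map_mul, map_pow, smul_mul_assoc, ← smul_add, sub_mul, one_mul]
      congr 1
      abel

/-- If the span of the logarithms contains a nonsingular matrix, then some element does not have
the eigenvalue `1`. -/
theorem ox_exists [CharZero k] {p : ℕ} (hp0 : (p : k) ≠ 0) (hp : ‖(p : k)‖ < 1)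
    (hN : ∀ h ∈ N, ‖A h - 1‖ ≤ ‖(p : k)‖ ^ 2) {X : Matrix n n k} (hX : X ∈ sp A N p)
    (hX0 : X.det ≠ 0) : ∃ h ∈ N, (A h - 1).det ≠ 0 := by
  by_contra hcon
  push Not at hcon
  have hlist : ∀ l : List G, (∀ h ∈ l, h ∈ N) → ((l.map fun h => lg k p (A h)).sum).det = 0 := by
    intro l hl
    obtain ⟨s, hs, _, hs2⟩ := y4_tendsto_list A N hp0 hp hN l hl
    have hc : Continuous fun M : Matrix n n k => M.det :=
      (differentiable_det (k := k) (n := n)).continuous
    have h1 := (hc.tendsto _).comp hs2
    refine tendsto_nhds_unique h1 (tendsto_const_nhds.congr fun m => ?_)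
    rw [Function.comp_apply, Matrix.det_smul, hcon _ (hs m), mul_zero]
  let S : AddSubmonoid (Matrix n n k) :=
    { carrier := {Y | ∃ l : List G, (∀ h ∈ l, h ∈ N) ∧ Y = (l.map fun h => lg k p (A h)).sum}
      zero_mem' := ⟨[], by simp, by simp⟩
      add_mem' := by
        rintro Y Y' ⟨l, hl, rfl⟩ ⟨l', hl', rfl⟩
        refine ⟨l ++ l', ?_, ?_⟩
        · intro h hh
          rcases List.mem_append.mp hh with hh | hh
          · exact hl h hh
          · exact hl' h hh
        · rw [List.map_append, List.sum_append] }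
  have hS : ∀ Y ∈ S, Y.det = 0 := by
    rintro Y ⟨l, hl, rfl⟩
    exact hlist l hl
  have hinf : (Set.range fun m : ℕ => (m : k)).Infinite :=
    Set.infinite_range_of_injective Nat.cast_injective
  have h1 := y4_det_span S _ hinf (by
    rintro _ ⟨m, rfl⟩ Y hY
    change (m : k) • Y ∈ S
    rw [Nat.cast_smul_eq_nsmul]
    exact S.nsmul_mem hY m) hS
  apply hX0
  apply h1
  have h2 : sp A N p ≤ Submodule.span k (S : Set (Matrix n n k)) := by
    unfold sp
    apply Submodule.span_mono
    rintro _ ⟨h, hh, rfl⟩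
    exact ⟨[h], by simpa using hh, by simp⟩
  exact h2 hX

end


end Pool.Agent.OX
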