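import Pool.Agent.Lib_helper44.OF.R2
import Pool.Agent.Lib_helper44.OX.Defs

/-!
# OX block Y5: derivatives of equivariant multilinear maps
-/

set_option autoImplicit false

namespace Pool.Agent.OX

open Module Pool.Agent.TBL Filter Topology

section

variable {k : Type*} [NontriviallyNormedField k] [IsUltrametricDist k]
  {n : Type*} [Fintype n] [DecidableEq n] {n' : Type*} [Fintype n'] [DecidableEq n']

attribute [local instance] matRing matAlg

theorem y5_norm_le {m : Type*} [Fintype m] [DecidableEq m] {M : Matrix m m k} {c : ℝ}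
    (hc : 0 ≤ c) : ‖M‖ ≤ c ↔ ∀ i j, ‖M i j‖ ≤ c := by
  let _ : NormedAddCommGroup (Matrix m m k) := Matrix.normedAddCommGroup
  exact Matrix.norm_le_iff hc

variable {G : Type*} [Group G] (A : G →* Matrix n n k) (A' : G →* Matrix n' n' k)

theorem y5_join {c : ℝ} (hc : 0 ≤ c) {h : G} (h1 : ‖A h - 1‖ ≤ c) (h2 : ‖A' h⁻¹ - 1‖ ≤ c) :
    ‖join A (dual A') h - 1‖ ≤ c := by
  rw [y5_norm_le hc] at h1 h2 ⊢
  have e : join A (dual A') h - 1 = Matrix.fromBlocks (A h - 1) 0 0 ((A' h⁻¹ - 1).transpose) := by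
    rw [← Matrix.fromBlocks_one, Matrix.transpose_sub, Matrix.transpose_one]
    show Matrix.fromBlocks (A h) 0 0 ((A' h⁻¹).transpose) - Matrix.fromBlocks 1 0 0 1 = _
    rw [sub_eq_add_neg, Matrix.fromBlocks_neg, Matrix.fromBlocks_add]
    simp [sub_eq_add_neg]
  rw [e]
  rintro (i | i) (j | j)
  · rw [Matrix.fromBlocks_apply₁₁]; exact h1 i j
  · rw [Matrix.fromBlocks_apply₁₂, Matrix.zero_apply, norm_zero]; exact hc
  · rw [Matrix.fromBlocks_apply₂₁, Matrix.zero_apply, norm_zero]; exact hc
  · rw [Matrix.fromBlocks_apply₂₂, Matrix.transpose_apply]; exact h2 j i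

end

section

variable {k : Type*} [Field k] {n : Type*} [Fintype n] [DecidableEq n] {n' : Type*} [Fintype n']
  [DecidableEq n']

/-- The form attached to an equivariant multilinear map. -/
noncomputable def y5_F {r : ℕ} (f : MultilinearMap k (fun _ : Fin r => n → k) (n' → k)) :
    MultilinearMap k (fun _ : Fin (r + 1) => (n ⊕ n') → k) k :=
  LinearMap.uncurryLeft (M := fun _ : Fin (r + 1) => (n ⊕ n') → k)
    { toFun := fun x => (dotProductBilin k k (fun j => x (Sum.inr j))).compMultilinearMap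
        (f.compLinearMap (fun _ => LinearMap.funLeft k k (Sum.inl : n → n ⊕ n')))
      map_add' := fun x y => by
        ext v
        exact add_dotProduct (fun j => x (Sum.inr j)) (fun j => y (Sum.inr j)) _
      map_smul' := fun c x => by
        ext v
        exact smul_dotProduct c (fun j => x (Sum.inr j)) _ }

theorem y5_F_apply {r : ℕ} (f : MultilinearMap k (fun _ : Fin r => n → k) (n' → k))
    (x : Fin (r + 1) → (n ⊕ n') → k) :
    y5_F f x = (fun j => x 0 (Sum.inr j)) ⬝ᵥ f (fun i a => x i.succ (Sum.inl a)) := rfl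

end

section

variable {k : Type*} [NontriviallyNormedField k] [IsUltrametricDist k] [CompleteSpace k]
  {n : Type*} [Fintype n] [DecidableEq n] {n' : Type*} [Fintype n'] [DecidableEq n']

attribute [local instance] matRing matAlg matUltra matComplete

variable {G : Type*} [Group G] (A : G →* Matrix n n k) (A' : G →* Matrix n' n' k)
  (N : Subgroup G)

/-- OX25: derivatives of equivariant multilinear maps. -/
theorem ox_derv {p : ℕ} (hp0 : (p : k) ≠ 0) (hp : ‖(p : k)‖ < 1)
    (hN : ∀ h ∈ N, ‖A h - 1‖ ≤ ‖(p : k)‖ ^ 2) (hN' : ∀ h ∈ N, ‖A' h - 1‖ ≤ ‖(p : k)‖ ^ 2)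
    {r : ℕ} (f : MultilinearMap k (fun _ : Fin r => n → k) (n' → k))
    (hf : ∀ h ∈ N, ∀ v, f (fun i => (A h).mulVec (v i)) = (A' h).mulVec (f v))
    {X : Matrix n n k} (hX : Matrix.fromBlocks X 0 0 0 ∈ sp (join A (dual A')) N p)
    (v : Fin r → n → k) : ∑ i, f (Function.update v i (X.mulVec (v i))) = 0 := by
  have hJ : ∀ h ∈ N, ‖join A (dual A') h - 1‖ ≤ ‖(p : k)‖ ^ 2 := fun h hh =>
    y5_join A A' (by positivity) (hN h hh) (hN' _ (N.inv_mem hh))
  have hinl : ∀ (h : G) (x : (n ⊕ n') → k), (fun a => ((join A (dual A') h).mulVec x) (Sum.inl a)) =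
      (A h).mulVec (fun a => x (Sum.inl a)) := by
    intro h x
    show (fun a => ((Matrix.fromBlocks (A h) 0 0 ((A' h⁻¹).transpose)).mulVec x) (Sum.inl a)) = _
    rw [Matrix.fromBlocks_mulVec]
    funext a
    simp [Function.comp_def]
  have hinr : ∀ (h : G) (x : (n ⊕ n') → k), (fun a => ((join A (dual A') h).mulVec x) (Sum.inr a)) =
      ((A' h⁻¹).transpose).mulVec (fun a => x (Sum.inr a)) := by
    intro h x
    show (fun a => ((Matrix.fromBlocks (A h) 0 0 ((A' h⁻¹).transpose)).mulVec x) (Sum.inr a)) = _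
    rw [Matrix.fromBlocks_mulVec]
    funext a
    simp [Function.comp_def]
  have hF : ∀ h ∈ N, ∀ x, y5_F f (fun i => (join A (dual A') h).mulVec (x i)) = y5_F f x := by
    intro h hh x
    rw [y5_F_apply, y5_F_apply, hinr]
    have e1 : (fun (i : Fin r) a => ((join A (dual A') h).mulVec (x i.succ)) (Sum.inl a)) =
        fun i => (A h).mulVec ((fun (i : Fin r) a => x i.succ (Sum.inl a)) i) := by
      funext i
      exact hinl h (x i.succ)
    rw [e1, hf h hh, Matrix.mulVec_transpose, ← Matrix.dotProduct_mulVec, Matrix.mulVec_mulVec,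
      ← map_mul, inv_mul_cancel, map_one, Matrix.one_mulVec]
  have key := Pool.Agent.OM.om_der (join A (dual A')) N hp0 hp hJ (y5_F f) hF hX
  funext j
  obtain ⟨w, hw0, hws⟩ : ∃ w : Fin (r + 1) → (n ⊕ n') → k,
      w 0 = Sum.elim (0 : n → k) (Pi.single j (1 : k) : n' → k) ∧
      ∀ i : Fin r, w i.succ = Sum.elim (v i) (0 : n' → k) :=
    ⟨Fin.cons (Sum.elim (0 : n → k) (Pi.single j (1 : k) : n' → k))
      (fun i => Sum.elim (v i) (0 : n' → k)), rfl, fun i => rfl⟩
  have h1 := key w
  rw [Fin.sum_univ_succ] at h1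
  have h2 : y5_F f (Function.update w 0 ((Matrix.fromBlocks X 0 0 0).mulVec (w 0))) = 0 := by
    have e2 : (Matrix.fromBlocks X 0 0 (0 : Matrix n' n' k)).mulVec (w 0) = 0 := by
      rw [hw0, Matrix.fromBlocks_mulVec, Sum.elim_comp_inl, Sum.elim_comp_inr, Matrix.mulVec_zero,
        Matrix.zero_mulVec, Matrix.mulVec_zero, Matrix.zero_mulVec, add_zero]
      funext t
      rcases t with t | t <;> simp
    rw [e2, MultilinearMap.map_update_zero]
  rw [h2, zero_add] at h1
  rw [Finset.sum_apply, Pi.zero_apply, ← h1]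
  refine Finset.sum_congr rfl fun i _ => ?_
  rw [y5_F_apply, Function.update_of_ne (Fin.succ_ne_zero i).symm, hw0]
  have e3 : (fun (l : Fin r) a => Function.update w i.succ ((Matrix.fromBlocks X 0 0
      (0 : Matrix n' n' k)).mulVec (w i.succ)) l.succ (Sum.inl a)) =
      Function.update v i (X.mulVec (v i)) := by
    funext l
    by_cases hl : l = i
    · subst hl
      rw [Function.update_self, Function.update_self, hws, Matrix.fromBlocks_mulVec]
      funext a
      simp
    · rw [Function.update_of_ne hl, Function.update_of_ne (fun h => hl (Fin.succ_injective _ h)),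
        hws]
      rfl
  rw [e3]
  simp
end


end Pool.Agent.OX
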