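import Pool.Agent.Lib_helper44.OF.Lie
import Pool.Agent.Lib_helper44.OF.Odd
import Pool.Agent.Lib_helper44.OF.X4
import Pool.Agent.Lib_helper44.OF.X6
import Pool.Agent.Lib_helper44.OF.X7
import Pool.Agent.Lib_helper44.OF.Y3
import Pool.Agent.Lib_helper44.OF.Y4
import Pool.Agent.Lib_helper44.OF.Y5

/-!
# Residually irreducible orthogonal and symplectic representations of profinite groups
-/

set_option autoImplicit false

namespace Pool.Agent.OX

open NumberField Pool.Agent.TT Pool.Agent.TBL Pool.Agent.OM Polynomial Topology Module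

attribute [local instance] matRing matAlg matUltra matComplete

theorem not_both {p m : ℕ} [Fact p.Prime] {B : Matrix (Fin m) (Fin m) ℤ_[p]}
    (h1 : B.transpose = B) (h2 : B.transpose = -B) (hm : 0 < m) (h0 : B.det ≠ 0) : False := by
  have h3 : B = 0 := by
    ext i j
    have h4 : B i j = -B i j := by
      have h5 := congrFun (congrFun (h1.symm.trans h2) i) j
      rwa [Matrix.neg_apply] at h5
    have h6 : (2 : ℤ_[p]) * B i j = 0 := by linear_combination h4
    exact_mod_cast (mul_eq_zero.mp h6).resolve_left two_ne_zero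
  have : Nonempty (Fin m) := ⟨⟨0, hm⟩⟩
  exact h0 (by rw [h3, Matrix.det_zero])

/-- A small open normal subgroup. -/
theorem small {G : Type*} [Group G] [TopologicalSpace G] [IsTopologicalGroup G] [CompactSpace G]
    [TotallyDisconnectedSpace G] {p m d : ℕ} [hp : Fact p.Prime]
    (ρ : G →* Matrix (Fin m) (Fin m) ℤ_[p]) (hc : Continuous ρ)
    (ν : G →* Matrix (Fin d) (Fin d) ℂ_[p]) (hν : Continuous ν) (V : Set G) (hV : IsOpen V)
    (hV1 : (1 : G) ∈ V) (hp0 : (p : ℂ_[p]) ≠ 0) :
    ∃ N : Subgroup G, N.Normal ∧ IsOpen (N : Set G) ∧ (N : Set G) ⊆ V ∧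
      (∀ h ∈ N, ‖toC ρ h - 1‖ ≤ ‖(p : ℂ_[p])‖ ^ 2) ∧
      (∀ h ∈ N, ‖ν h - 1‖ ≤ ‖(p : ℂ_[p])‖ ^ 2) ∧
      (∀ h ∈ N, ‖dual ν h - 1‖ ≤ ‖(p : ℂ_[p])‖ ^ 2) ∧
      (∀ h ∈ N, ‖tens (toC ρ) ν h - 1‖ ≤ ‖(p : ℂ_[p])‖ ^ 2) ∧
      ∀ h ∈ N, ‖(toC ρ h).det - 1‖ < ‖(2 : ℂ_[p])‖ := by
  have hpp : 0 < ‖(p : ℂ_[p])‖ ^ 2 := by
    have := norm_pos_iff.mpr hp0
    positivity
  have h20 : 0 < ‖(2 : ℂ_[p])‖ := norm_pos_iff.mpr two_ne_zero
  have hcC := toC_cont ρ hc
  have hdual : Continuous (dual ν : G → Matrix (Fin d) (Fin d) ℂ_[p]) := by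
    change Continuous fun g => (ν g⁻¹).transpose
    exact (hν.comp continuous_inv).matrix_transpose
  have htens : Continuous (tens (toC ρ) ν : G → Matrix (Fin m × Fin d) (Fin m × Fin d) ℂ_[p]) := by
    change Continuous fun g => Matrix.kroneckerMap (fun x y => x * y) (toC ρ g) (ν g)
    apply continuous_matrix
    intro i j
    change Continuous fun g => toC ρ g i.1 j.1 * ν g i.2 j.2
    exact (hcC.matrix_elem i.1 j.1).mul (hν.matrix_elem i.2 j.2)
  set U : Set G := V ∩ ({g | ‖toC ρ g - 1‖ < ‖(p : ℂ_[p])‖ ^ 2} ∩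
    ({g | ‖ν g - 1‖ < ‖(p : ℂ_[p])‖ ^ 2} ∩ ({g | ‖dual ν g - 1‖ < ‖(p : ℂ_[p])‖ ^ 2} ∩
      ({g | ‖tens (toC ρ) ν g - 1‖ < ‖(p : ℂ_[p])‖ ^ 2} ∩
        {g | ‖(toC ρ g).det - 1‖ < ‖(2 : ℂ_[p])‖})))) with hU
  have hUo : IsOpen U := by
    refine hV.inter (IsOpen.inter ?_ (IsOpen.inter ?_ (IsOpen.inter ?_ (IsOpen.inter ?_ ?_))))
    · exact isOpen_lt (hcC.sub continuous_const).norm continuous_const
    · exact isOpen_lt (hν.sub continuous_const).norm continuous_const
    · exact isOpen_lt (hdual.sub continuous_const).norm continuous_const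
    · exact isOpen_lt (htens.sub continuous_const).norm continuous_const
    · exact isOpen_lt (hcC.matrix_det.sub continuous_const).norm continuous_const
  have hU1 : (1 : G) ∈ U := by
    refine ⟨hV1, ?_, ?_, ?_, ?_, ?_⟩
    · change ‖toC ρ 1 - 1‖ < ‖(p : ℂ_[p])‖ ^ 2
      rw [map_one, sub_self, norm_zero]; exact hpp
    · change ‖ν 1 - 1‖ < ‖(p : ℂ_[p])‖ ^ 2
      rw [map_one, sub_self, norm_zero]; exact hpp
    · change ‖dual ν 1 - 1‖ < ‖(p : ℂ_[p])‖ ^ 2
      rw [map_one, sub_self, norm_zero]; exact hpp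
    · change ‖tens (toC ρ) ν 1 - 1‖ < ‖(p : ℂ_[p])‖ ^ 2
      rw [map_one, sub_self, norm_zero]; exact hpp
    · change ‖(toC ρ 1).det - 1‖ < ‖(2 : ℂ_[p])‖
      rw [map_one, Matrix.det_one, sub_self, norm_zero]; exact h20
  obtain ⟨N, hNU⟩ := ProfiniteGrp.exist_openNormalSubgroup_sub_open_nhds_of_one hUo hU1
  have hNU' : ∀ h ∈ N.toSubgroup, h ∈ U := fun h hh => hNU hh
  refine ⟨N.toSubgroup, N.isNormal', N.isOpen', fun h hh => (hNU' h hh).1, ?_, ?_, ?_, ?_, ?_⟩
  · exact fun h hh => (hNU' h hh).2.1.le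
  · exact fun h hh => (hNU' h hh).2.2.1.le
  · exact fun h hh => (hNU' h hh).2.2.2.1.le
  · exact fun h hh => (hNU' h hh).2.2.2.2.1.le
  · exact fun h hh => (hNU' h hh).2.2.2.2.2

/-- Continuous representations of a profinite group. -/
theorem core {G : Type*} [Group G] [TopologicalSpace G] [IsTopologicalGroup G] [CompactSpace G]
    [TotallyDisconnectedSpace G] {p q m : ℕ} [hp : Fact p.Prime]
    {ρ : G →* Matrix (Fin m) (Fin m) ℤ_[p]} {B : Matrix (Fin m) (Fin m) ℤ_[p]} {c : G → ℤ_[p]}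
    {g₀ : G} (Y : Hyp p q m ρ B c g₀) (H : Subgroup G) (hH : IsOpen (H : Set G)) {d : ℕ}
    (ν : G →* Matrix (Fin d) (Fin d) ℂ_[p]) (hν : Continuous ν)
    (hind : 2 * d ^ 2 < m * (m - 1) ∨ ∃ g, ν g = 1 ∧ ∀ a : ℤ_[p], ρ g ≠ a • 1) :
    (∀ W : Submodule ℂ_[p] (Fin m → ℂ_[p]), (∀ h ∈ H, ∀ w ∈ W, act (ρ h) w ∈ W) →
      W = ⊥ ∨ W = ⊤) ∧
    (∀ n : ℕ, (n < m ∨ B.transpose = -B ∨ ∀ e : Fin d → ℂ_[p],
        (∀ h ∈ H, (ν h).mulVec e = inc p (ρ h).det • e) → e = 0) →
      ∀ f : MultilinearMap ℂ_[p] (fun _ : Fin n => Fin m → ℂ_[p]) (Fin d → ℂ_[p]),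
      (∀ h ∈ H, ∀ v : Fin n → Fin m → ℂ_[p], f (fun i => act (ρ h) (v i)) = (ν h).mulVec (f v)) →
        (fun v => f v) ∈ Submodule.span ℂ_[p] {F : (Fin n → Fin m → ℂ_[p]) → Fin d → ℂ_[p] |
          ∃ (P : (Fin n → Fin m → ℂ_[p]) → ℂ_[p]) (e : Fin d → ℂ_[p]), IsPairing (form B) n P ∧
            (∀ h ∈ H, (ν h).mulVec e = inc p (c h) ^ (n / 2) • e) ∧ F = fun v => P v • e}) ∧
    (Even m → ∃ y ∈ H, (tens (toC ρ) ν y - 1).det ≠ 0) ∧
    (Odd m → B.transpose = B → ∀ h ∈ H, (1 - (toC ρ h).det • ν h).det ≠ 0 →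
      ∃ y ∈ H, (tens (toC ρ) ν y - 1).det ≠ 0) ∧
    (B.transpose = B → ∀ g, (ρ g).det = (-1) ^ m → ∀ U : Set G, IsOpen U → g ∈ U →
      ∃ y ∈ U, (toC ρ y - 1).det ≠ 0) := by
  classical
  have hm0 : 0 < m := lt_of_lt_of_le (by norm_num) Y.hm
  have hp' : p.Prime := hp.out
  have hp0 : (p : ℂ_[p]) ≠ 0 := by exact_mod_cast hp'.ne_zero
  have hnp : ‖(p : ℂ_[p])‖ = (p : ℝ)⁻¹ := by
    have h4 : (p : ℂ_[p]) = algebraMap ℚ_[p] ℂ_[p] (p : ℚ_[p]) := by simp
    rw [h4, norm_algebraMap', Padic.norm_p]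
  have hp1 : ‖(p : ℂ_[p])‖ < 1 := by
    rw [hnp]
    exact inv_lt_one_of_one_lt₀ (by exact_mod_cast hp'.one_lt)
  have hdetC : ∀ g, (toC ρ g).det = inc p (ρ g).det := by
    intro g
    rw [toC_apply, ← RingHom.mapMatrix_apply, ← RingHom.map_det]
  set BC : Matrix (Fin m) (Fin m) ℂ_[p] := B.map (inc p) with hBC
  have hBC0 : BC.det ≠ 0 := by
    rw [hBC, ← RingHom.mapMatrix_apply, ← RingHom.map_det]
    intro h
    exact Y.det0 ((map_eq_zero_iff _ inc_inj).mp h)
  have hbapp : ∀ x y, form B x y = x ⬝ᵥ BC.mulVec y := fun x y => Matrix.toBilin'_apply' BC x y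
  have hsim : ∀ g, (toC ρ g).transpose * BC * toC ρ g = inc p (c g) • BC := by
    intro g
    rw [toC_apply, hBC, ← Matrix.transpose_map, ← Matrix.map_mul, ← Matrix.map_mul, Y.sim]
    ext i j
    rw [Matrix.map_apply, Matrix.smul_apply, Matrix.smul_apply, Matrix.map_apply, smul_eq_mul,
      smul_eq_mul, map_mul]
  have hnd : ∀ x, (∀ y, form B x y = 0) → x = 0 := by
    intro x hx
    have h4 : Matrix.vecMul x BC = 0 := by
      apply dotProduct_eq_zero
      intro y
      rw [← Matrix.dotProduct_mulVec, ← hbapp]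
      exact hx y
    exact Matrix.eq_zero_of_vecMul_eq_zero hBC0 h4
  have hfin : finrank ℂ_[p] (Fin m → ℂ_[p]) = m := Module.finrank_fin_fun _
  obtain ⟨N, hNn, hNo, hNH, hN, hNν, hNd, hNt, hNdet⟩ := small ρ Y.cont ν hν H hH H.one_mem hp0
  obtain ⟨hirr, hall, hjoint⟩ := lie_all Y N hNn hNo hN hp0 hp1
  have hskM : ∀ T : Module.End ℂ_[p] (Fin m → ℂ_[p]), (∀ x y, form B (T x) y = - form B x (T y)) →
      (LinearMap.toMatrix' T).transpose * BC + BC * LinearMap.toMatrix' T = 0 := by
    intro T hT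
    have he : ∀ v, (LinearMap.toMatrix' T).mulVec v = T v := fun v => by
      rw [LinearMap.toMatrix'_mulVec]
    apply Matrix.toBilin'.injective
    apply LinearMap.ext₂
    intro x y
    rw [map_add, map_zero]
    have h5 := hT x y
    rw [← he, ← he, hbapp, hbapp, ← Matrix.vecMul_transpose, ← Matrix.dotProduct_mulVec,
      Matrix.mulVec_mulVec, Matrix.mulVec_mulVec] at h5
    rw [LinearMap.add_apply, LinearMap.add_apply, Matrix.toBilin'_apply', Matrix.toBilin'_apply',
      h5]
    simp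
  have hBsym : B.transpose = B → ∀ g, c g = 1 := by
    intro hBt
    rcases Y.typ with ⟨_, h⟩ | ⟨h, _⟩
    · exact h
    · exact (not_both hBt h hm0 Y.det0).elim
  refine ⟨?_, ?_, ?_, ?_, ?_⟩
  · intro W hW
    apply hirr
    intro X hX u hu
    exact om_stab (toC ρ) N hp0 hp1 hN W (fun h hh u hu => hW h (hNH hh) u hu) hX hu
  · intro n hn f hf
    have hder : ∀ T : Module.End ℂ_[p] (Fin m → ℂ_[p]),
        (∀ x y, form B (T x) y = - form B x (T y)) →
        ∀ v : Fin n → Fin m → ℂ_[p], ∑ i, f (Function.update v i (T (v i))) = 0 := by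
      intro T hT v
      have h4 := ox_derv (toC ρ) ν N hp0 hp1 hN hNν f
        (fun h hh v => hf h (hNH hh) v) (hjoint ν hNd hind _ (hskM T hT)) v
      simp only [LinearMap.toMatrix'_mulVec] at h4
      exact h4
    let R : G →* Module.End ℂ_[p] (Fin m → ℂ_[p]) :=
      ((Matrix.toLinAlgEquiv' : Matrix (Fin m) (Fin m) ℂ_[p] ≃ₐ[ℂ_[p]]
        Module.End ℂ_[p] (Fin m → ℂ_[p])) : _ →* _).comp (toC ρ)
    have hRapp : ∀ g v, R g v = act (ρ g) v := fun g v => rfl
    have hRsim : ∀ g x y, form B (R g x) (R g y) = inc p (c g) * form B x y := by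
      intro g x y
      change form B ((toC ρ g).mulVec x) ((toC ρ g).mulVec y) = _
      rw [hbapp, hbapp, Matrix.mulVec_mulVec, ← Matrix.vecMul_transpose,
        ← Matrix.dotProduct_mulVec, Matrix.mulVec_mulVec, ← mul_assoc, hsim, Matrix.smul_mulVec,
        dotProduct_smul, smul_eq_mul]
    have hRdet : ∀ g, LinearMap.det (R g) = inc p (ρ g).det := by
      intro g
      rw [← hdetC]
      exact LinearMap.det_toLin' _
    refine ox_coef (form B) n d f R ν (fun g => inc p (c g)) (H : Set G)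
      (fun h _ x y => hRsim h x y) (fun h hh v => hf h hh v) ?_
    have hcomp : ∀ j : Fin d, ∃ fj : MultilinearMap ℂ_[p] (fun _ : Fin n => Fin m → ℂ_[p]) ℂ_[p],
        ∀ v, fj v = f v j := fun j => ⟨(LinearMap.proj j).compMultilinearMap f, fun v => rfl⟩
    have hfj : ∀ (j : Fin d) (fj : MultilinearMap ℂ_[p] (fun _ : Fin n => Fin m → ℂ_[p]) ℂ_[p]),
        (∀ v, fj v = f v j) → ∀ T : Module.End ℂ_[p] (Fin m → ℂ_[p]),
        (∀ x y, form B (T x) y = - form B x (T y)) →
        ∀ v : Fin n → Fin m → ℂ_[p], ∑ i, fj (Function.update v i (T (v i))) = 0 := by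
      intro j fj hj T hT v
      simp only [hj]
      have h4 := congrFun (hder T hT v) j
      rw [Finset.sum_apply] at h4
      exact h4
    rcases Y.typ with ⟨hBt, hc1⟩ | ⟨hBt, _⟩
    · have hbs : ∀ x y, form B x y = form B y x := by
        intro x y
        rw [hbapp, hbapp, Matrix.dotProduct_mulVec, dotProduct_comm, ← Matrix.mulVec_transpose,
          hBC, ← Matrix.transpose_map, hBt]
      have hwsk : ∀ x y u v, form B (wedge (form B) x y u) v =
          - form B u (wedge (form B) x y v) := by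
        intro x y u v
        simp only [wedge, LinearMap.sub_apply, LinearMap.smulRight_apply, map_sub, map_smul,
          LinearMap.smul_apply, smul_eq_mul]
        rw [hbs u x, hbs u y]
        ring
      by_cases hdet : ∀ e : Fin d → ℂ_[p],
        (∀ h ∈ H, (ν h).mulVec e = inc p (ρ h).det • e) → e = 0
      · intro j
        refine ox_det (form B) hbs hnd n d f R ν H ?_ (fun h hh v => hf h hh v)
          (fun x y v => hder _ (hwsk x y) v) ?_ j
        · intro h _ x y
          rw [hRsim, hc1, map_one, one_mul]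
        · intro e he
          apply hdet
          intro h hh
          rw [he h hh, hRdet]
      · have hnm : n < m := by
          rcases hn with h | h | h
          · exact h
          · exact (not_both hBt h hm0 Y.det0).elim
          · exact absurd h hdet
        intro j
        obtain ⟨fj, hj⟩ := hcomp j
        have h6 := om_fft (form B) hbs hnd n (by rw [hfin]; exact hnm) fj
          (fun x y v => hfj j fj hj _ (hwsk x y) v)
        have h7 : (fun v => f v j) = fun v => fj v := funext fun v => (hj v).symm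
        rw [h7]
        exact h6
    · have hbs : ∀ x y, form B x y = - form B y x := by
        intro x y
        rw [hbapp, hbapp, Matrix.dotProduct_mulVec, dotProduct_comm, ← Matrix.mulVec_transpose,
          hBC, ← Matrix.transpose_map, hBt]
        have h4 : (-B).map (inc p) = -(B.map (inc p)) := by
          ext i j
          simp
        rw [h4, Matrix.neg_mulVec, dotProduct_neg]
      have hwsk : ∀ x y u v, form B (wedgeS (form B) x y u) v =
          - form B u (wedgeS (form B) x y v) := by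
        intro x y u v
        simp only [wedgeS, LinearMap.add_apply, LinearMap.smulRight_apply, map_add, map_smul,
          LinearMap.smul_apply, smul_eq_mul]
        rw [hbs u x, hbs u y]
        ring
      intro j
      obtain ⟨fj, hj⟩ := hcomp j
      have h6 := ox_fftS (form B) hbs hnd n fj (fun x y v => hfj j fj hj _ (hwsk x y) v)
      have h7 : (fun v => f v j) = fun v => fj v := funext fun v => (hj v).symm
      rw [h7]
      exact h6
  · intro hev
    have hs : (∀ x y, form B x y = form B y x) ∨ ∀ x y, form B x y = - form B y x := by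
      rcases Y.typ with ⟨hBt, _⟩ | ⟨hBt, _⟩
      · left
        intro x y
        rw [hbapp, hbapp, Matrix.dotProduct_mulVec, dotProduct_comm, ← Matrix.mulVec_transpose,
          hBC, ← Matrix.transpose_map, hBt]
      · right
        intro x y
        rw [hbapp, hbapp, Matrix.dotProduct_mulVec, dotProduct_comm, ← Matrix.mulVec_transpose,
          hBC, ← Matrix.transpose_map, hBt]
        have h4 : (-B).map (inc p) = -(B.map (inc p)) := by
          ext i j
          simp
        rw [h4, Matrix.neg_mulVec, dotProduct_neg]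
    obtain ⟨T, hT, hT0⟩ := ox_inv two_ne_zero (form B) hs hnd (by rw [hfin]; exact hev)
    have h5 := ox_tens (toC ρ) ν N hp0 hp1 hN hNν (hjoint ν hNd hind _ (hskM T hT))
    obtain ⟨h, hh, h6⟩ := ox_exists (tens (toC ρ) ν) N hp0 hp1 hNt h5 (by
      have h7 : Matrix.kroneckerMap (fun x y => x * y) (LinearMap.toMatrix' T)
          (1 : Matrix (Fin d) (Fin d) ℂ_[p]) =
          Matrix.kroneckerMap (· * ·) (LinearMap.toMatrix' T) 1 := rfl
      rw [h7, Matrix.det_kronecker, Matrix.det_one, one_pow, mul_one]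
      apply pow_ne_zero
      rw [LinearMap.det_toMatrix']
      exact hT0)
    exact ⟨h, hNH hh, h6⟩
  · intro hodd hBt h₀ hh₀ hne
    have hA : ∀ g, (toC ρ g).transpose * BC * toC ρ g = BC := by
      intro g
      rw [hsim, hBsym hBt, map_one, one_smul]
    have hindD : 2 * d ^ 2 < m * (m - 1) ∨ ∃ g, dual ν g = 1 ∧ ∀ a : ℤ_[p], ρ g ≠ a • 1 := by
      rcases hind with h | ⟨g, hg1, hg2⟩
      · exact Or.inl h
      · refine Or.inr ⟨g, ?_, hg2⟩
        have h4 : ν g⁻¹ = 1 := by
          have h5 : ν g * ν g⁻¹ = 1 := by rw [← map_mul, mul_inv_cancel, map_one]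
          rwa [hg1, one_mul] at h5
        change (ν g⁻¹).transpose = 1
        rw [h4, Matrix.transpose_one]
    have hsm : Pool.Agent.TE.Small p (join (toC ρ) ν) N := by
      intro h hh
      have h4 := join_norm (toC ρ) ν h (by positivity) (hN h hh) (hNν h hh)
      rw [Matrix.norm_le_iff (by positivity)] at h4
      exact h4
    obtain ⟨h, hh, h4⟩ := odd_step Y.hm hodd (toC ρ) BC (by
      rw [hBC, ← Matrix.transpose_map, hBt]) hBC0 hA ν N hsm hp0 hp1 (fun X hX => by
      have h4 := hjoint (dual ν) (by rw [dual_dual]; exact hNν) hindD X hX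
      rwa [dual_dual] at h4) h₀ hne
    exact ⟨h * h₀, H.mul_mem (hNH hh) hh₀, h4⟩
  · intro hBt g hg U hU hgU
    have hc1 : ∀ g, c g = 1 := hBsym hBt
    have hA : ∀ g, (toC ρ g).transpose * BC * toC ρ g = BC := by
      intro g
      rw [hsim, hc1, map_one, one_smul]
    have hdetsq : ∀ g, (ρ g).det = 1 ∨ (ρ g).det = -1 := by
      intro g
      have h4 := congrArg Matrix.det (Y.sim g)
      rw [hc1, one_smul, Matrix.det_mul, Matrix.det_mul, Matrix.det_transpose] at h4
      have h5 : ((ρ g).det * (ρ g).det - 1) * B.det = 0 := by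
        rw [sub_mul, one_mul, sub_eq_zero]
        calc (ρ g).det * (ρ g).det * B.det = (ρ g).det * B.det * (ρ g).det := by ring
          _ = B.det := h4
      have h6 := (mul_eq_zero.mp h5).resolve_right Y.det0
      have h7 : (ρ g).det * (ρ g).det = 1 * 1 := by rw [one_mul]; exact sub_eq_zero.mp h6
      exact mul_self_eq_mul_self_iff.mp h7
    obtain ⟨N', hNn', hNo', hNU', hN', _, _, _, hNdet'⟩ := small ρ Y.cont ν hν
      ((fun x => x * g) ⁻¹' U) (hU.preimage (continuous_mul_const g)) (by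
        change 1 * g ∈ U
        rw [one_mul]
        exact hgU) hp0
    obtain ⟨_, hall', _⟩ := lie_all Y N' hNn' hNo' hN' hp0 hp1
    have hbs : ∀ x y, form B x y = form B y x := by
      intro x y
      rw [hbapp, hbapp, Matrix.dotProduct_mulVec, dotProduct_comm, ← Matrix.mulVec_transpose,
        hBC, ← Matrix.transpose_map, hBt]
    have hwsk : ∀ x y u v, form B (wedge (form B) x y u) v =
        - form B u (wedge (form B) x y v) := by
      intro x y u v
      simp only [wedge, LinearMap.sub_apply, LinearMap.smulRight_apply, map_sub, map_smul,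
        LinearMap.smul_apply, smul_eq_mul]
      rw [hbs u x, hbs u y]
      ring
    obtain ⟨h, hh, h4⟩ := coset_step (toC ρ) BC (by
      rw [hBC, ← Matrix.transpose_map, hBt]) hBC0 hA N' hN' (by
      intro h hh
      have h4 := hNdet' h hh
      rw [hdetC] at h4
      rw [hdetC]
      rcases hdetsq h with h5 | h5
      · rw [h5, map_one]
      · exfalso
        rw [h5, map_neg, map_one] at h4
        have h6 : (-1 : ℂ_[p]) - 1 = -2 := by norm_num
        rw [h6, norm_neg] at h4
        exact lt_irrefl _ h4) hp0 hp1 (fun x y => hall' _ (hskM _ (hwsk x y))) g (by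
      rw [hdetC, hg, map_pow, map_neg, map_one])
    exact ⟨h * g, hNU' hh, h4⟩

end Pool.Agent.OX
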