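import Pool.Agent.Lib_helper44.OM.Defs

set_option autoImplicit false

/-!
# First fundamental theorem for the orthogonal Lie algebra in the range `n < dim V`
-/

namespace Pool.Agent.OM

open Module

section f1

variable {E V : Type*} [Field E] [AddCommGroup V] [Module E V]

/-- Pairings with arbitrary finite index types. -/
def f1_Pair (b : LinearMap.BilinForm E V) (ι : Type) (F : (ι → V) → E) : Prop :=
  ∃ (κ : Type) (_ : Fintype κ) (π : κ × Fin 2 ≃ ι), ∀ v, F v = ∏ i : κ, b (v (π (i, 0))) (v (π (i, 1)))

theorem f1_wedge (b : LinearMap.BilinForm E V) (x y u : V) :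
    wedge b x y u = b y u • x - b x u • y := by
  simp [wedge]

theorem f1_perm {b : LinearMap.BilinForm E V} {ι : Type} (σ : Equiv.Perm ι) {F : (ι → V) → E}
    (h : F ∈ Submodule.span E {F : (ι → V) → E | f1_Pair b ι F}) :
    (fun v : ι → V => F (v ∘ σ)) ∈ Submodule.span E {F : (ι → V) → E | f1_Pair b ι F} := by
  induction h using Submodule.span_induction with
  | mem F hF =>
    obtain ⟨κ, hκ, π, hπ⟩ := hF
    exact Submodule.subset_span ⟨κ, hκ, π.trans σ, fun v => hπ (v ∘ σ)⟩
  | zero => exact Submodule.zero_mem _
  | add F G _ _ hF hG => exact Submodule.add_mem _ hF hG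
  | smul a F _ hF => exact Submodule.smul_mem _ a hF

theorem f1_ext {b : LinearMap.BilinForm E V} {ι : Type} [DecidableEq ι] {i0 j : ι} (hij : i0 ≠ j)
    {G : ({x : ι // x ≠ i0 ∧ x ≠ j} → V) → E}
    (h : G ∈ Submodule.span E {F | f1_Pair b {x : ι // x ≠ i0 ∧ x ≠ j} F}) :
    (fun v : ι → V => b (v i0) (v j) * G (fun x => v x.1)) ∈
      Submodule.span E {F : (ι → V) → E | f1_Pair b ι F} := by
  induction h using Submodule.span_induction with
  | mem F hF =>
    obtain ⟨κ, hκ, π, hπ⟩ := hF
    let p : Option κ × Fin 2 → ι := fun z => match z with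
      | (none, s) => if s = 0 then i0 else j
      | (some a, s) => (π (a, s)).1
    have hp : Function.Bijective p := by
      constructor
      · rintro ⟨a, s⟩ ⟨a', s'⟩ h
        rcases a with _ | a <;> rcases a' with _ | a'
        · simp only [p] at h
          have : s = s' := by
            by_contra hne
            rcases (by omega : s = 0 ∨ s = 1) with rfl | rfl <;>
              rcases (by omega : s' = 0 ∨ s' = 1) with rfl | rfl <;> simp_all
          rw [this]
        · exfalso
          simp only [p] at h
          have h2 := (π (a', s')).2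
          split_ifs at h
          · exact h2.1 h.symm
          · exact h2.2 h.symm
        · exfalso
          simp only [p] at h
          have h2 := (π (a, s)).2
          split_ifs at h
          · exact h2.1 h
          · exact h2.2 h
        · have h2 := π.injective (Subtype.ext h)
          simp only [Prod.mk.injEq] at h2
          rw [h2.1, h2.2]
      · intro x
        by_cases h0 : x = i0
        · exact ⟨(none, 0), by simp [p, h0]⟩
        · by_cases h1 : x = j
          · exact ⟨(none, 1), by simp [p, h1]⟩
          · refine ⟨(some (π.symm ⟨x, h0, h1⟩).1, (π.symm ⟨x, h0, h1⟩).2), ?_⟩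
            simp [p]
    refine Submodule.subset_span ⟨Option κ, inferInstance, Equiv.ofBijective p hp, fun v => ?_⟩
    have h5 := hπ (fun x => v x.1)
    rw [Fintype.prod_option]
    simp only [Equiv.ofBijective_apply]
    rw [h5]
    simp [p]
  | zero =>
    have := Submodule.zero_mem (Submodule.span E {F : (ι → V) → E | f1_Pair b ι F})
    convert this using 1
    funext v
    simp
  | add F G _ _ hF hG =>
    have := Submodule.add_mem _ hF hG
    convert this using 1
    funext v
    simp [mul_add]
  | smul a F _ hF =>
    have := Submodule.smul_mem _ a hF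
    convert this using 1
    funext v
    simp only [Pi.smul_apply, smul_eq_mul]
    ring

theorem f1_dual [FiniteDimensional E V] (b : LinearMap.BilinForm E V) (hs : ∀ x y, b x y = b y x)
    (hn : ∀ x, (∀ y, b x y = 0) → x = 0) :
    ∃ e e' : Fin (finrank E V) → V, (∀ v, ∑ k, b (e' k) v • e k = v) ∧
      (∀ v, ∑ k, b (e k) v • e' k = v) ∧ ∑ k, b (e' k) (e k) = (finrank E V : E) := by
  have hB : b.Nondegenerate := by
    constructor
    · intro x hx
      exact hn x hx
    · intro x hx
      exact hn x (fun y => by rw [hs]; exact hx y)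
  let e := finBasis E V
  let e' := b.dualBasis hB e
  have h1 : ∀ k l, b (e' k) (e l) = if l = k then 1 else 0 :=
    fun k l => LinearMap.BilinForm.apply_dualBasis_left hB e k l
  refine ⟨e, e', fun v => ?_, fun v => ?_, ?_⟩
  · have h2 : ∀ k, b (e' k) v = e.repr v k := by
      intro k
      conv_lhs => rw [← e.sum_repr v]
      rw [map_sum]
      simp [h1]
    simp_rw [h2]
    exact e.sum_repr v
  · have h2 : ∀ k, b (e k) v = e'.repr v k := by
      intro k
      rw [LinearMap.BilinForm.dualBasis_repr_apply, hs]
    simp_rw [h2]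
    exact e'.sum_repr v
  · simp [h1]

/-- linearity in one variable -/
theorem f1_lin {ι : Type} [DecidableEq ι] {κ : Type} [Fintype κ]
    (f : MultilinearMap E (fun _ : ι => V) E) (m : ι → V) (i : ι) (c : κ → E) (u : κ → V) :
    ∑ k, c k * f (Function.update m i (u k)) = f (Function.update m i (∑ k, c k • u k)) := by
  have := (map_sum (f.toLinearMap m i) (fun k => c k • u k) Finset.univ)
  simp only [map_smul, MultilinearMap.toLinearMap_apply, smul_eq_mul] at this
  exact this.symm

theorem f1_wup {ι : Type} [DecidableEq ι] (b : LinearMap.BilinForm E V)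
    (f : MultilinearMap E (fun _ : ι => V) E) (m : ι → V) (i : ι) (x y u : V) :
    f (Function.update m i (wedge b x y u)) =
      b y u * f (Function.update m i x) - b x u * f (Function.update m i y) := by
  have := (map_sub (f.toLinearMap m i) (b y u • x) (b x u • y))
  simp only [map_smul, MultilinearMap.toLinearMap_apply, smul_eq_mul] at this
  rw [f1_wedge, this]

/-- infinitesimal invariance -/
def f1_Inv (b : LinearMap.BilinForm E V) {ι : Type} [Fintype ι] [DecidableEq ι]
    (f : MultilinearMap E (fun _ : ι => V) E) : Prop :=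
  ∀ (x y : V) (v : ι → V), ∑ i, f (Function.update v i (wedge b x y (v i))) = 0

/-- The contraction of the variables `i0` and `j`. -/
noncomputable def f1_C {ι : Type} [DecidableEq ι] {N : ℕ} (e e' : Fin N → V) (i0 j : ι)
    (f : MultilinearMap E (fun _ : ι => V) E) :
    MultilinearMap E (fun _ : {x : ι // x ≠ i0 ∧ x ≠ j} => V) E :=
  ∑ k, f.domDomRestrict (fun x => x ≠ i0 ∧ x ≠ j) (fun x => if x.1 = i0 then e k else e' k)

theorem f1_C_apply {ι : Type} [DecidableEq ι] {N : ℕ} (e e' : Fin N → V) {i0 j : ι} (hij : i0 ≠ j)
    (f : MultilinearMap E (fun _ : ι => V) E) (w : {x : ι // x ≠ i0 ∧ x ≠ j} → V) (U : ι → V)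
    (hU : ∀ x : {x : ι // x ≠ i0 ∧ x ≠ j}, U x.1 = w x) :
    f1_C e e' i0 j f w = ∑ k, f (Function.update (Function.update U i0 (e k)) j (e' k)) := by
  unfold f1_C
  rw [sum_apply]
  apply Finset.sum_congr rfl
  intro k _
  rw [MultilinearMap.domDomRestrict_apply]
  congr 1
  funext x
  by_cases h1 : x = j
  · subst h1
    simp [Ne.symm hij]
  · by_cases h0 : x = i0
    · subst h0
      simp [hij]
    · rw [dif_pos ⟨h0, h1⟩, Function.update_of_ne h1, Function.update_of_ne h0]
      exact (hU ⟨x, h0, h1⟩).symm

theorem f1_C_inv {ι : Type} [Fintype ι] [DecidableEq ι] {N : ℕ} (b : LinearMap.BilinForm E V)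
    (hs : ∀ x y, b x y = b y x) (e e' : Fin N → V)
    (he : ∀ v, ∑ k, b (e' k) v • e k = v) (he' : ∀ v, ∑ k, b (e k) v • e' k = v)
    {i0 j : ι} (hij : i0 ≠ j) (f : MultilinearMap E (fun _ : ι => V) E) (hf : f1_Inv b f) :
    f1_Inv b (f1_C e e' i0 j f) := by
  intro x y w
  let U : ι → V := fun z => if h : z ≠ i0 ∧ z ≠ j then w ⟨z, h⟩ else 0
  have hU : ∀ z : {x : ι // x ≠ i0 ∧ x ≠ j}, U z.1 = w z := fun z => by
    simp only [U]
    rw [dif_pos z.2]
  let g : V → V → E := fun a c => f (Function.update (Function.update U i0 a) j c)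
  have hcomm : ∀ a c, g a c = f (Function.update (Function.update U j c) i0 a) := fun a c => by
    simp only [g]
    rw [Function.update_comm hij]
  -- the terms with `i` different from `i0`, `j`
  have h1 : ∀ i : {x : ι // x ≠ i0 ∧ x ≠ j},
      f1_C e e' i0 j f (Function.update w i (wedge b x y (w i))) =
        ∑ k, f (Function.update (Function.update (Function.update U i0 (e k)) j (e' k)) i.1
          (wedge b x y (U i.1))) := by
    intro i
    rw [f1_C_apply e e' hij f _ (Function.update U i.1 (wedge b x y (U i.1)))]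
    · apply Finset.sum_congr rfl
      intro k _
      rw [Function.update_comm i.2.1 , Function.update_comm i.2.2]
    · intro z
      by_cases hz : z = i
      · subst hz
        simp [hU]
      · rw [Function.update_of_ne hz, Function.update_of_ne (fun h => hz (Subtype.ext h)), hU]
  have h2 : ∀ k, ∑ i, f (Function.update (Function.update (Function.update U i0 (e k)) j (e' k)) i
      (wedge b x y ((Function.update (Function.update U i0 (e k)) j (e' k)) i))) = 0 :=
    fun k => hf x y _
  have h3 : ∀ k, ∑ i, f (Function.update (Function.update (Function.update U i0 (e k)) j (e' k)) i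
      (wedge b x y ((Function.update (Function.update U i0 (e k)) j (e' k)) i))) =
      ∑ i : {x : ι // x ≠ i0 ∧ x ≠ j},
        f (Function.update (Function.update (Function.update U i0 (e k)) j (e' k)) i.1
          (wedge b x y (U i.1))) +
      ((b y (e k) * g x (e' k) - b x (e k) * g y (e' k)) +
        (b y (e' k) * g (e k) x - b x (e' k) * g (e k) y)) := by
    intro k
    have hsplit : ∀ h : ι → E, ∑ i, h i =
        ∑ i : {x : ι // x ≠ i0 ∧ x ≠ j}, h i.1 + (h i0 + h j) := by
      intro h
      rw [← Finset.add_sum_erase Finset.univ h (Finset.mem_univ i0),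
        ← Finset.add_sum_erase (Finset.univ.erase i0) h
          (Finset.mem_erase.mpr ⟨Ne.symm hij, Finset.mem_univ j⟩),
        Finset.sum_subtype ((Finset.univ.erase i0).erase j)
          (p := fun x => x ≠ i0 ∧ x ≠ j) (by intro x; simp [and_comm]) h]
      ring
    rw [hsplit]
    congr 1
    · apply Finset.sum_congr rfl
      intro i _
      rw [Function.update_of_ne i.2.2, Function.update_of_ne i.2.1]
    · congr 1
      · rw [Function.update_of_ne hij, Function.update_self, f1_wup]
        simp only [hcomm]
        rw [Function.update_comm hij, Function.update_idem, Function.update_idem]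
      · rw [Function.update_self, f1_wup, Function.update_idem, Function.update_idem]
  have h4 : ∑ k, ((b y (e k) * g x (e' k) - b x (e k) * g y (e' k)) +
        (b y (e' k) * g (e k) x - b x (e' k) * g (e k) y)) = 0 := by
    rw [Finset.sum_add_distrib, Finset.sum_sub_distrib, Finset.sum_sub_distrib]
    have e1 : ∀ a c, ∑ k, b c (e k) * g a (e' k) = g a c := by
      intro a c
      simp only [g]
      rw [f1_lin]
      congr 2
      conv_rhs => rw [← he' c]
      apply Finset.sum_congr rfl
      intro k _
      rw [hs]
    have e2 : ∀ a c, ∑ k, b a (e' k) * g (e k) c = g a c := by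
      intro a c
      simp only [hcomm]
      rw [f1_lin]
      congr 2
      conv_rhs => rw [← he a]
      apply Finset.sum_congr rfl
      intro k _
      rw [hs]
    rw [e1, e1, e2, e2]
    ring
  rw [Finset.sum_congr rfl (fun i _ => h1 i), Finset.sum_comm]
  have h5 : ∑ k, (∑ i : {x : ι // x ≠ i0 ∧ x ≠ j},
        f (Function.update (Function.update (Function.update U i0 (e k)) j (e' k)) i.1
          (wedge b x y (U i.1))) +
      ((b y (e k) * g x (e' k) - b x (e k) * g y (e' k)) +
        (b y (e' k) * g (e k) x - b x (e' k) * g (e k) y))) = 0 := by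
    apply Finset.sum_eq_zero
    intro k _
    rw [← h3 k]
    exact h2 k
  rw [Finset.sum_add_distrib, h4, add_zero] at h5
  exact h5

theorem f1_key {ι : Type} [Fintype ι] [DecidableEq ι] {N : ℕ} (b : LinearMap.BilinForm E V)
    (hs : ∀ x y, b x y = b y x) (e e' : Fin N → V)
    (he : ∀ v, ∑ k, b (e' k) v • e k = v) (he' : ∀ v, ∑ k, b (e k) v • e' k = v)
    (htr : ∑ k, b (e' k) (e k) = (N : E))
    (i0 : ι) (f : MultilinearMap E (fun _ : ι => V) E) (hf : f1_Inv b f) (v : ι → V) :
    ((N : E) - 1) * f v + ∑ i ∈ Finset.univ.erase i0, f (v ∘ Equiv.swap i0 i) =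
      ∑ i ∈ Finset.univ.erase i0, b (v i0) (v i) * f1_C e e' i0 i f (fun x => v x.1) := by
  have h1 : ∀ k, ∑ i, f (Function.update (Function.update v i0 (e k)) i
      (wedge b (v i0) (e' k) ((Function.update v i0 (e k)) i))) = 0 := fun k => hf _ _ _
  have h2 : ∀ k, (b (e' k) (e k) * f v - b (v i0) (e k) * f (Function.update v i0 (e' k))) +
      ∑ i ∈ Finset.univ.erase i0,
        (b (e' k) (v i) * f (Function.update (Function.update v i0 (e k)) i (v i0)) -
          b (v i0) (v i) * f (Function.update (Function.update v i0 (e k)) i (e' k))) = 0 := by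
    intro k
    rw [← h1 k, ← Finset.add_sum_erase Finset.univ _ (Finset.mem_univ i0)]
    congr 1
    · rw [Function.update_self, f1_wup, Function.update_idem, Function.update_idem,
        Function.update_eq_self]
    · apply Finset.sum_congr rfl
      intro i hi
      rw [Function.update_of_ne (Finset.ne_of_mem_erase hi), f1_wup]
  have h3 := Finset.sum_eq_zero (s := (Finset.univ : Finset (Fin N))) (fun k _ => h2 k)
  rw [Finset.sum_add_distrib, Finset.sum_sub_distrib, ← Finset.sum_mul, htr, f1_lin,
    Finset.sum_comm] at h3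
  have h4 : ∑ k, b (v i0) (e k) • e' k = v i0 := by
    conv_rhs => rw [← he' (v i0)]
    apply Finset.sum_congr rfl
    intro k _
    rw [hs]
  rw [h4, Function.update_eq_self] at h3
  have h5 : ∀ i ∈ Finset.univ.erase i0,
      ∑ k, (b (e' k) (v i) * f (Function.update (Function.update v i0 (e k)) i (v i0)) -
          b (v i0) (v i) * f (Function.update (Function.update v i0 (e k)) i (e' k))) =
      f (v ∘ Equiv.swap i0 i) - b (v i0) (v i) * f1_C e e' i0 i f (fun x => v x.1) := by
    intro i hi
    have hne : i ≠ i0 := Finset.ne_of_mem_erase hi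
    rw [Finset.sum_sub_distrib, ← Finset.mul_sum,
      f1_C_apply e e' (Ne.symm hne) f (fun x => v x.1) v (fun x => rfl)]
    congr 1
    have h6 : ∀ k, f (Function.update (Function.update v i0 (e k)) i (v i0)) =
        f (Function.update (Function.update v i (v i0)) i0 (e k)) := fun k => by
      rw [Function.update_comm hne]
    simp_rw [h6]
    rw [f1_lin, he]
    congr 1
    funext x
    by_cases hx : x = i0
    · subst hx
      simp
    · by_cases hx' : x = i
      · subst hx'
        simp [hx]
      · rw [Function.update_of_ne hx, Function.update_of_ne hx', Function.comp_apply,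
          Equiv.swap_apply_of_ne_of_ne hx hx']
  rw [Finset.sum_congr rfl h5, Finset.sum_sub_distrib] at h3
  linear_combination h3

theorem f1_invert [CharZero E] {W : Type*} [AddCommGroup W] [Module E W] {ι : Type} [Fintype ι]
    [DecidableEq ι] (i0 : ι) (N : ℕ) (hN : Fintype.card ι < N) (S : Submodule E W)
    (F R : Equiv.Perm ι → W) (hR : ∀ σ, R σ ∈ S)
    (h : ∀ σ, ((N : E) - 1) • F σ + ∑ i ∈ Finset.univ.erase i0, F (σ * Equiv.swap i0 i) = R σ) :
    F 1 ∈ S := by
  classical
  let A : Matrix (Equiv.Perm ι) (Equiv.Perm ι) ℤ := fun σ τ =>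
    (if σ = τ then ((N : ℤ) - 1) else 0) +
      ∑ i ∈ Finset.univ.erase i0, (if σ * Equiv.swap i0 i = τ then (1 : ℤ) else 0)
  have hA : ∀ σ, ∑ τ, ((A σ τ : ℤ) : E) • F τ = R σ := by
    intro σ
    rw [← h σ]
    simp only [A, Int.cast_add, Int.cast_sum, Int.cast_ite, Int.cast_sub, Int.cast_natCast,
      Int.cast_one, Int.cast_zero, add_smul, Finset.sum_smul, ite_smul, zero_smul, one_smul]
    rw [Finset.sum_add_distrib, Finset.sum_ite_eq, if_pos (Finset.mem_univ _), Finset.sum_comm]
    congr 1
    apply Finset.sum_congr rfl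
    intro i _
    rw [Finset.sum_ite_eq, if_pos (Finset.mem_univ _)]
  have hdet : A.det ≠ 0 := by
    have h1 : (A.map (Int.castRingHom ℝ)).det ≠ 0 := by
      apply det_ne_zero_of_sum_row_lt_diag
      intro σ
      have hdiag : A σ σ = (N : ℤ) - 1 := by
        simp only [A]
        rw [if_pos trivial, Finset.sum_eq_zero, add_zero]
        intro i hi
        rw [if_neg]
        intro h2
        have h3 : Equiv.swap i0 i = 1 := by
          have := mul_left_cancel (a := σ) (b := Equiv.swap i0 i) (c := 1) (by rw [h2, mul_one])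
          exact this
        exact (Finset.ne_of_mem_erase hi) (Equiv.swap_eq_one_iff.mp h3).symm
      have hoff : ∀ τ ∈ Finset.univ.erase σ, ‖(A.map (Int.castRingHom ℝ)) σ τ‖ =
          ∑ i ∈ Finset.univ.erase i0, (if σ * Equiv.swap i0 i = τ then (1 : ℝ) else 0) := by
        intro τ hτ
        have h2 : σ ≠ τ := (Finset.ne_of_mem_erase hτ).symm
        rw [Matrix.map_apply]
        simp only [A, if_neg h2, zero_add]
        rw [map_sum, Real.norm_of_nonneg]
        · apply Finset.sum_congr rfl
          intro i _
          split_ifs <;> simp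
        · apply Finset.sum_nonneg
          intro i _
          split_ifs <;> simp
      rw [Finset.sum_congr rfl hoff, Matrix.map_apply, hdiag]
      have hle : ∑ τ ∈ Finset.univ.erase σ, ∑ i ∈ Finset.univ.erase i0,
          (if σ * Equiv.swap i0 i = τ then (1 : ℝ) else 0) ≤ (Fintype.card ι : ℝ) - 1 := by
        calc _ ≤ ∑ τ, ∑ i ∈ Finset.univ.erase i0,
              (if σ * Equiv.swap i0 i = τ then (1 : ℝ) else 0) := by
              apply Finset.sum_le_sum_of_subset_of_nonneg (Finset.erase_subset _ _)
              intro τ _ _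
              apply Finset.sum_nonneg
              intro i _
              split_ifs <;> simp
          _ = ∑ i ∈ Finset.univ.erase i0, (1 : ℝ) := by
              rw [Finset.sum_comm]
              apply Finset.sum_congr rfl
              intro i _
              rw [Finset.sum_ite_eq, if_pos (Finset.mem_univ _)]
          _ = (Fintype.card ι : ℝ) - 1 := by
              rw [Finset.sum_const, Finset.card_erase_of_mem (Finset.mem_univ _), Finset.card_univ,
                nsmul_eq_mul, mul_one, Nat.cast_sub (Fintype.card_pos_iff.mpr ⟨i0⟩), Nat.cast_one]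
      have hlt : (Fintype.card ι : ℝ) < (N : ℝ) := by exact_mod_cast hN
      have h1 : (1 : ℝ) ≤ (Fintype.card ι : ℝ) := by
        exact_mod_cast Fintype.card_pos_iff.mpr ⟨i0⟩
      have hnorm : ‖(Int.castRingHom ℝ) ((N : ℤ) - 1)‖ = (N : ℝ) - 1 := by
        simp only [eq_intCast, Int.cast_sub, Int.cast_natCast, Int.cast_one]
        rw [Real.norm_of_nonneg]
        linarith
      rw [hnorm]
      linarith
    intro h0
    apply h1
    rw [← RingHom.mapMatrix_apply, ← RingHom.map_det, h0, map_zero]
  let B := A.map (Int.castRingHom E)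
  have hB : B.det ≠ 0 := by
    rw [show B = (Int.castRingHom E).mapMatrix A from rfl, ← RingHom.map_det]
    simpa using hdet
  have hBu : IsUnit B.det := isUnit_iff_ne_zero.mpr hB
  have hinv : B⁻¹ * B = 1 := Matrix.nonsing_inv_mul B hBu
  have hF : F 1 = ∑ σ, (B⁻¹ 1 σ) • R σ := by
    have : ∀ σ, (B⁻¹ 1 σ) • R σ = ∑ τ, (B⁻¹ 1 σ * B σ τ) • F τ := by
      intro σ
      rw [← hA σ, Finset.smul_sum]
      apply Finset.sum_congr rfl
      intro τ _
      rw [smul_smul]
      rfl
    rw [Finset.sum_congr rfl (fun σ _ => this σ), Finset.sum_comm]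
    simp_rw [← Finset.sum_smul]
    have h2 : ∀ τ, ∑ σ, B⁻¹ 1 σ * B σ τ = (1 : Matrix (Equiv.Perm ι) (Equiv.Perm ι) E) 1 τ := by
      intro τ
      rw [← hinv, Matrix.mul_apply]
    simp_rw [h2, Matrix.one_apply, ite_smul, one_smul, zero_smul]
    rw [Finset.sum_ite_eq, if_pos (Finset.mem_univ _)]
  rw [hF]
  exact Submodule.sum_mem _ (fun σ _ => Submodule.smul_mem _ _ (hR σ))

theorem f1_main [CharZero E] [FiniteDimensional E V] (b : LinearMap.BilinForm E V)
    (hs : ∀ x y, b x y = b y x) (hn : ∀ x, (∀ y, b x y = 0) → x = 0) :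
    ∀ (n : ℕ) (ι : Type) [Fintype ι] [DecidableEq ι], Fintype.card ι = n → n < finrank E V →
      ∀ f : MultilinearMap E (fun _ : ι => V) E, f1_Inv b f →
        (fun v => f v) ∈ Submodule.span E {F : (ι → V) → E | f1_Pair b ι F} := by
  intro n
  induction n using Nat.strong_induction_on with
  | _ n ih =>
  intro ι _ _ hcard hlt f hf
  rcases isEmpty_or_nonempty ι with hι | ⟨⟨i0⟩⟩
  · have h1 : (fun v => f v) = (f (fun i => isEmptyElim i)) • (fun _ : ι → V => (1 : E)) := by
      funext v
      simp only [Pi.smul_apply, smul_eq_mul, mul_one]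
      congr 1
      funext i
      exact isEmptyElim i
    rw [h1]
    apply Submodule.smul_mem
    apply Submodule.subset_span
    refine ⟨Empty, inferInstance, ⟨fun x => x.1.elim, fun x => isEmptyElim x, fun x => x.1.elim,
      fun x => isEmptyElim x⟩, fun v => by simp⟩
  · obtain ⟨e, e', he, he', htr⟩ := f1_dual b hs hn
    have hC : ∀ i ∈ Finset.univ.erase i0,
        (fun v : ι → V => b (v i0) (v i) * f1_C e e' i0 i f (fun x => v x.1)) ∈
          Submodule.span E {F : (ι → V) → E | f1_Pair b ι F} := by
      intro i hi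
      have hne : i0 ≠ i := (Finset.ne_of_mem_erase hi).symm
      apply f1_ext hne
      have hc : Fintype.card {x : ι // x ≠ i0 ∧ x ≠ i} < n := by
        rw [← hcard]
        exact Fintype.card_subtype_lt (x := i0) (by simp)
      exact ih _ hc _ rfl (hc.trans hlt) _ (f1_C_inv b hs e e' he he' hne f hf)
    have := f1_invert i0 (finrank E V) (by rw [hcard]; exact hlt)
      (Submodule.span E {F : (ι → V) → E | f1_Pair b ι F})
      (fun σ => (fun v : ι → V => f (v ∘ σ)))
      (fun σ => (fun v : ι → V => ∑ i ∈ Finset.univ.erase i0,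
        b ((v ∘ σ) i0) ((v ∘ σ) i) * f1_C e e' i0 i f (fun x => (v ∘ σ) x.1)))
      (fun σ => by
        have h2 : (fun v : ι → V => ∑ i ∈ Finset.univ.erase i0,
            b (v i0) (v i) * f1_C e e' i0 i f (fun x => v x.1)) ∈
            Submodule.span E {F : (ι → V) → E | f1_Pair b ι F} := by
          have h3 := Submodule.sum_mem _ hC
          convert h3 using 1
          funext v
          rw [Finset.sum_apply]
        exact f1_perm σ h2)
      (fun σ => by
        funext v
        have := f1_key b hs e e' he he' htr i0 f hf (v ∘ σ)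
        simp only [Pi.add_apply, Pi.smul_apply, smul_eq_mul, Finset.sum_apply]
        exact this)
    exact this

end f1

/-- OM9: first fundamental theorem for the orthogonal Lie algebra in the range `n < dim V`. -/
theorem om_fft {E V : Type*} [Field E] [CharZero E] [AddCommGroup V] [Module E V]
    [FiniteDimensional E V] (b : LinearMap.BilinForm E V) (hs : ∀ x y, b x y = b y x)
    (hn : ∀ x, (∀ y, b x y = 0) → x = 0) (n : ℕ) (hdim : n < finrank E V)
    (f : MultilinearMap E (fun _ : Fin n => V) E)
    (hf : ∀ (x y : V) (v : Fin n → V), ∑ i, f (Function.update v i (wedge b x y (v i))) = 0) :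
    (fun v => f v) ∈ Submodule.span E {F : (Fin n → V) → E | IsPairing b n F} := by
  have h := f1_main b hs hn n (Fin n) (Fintype.card_fin n) hdim f hf
  refine Submodule.span_mono ?_ h
  rintro F ⟨κ, hκ, π, hπ⟩
  let q := Fintype.equivFin κ
  refine ⟨Fintype.card κ, (Equiv.prodCongr q.symm (Equiv.refl _)).trans π, fun v => ?_⟩
  rw [hπ, ← Equiv.prod_comp q.symm]
  rfl


end Pool.Agent.OM
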