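import Mathlib

/-!
# Block R3 (om_lim): lifting of an element of order prime to `p`
-/

set_option autoImplicit false

namespace Pool.Agent.OM

open Filter Topology Polynomial

theorem r3_toZMod_eq_iff {p : ℕ} [Fact p.Prime] (x y : ℤ_[p]) :
    PadicInt.toZMod x = PadicInt.toZMod y ↔ ‖x - y‖ < 1 := by
  rw [← sub_eq_zero, ← map_sub, ← RingHom.mem_ker, PadicInt.ker_toZMod,
    PadicInt.maximalIdeal_eq_span_p, Ideal.mem_span_singleton, PadicInt.norm_lt_one_iff_dvd]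

theorem r3_closed {p m : ℕ} [Fact p.Prime] (A : Matrix (Fin m) (Fin m) ℤ_[p]) :
    IsClosed {M : Matrix (Fin m) (Fin m) ℤ_[p] |
      M.map PadicInt.toZMod = A.map PadicInt.toZMod} := by
  have : {M : Matrix (Fin m) (Fin m) ℤ_[p] | M.map PadicInt.toZMod = A.map PadicInt.toZMod} =
      ⋂ i, ⋂ j, {M : Matrix (Fin m) (Fin m) ℤ_[p] | M i j ∈ Metric.ball (A i j) 1} := by
    ext M
    simp only [Set.mem_ofPred_eq, Set.mem_iInter, Metric.mem_ball, dist_eq_norm]
    constructor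
    · intro h i j
      rw [← r3_toZMod_eq_iff]
      exact congrFun (congrFun h i) j
    · intro h
      ext i j
      exact (r3_toZMod_eq_iff _ _).2 (h i j)
  rw [this]
  refine isClosed_iInter fun i => isClosed_iInter fun j => ?_
  exact (IsUltrametricDist.isClosed_ball (A i j) 1).preimage
    ((continuous_apply j).comp (continuous_apply i))

theorem r3_pow_tendsto {p m : ℕ} [Fact p.Prime] (Z : Matrix (Fin m) (Fin m) ℤ_[p]) :
    Tendsto (fun k : ℕ => (1 + (p : ℤ_[p]) • Z) ^ p ^ k) atTop (𝓝 1) := by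
  have key : ∀ k : ℕ, ∃ C : Matrix (Fin m) (Fin m) ℤ_[p],
      (1 + (p : ℤ_[p]) • Z) ^ p ^ k = 1 + ((p : ℤ_[p]) ^ (k + 1)) • C := by
    intro k
    have h0 : ((p : ℕ) : ℤ_[p][X]) ∣ (1 + (p : ℤ_[p][X]) * X) - 1 := ⟨X, by ring⟩
    obtain ⟨c, hc⟩ := dvd_sub_pow_of_dvd_sub h0 k
    refine ⟨aeval Z c, ?_⟩
    have h1 := congrArg (aeval Z) hc
    simp only [map_sub, map_pow, map_add, map_one, map_mul, aeval_X, map_natCast, one_pow] at h1
    rw [sub_eq_iff_eq_add'] at h1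
    have e1 : ((p : ℤ_[p]) • Z) = (p : Matrix (Fin m) (Fin m) ℤ_[p]) * Z := by
      rw [← nsmul_eq_mul, Nat.cast_smul_eq_nsmul]
    have e2 : (((p : ℤ_[p]) ^ (k + 1)) • aeval Z c) =
        (p : Matrix (Fin m) (Fin m) ℤ_[p]) ^ (k + 1) * aeval Z c := by
      rw [← Nat.cast_pow, ← Nat.cast_pow, ← nsmul_eq_mul, Nat.cast_smul_eq_nsmul]
    rw [e1, e2]
    exact h1
  choose C hC using key
  have h2 : Tendsto (fun k : ℕ => (1 : Matrix (Fin m) (Fin m) ℤ_[p]) +
      ((p : ℤ_[p]) ^ (k + 1)) • C k) atTop (𝓝 1) := by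
    refine tendsto_pi_nhds.2 fun i => ?_
    refine tendsto_pi_nhds.2 fun j => ?_
    have h3 : Tendsto (fun k : ℕ => ((p : ℤ_[p]) ^ (k + 1)) * C k i j) atTop (𝓝 0) := by
      rw [tendsto_zero_iff_norm_tendsto_zero]
      have hp1 : ‖(p : ℤ_[p])‖ < 1 := (PadicInt.norm_lt_one_iff_dvd _).2 dvd_rfl
      refine squeeze_zero (fun k => norm_nonneg _) (fun k => ?_)
        ((tendsto_pow_atTop_nhds_zero_of_lt_one (norm_nonneg _) hp1).comp (tendsto_add_atTop_nat 1))
      simp only [Function.comp]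
      rw [norm_mul, norm_pow]
      exact mul_le_of_le_one_right (pow_nonneg (norm_nonneg _) _) (PadicInt.norm_le_one _)
    have h4 := h3.const_add ((1 : Matrix (Fin m) (Fin m) ℤ_[p]) i j)
    rw [add_zero] at h4
    exact h4
  refine h2.congr fun k => (hC k).symm

theorem r3_sq_mod {p q : ℕ} [Fact p.Prime] (hq : q = 2 ∨ q = 3) (hpq : p ≠ q) :
    p ^ 2 ≡ 1 [MOD q] := by
  have hp : p.Prime := Fact.out
  rcases hq with rfl | rfl
  · have h : p % 2 = 1 := (hp.eq_two_or_odd).resolve_left hpq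
    have h1 : p ≡ 1 [MOD 2] := h
    simpa using h1.pow 2
  · have h : ¬ 3 ∣ p := fun h => hpq ((Nat.prime_dvd_prime_iff_eq Nat.prime_three hp).1 h).symm
    have h3 : p % 3 = 1 ∨ p % 3 = 2 := by omega
    rcases h3 with h3 | h3
    · have h1 : p ≡ 1 [MOD 3] := h3
      simpa using h1.pow 2
    · have h1 : p ≡ 2 [MOD 3] := h3
      have h2 := h1.pow 2
      exact h2.trans (by decide)

/-- OM12: lifting of an element of order prime to `p`. -/
theorem om_lim {G : Type*} [Group G] [TopologicalSpace G] [IsTopologicalGroup G]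
    [CompactSpace G]
    {p m : ℕ} [Fact p.Prime] (ρ : G →* Matrix (Fin m) (Fin m) ℤ_[p]) (hc : Continuous ρ)
    {q : ℕ} (hq : q = 2 ∨ q = 3) (hpq : p ≠ q) (g₀ : G)
    (h : (ρ g₀).map PadicInt.toZMod ^ q = 1) :
    ∃ σ : G, (ρ σ).map PadicInt.toZMod = (ρ g₀).map PadicInt.toZMod ∧ ρ σ ^ q = 1 := by
  have hmap : ∀ (M : Matrix (Fin m) (Fin m) ℤ_[p]) (k : ℕ),
      (M ^ k).map PadicInt.toZMod = (M.map PadicInt.toZMod) ^ k := by
    intro M k
    have := map_pow (PadicInt.toZMod (p := p)).mapMatrix M k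
    simpa using this
  -- `ρ(g₀) ^ q = 1 + p Z`
  obtain ⟨Z, hZ⟩ : ∃ Z : Matrix (Fin m) (Fin m) ℤ_[p],
      ρ g₀ ^ q = 1 + (p : ℤ_[p]) • Z := by
    have h1 : ∀ i j, (p : ℤ_[p]) ∣ (ρ g₀ ^ q) i j - (1 : Matrix (Fin m) (Fin m) ℤ_[p]) i j := by
      intro i j
      rw [← PadicInt.norm_lt_one_iff_dvd, ← r3_toZMod_eq_iff]
      have h2 : (ρ g₀ ^ q).map PadicInt.toZMod =
          (1 : Matrix (Fin m) (Fin m) ℤ_[p]).map PadicInt.toZMod := by
        rw [hmap, h, Matrix.map_one _ (map_zero _) (map_one _)]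
      exact congrFun (congrFun h2 i) j
    choose Z hZ using h1
    refine ⟨Matrix.of fun i j => Z i j, ?_⟩
    ext i j
    have := hZ i j
    rw [sub_eq_iff_eq_add'] at this
    simpa using this
  set x : ℕ → G := fun i => g₀ ^ (p ^ 2) ^ i with hx
  set F : Ultrafilter G := (hyperfilter ℕ).map x with hF
  have hne : Nonempty G := ⟨1⟩
  set σ : G := F.lim with hσ
  have hlim : Tendsto x (hyperfilter ℕ : Filter ℕ) (𝓝 σ) := by
    have := F.le_nhds_lim
    rw [hF, Ultrafilter.coe_map] at this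
    exact this
  have hle : (hyperfilter ℕ : Filter ℕ) ≤ atTop := by
    rw [← Nat.cofinite_eq_atTop]
    exact hyperfilter_le_cofinite
  have hρ : Tendsto (fun i => ρ (x i)) (hyperfilter ℕ : Filter ℕ) (𝓝 (ρ σ)) :=
    (hc.tendsto σ).comp hlim
  refine ⟨σ, ?_, ?_⟩
  · have hmem : ∀ i, ρ (x i) ∈ {M : Matrix (Fin m) (Fin m) ℤ_[p] |
        M.map PadicInt.toZMod = (ρ g₀).map PadicInt.toZMod} := by
      intro i
      simp only [Set.mem_ofPred_eq, hx, map_pow]
      rw [hmap]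
      have h1 : (p ^ 2) ^ i ≡ 1 [MOD q] := by
        simpa using (r3_sq_mod hq hpq).pow i
      have h2 : orderOf ((ρ g₀).map PadicInt.toZMod) ∣ q := orderOf_dvd_of_pow_eq_one h
      have h3 : (p ^ 2) ^ i ≡ 1 [MOD orderOf ((ρ g₀).map PadicInt.toZMod)] :=
        h1.of_dvd h2
      have h4 := pow_eq_pow_of_modEq h3 (pow_orderOf_eq_one _)
      rw [h4, pow_one]
    exact (r3_closed (ρ g₀)).mem_of_tendsto hρ (Eventually.of_forall hmem)
  · have h1 : Tendsto (fun i => ρ (x i) ^ q) (hyperfilter ℕ : Filter ℕ) (𝓝 (ρ σ ^ q)) :=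
      ((continuous_pow q).tendsto (ρ σ)).comp hρ
    have h2 : Tendsto (fun i => ρ (x i) ^ q) (hyperfilter ℕ : Filter ℕ) (𝓝 1) := by
      refine Tendsto.mono_left ?_ hle
      have h3 := (r3_pow_tendsto Z).comp (tendsto_atTop_mono
        (fun n : ℕ => (by omega : n ≤ 2 * n)) tendsto_id)
      refine h3.congr fun i => ?_
      simp only [Function.comp, hx, map_pow]
      rw [← hZ, ← pow_mul, ← pow_mul, ← pow_mul, mul_comm q]
    exact tendsto_nhds_unique h1 h2

end Pool.Agent.OM
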