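import Pool.Agent.Lib_helper7.TB.Lie
import Pool.Agent.Lib_helper44.OM.Defs

/-!
# OM, block R4: ranks and reduction modulo `p`
-/

set_option autoImplicit false

namespace Pool.Agent.OM

open Module Pool.Agent.TBL Filter Topology

/-- a matrix of rank `r` has an invertible `r × r` compression -/
theorem r4_compress {K : Type*} [Field K] {m : ℕ} (M : Matrix (Fin m) (Fin m) K) :
    ∃ (P : Matrix (Fin M.rank) (Fin m) K) (Q : Matrix (Fin m) (Fin M.rank) K), P * M * Q = 1 := by
  set f : (Fin m → K) →ₗ[K] (Fin m → K) := Matrix.toLin' M with hf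
  have hr : finrank K (Fin M.rank → K) = finrank K (LinearMap.range f) := by
    rw [finrank_fin_fun]
    rfl
  obtain ⟨e⟩ := FiniteDimensional.nonempty_linearEquiv_of_finrank_eq hr
  obtain ⟨s, hs⟩ := f.rangeRestrict.exists_rightInverse_of_surjective f.range_rangeRestrict
  set q : (Fin M.rank → K) →ₗ[K] (Fin m → K) := s.comp e.toLinearMap with hq
  have hinj : LinearMap.ker (f.comp q) = ⊥ := by
    rw [LinearMap.ker_eq_bot']
    intro v hv
    have h1 : f.rangeRestrict (s (e v)) = e v := by
      have := LinearMap.congr_fun hs (e v)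
      exact this
    have h2 : (e v : Fin m → K) = 0 := by
      rw [← h1]
      exact hv
    have h3 : e v = 0 := Subtype.ext h2
    exact (LinearEquiv.map_eq_zero_iff e).1 h3
  obtain ⟨h, hh⟩ := (f.comp q).exists_leftInverse_of_injective hinj
  refine ⟨LinearMap.toMatrix' h, LinearMap.toMatrix' q, ?_⟩
  have h4 := congrArg LinearMap.toMatrix' hh
  rw [LinearMap.toMatrix'_comp, LinearMap.toMatrix'_comp, LinearMap.toMatrix'_id, hf,
    LinearMap.toMatrix'_toLin', ← Matrix.mul_assoc] at h4
  exact h4

/-- OM13a: the rank does not increase under reduction. -/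
theorem om_rk_le {p m : ℕ} [Fact p.Prime] (M : Matrix (Fin m) (Fin m) ℤ_[p]) {E : Type*}
    [Field E] (ι : ℤ_[p] →+* E) (hι : Function.Injective ι) :
    (M.map PadicInt.toZMod).rank ≤ (M.map ι).rank := by
  obtain ⟨P, Q, hPQ⟩ := r4_compress (M.map PadicInt.toZMod)
  have hsurj : Function.Surjective (PadicInt.toZMod (p := p)) := ZMod.ringHom_surjective _
  choose l hl using hsurj
  set P' : Matrix (Fin (M.map PadicInt.toZMod).rank) (Fin m) ℤ_[p] := P.map l with hP'
  set Q' : Matrix (Fin m) (Fin (M.map PadicInt.toZMod).rank) ℤ_[p] := Q.map l with hQ'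
  have e1 : P'.map PadicInt.toZMod = P := by
    ext i j; simp [hP', hl]
  have e2 : Q'.map PadicInt.toZMod = Q := by
    ext i j; simp [hQ', hl]
  have hd : (P' * M * Q').det ≠ 0 := by
    intro h0
    have h1 : ((P' * M * Q').map PadicInt.toZMod).det = 0 := by
      have := RingHom.map_det (PadicInt.toZMod (p := p)) (P' * M * Q')
      rw [h0, map_zero] at this
      exact this.symm
    rw [Matrix.map_mul, Matrix.map_mul, e1, e2, hPQ, Matrix.det_one] at h1
    exact one_ne_zero h1
  have hd' : IsUnit ((P' * M * Q').map ι).det := by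
    rw [isUnit_iff_ne_zero]
    have := RingHom.map_det ι (P' * M * Q')
    intro h0
    apply hd
    apply hι
    rw [this, map_zero]
    exact h0
  have hrk : ((P' * M * Q').map ι).rank = (M.map PadicInt.toZMod).rank := by
    rw [Matrix.rank_of_isUnit _ ((Matrix.isUnit_iff_isUnit_det _).2 hd'), Fintype.card_fin]
  rw [← hrk, Matrix.map_mul, Matrix.map_mul]
  exact (Matrix.rank_mul_le_left _ _).trans (Matrix.rank_mul_le_right _ _)

theorem r4_geom {K : Type*} [Field K] {m q : ℕ} (S : Matrix (Fin m) (Fin m) K) (hS : S ^ q = 1)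
    (hq : (q : K) ≠ 0) : (S - 1).rank + (∑ i ∈ Finset.range q, S ^ i).rank = m := by
  set N := ∑ i ∈ Finset.range q, S ^ i with hN
  have hker : LinearMap.ker (S - 1).mulVecLin = LinearMap.range N.mulVecLin := by
    ext v
    rw [LinearMap.mem_ker, LinearMap.mem_range]
    constructor
    · intro hv
      have h1 : S.mulVec v = v := by
        rw [Matrix.mulVecLin_apply, Matrix.sub_mulVec, Matrix.one_mulVec, sub_eq_zero] at hv
        exact hv
      have h2 : ∀ i : ℕ, (S ^ i).mulVec v = v := by
        intro i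
        induction i with
        | zero => rw [pow_zero, Matrix.one_mulVec]
        | succ i ih => rw [pow_succ, ← Matrix.mulVec_mulVec, h1, ih]
      refine ⟨(q : K)⁻¹ • v, ?_⟩
      rw [Matrix.mulVecLin_apply, Matrix.mulVec_smul, hN, Matrix.sum_mulVec]
      simp only [h2, Finset.sum_const, Finset.card_range]
      rw [← Nat.cast_smul_eq_nsmul K, smul_smul, inv_mul_cancel₀ hq, one_smul]
    · rintro ⟨w, rfl⟩
      rw [Matrix.mulVecLin_apply, Matrix.mulVecLin_apply, Matrix.mulVec_mulVec, hN,
        mul_geom_sum, hS, sub_self, Matrix.zero_mulVec]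
  have h := LinearMap.finrank_range_add_finrank_ker (S - 1).mulVecLin
  rw [hker, finrank_fin_fun] at h
  exact h

/-- OM13b: the rank of `s - 1` for `s` of order two or three is preserved (from OM13a). -/
theorem om_rk_eq {p m : ℕ} [Fact p.Prime] (s : Matrix (Fin m) (Fin m) ℤ_[p]) {q : ℕ}
    (hq : q = 2 ∨ q = 3) (hpq : p ≠ q) (hs : s ^ q = 1) {E : Type*} [Field E]
    (ι : ℤ_[p] →+* E) (hι : Function.Injective ι) :
    (s.map ι - 1).rank = (s.map PadicInt.toZMod - 1).rank := by
  have hp : p.Prime := Fact.out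
  have hqp : q.Prime := by rcases hq with rfl | rfl <;> norm_num
  have hq0 : q ≠ 0 := hqp.ne_zero
  have h1 : ((q : ℕ) : ZMod p) ≠ 0 := by
    rw [Ne, ZMod.natCast_eq_zero_iff]
    intro h
    exact hpq ((Nat.prime_dvd_prime_iff_eq hp hqp).1 h)
  have h2 : ((q : ℕ) : E) ≠ 0 := by
    have : ι (q : ℤ_[p]) ≠ ι 0 := fun h => hq0 (by exact_mod_cast hι h)
    rwa [map_natCast, map_zero] at this
  have m1 : (s.map PadicInt.toZMod) ^ q = 1 := by
    have := congrArg (RingHom.mapMatrix (PadicInt.toZMod (p := p))) hs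
    rwa [map_pow, map_one] at this
  have m2 : (s.map ι) ^ q = 1 := by
    have := congrArg (RingHom.mapMatrix ι) hs
    rwa [map_pow, map_one] at this
  have g1 := r4_geom (s.map PadicInt.toZMod) m1 h1
  have g2 := r4_geom (s.map ι) m2 h2
  have k1 := om_rk_le (∑ i ∈ Finset.range q, s ^ i) ι hι
  have k2 := om_rk_le (s - 1) ι hι
  have f1 : (∑ i ∈ Finset.range q, s ^ i).map PadicInt.toZMod =
      ∑ i ∈ Finset.range q, (s.map PadicInt.toZMod) ^ i := by
    have := map_sum (RingHom.mapMatrix (PadicInt.toZMod (p := p))) (fun i => s ^ i)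
      (Finset.range q)
    simp only [map_pow] at this
    exact this
  have f2 : (∑ i ∈ Finset.range q, s ^ i).map ι = ∑ i ∈ Finset.range q, (s.map ι) ^ i := by
    have := map_sum (RingHom.mapMatrix ι) (fun i => s ^ i) (Finset.range q)
    simp only [map_pow] at this
    exact this
  have f3 : (s - 1).map PadicInt.toZMod = s.map PadicInt.toZMod - 1 := by
    have := map_sub (RingHom.mapMatrix (m := Fin m) (PadicInt.toZMod (p := p))) s 1
    rwa [map_one] at this
  have f4 : (s - 1).map ι = s.map ι - 1 := by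
    have := map_sub (RingHom.mapMatrix (m := Fin m) ι) s 1
    rwa [map_one] at this
  rw [f1, f2] at k1
  rw [f3, f4] at k2
  omega


end Pool.Agent.OM
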