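import Pool.Agent.Lib_helper44.OM.Defs

/-!
# OM, block R5: absolute irreducibility modulo `p` gives irreducibility
-/

set_option autoImplicit false

namespace Pool.Agent.OM

theorem om_span {p m : ℕ} [Fact p.Prime] {G : Type*} [Group G]
    (ρ : G →* Matrix (Fin m) (Fin m) ℤ_[p]) (N : Subgroup G)
    (h : Submodule.span (ZMod p) ((fun g => (ρ g).map PadicInt.toZMod) '' (N : Set G)) = ⊤)
    {E : Type*} [Field E] (ι : ℤ_[p] →+* E) (hι : Function.Injective ι)
    (W : Submodule E (Fin m → E))
    (hW : ∀ g ∈ N, ∀ w ∈ W, ((ρ g).map ι).mulVec w ∈ W) : W = ⊥ ∨ W = ⊤ := by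
  classical
  set B := Module.Basis.ofSpan (le_of_eq h.symm) with hB
  have hsub := Module.Basis.ofSpan_subset (le_of_eq h.symm)
  have := Module.Finite.finite_basis B
  have := Fintype.ofFinite ((linearIndepOn_empty (ZMod p) id).extend
    (Set.empty_subset ((fun g => (ρ g).map PadicInt.toZMod) '' (N : Set G))))
  have hcard := Module.finrank_eq_card_basis B
  rw [Module.finrank_matrix, Module.finrank_self, mul_one, Fintype.card_fin] at hcard
  obtain ⟨e⟩ : Nonempty (((linearIndepOn_empty (ZMod p) id).extend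
    (Set.empty_subset ((fun g => (ρ g).map PadicInt.toZMod) '' (N : Set G)))) ≃
      Fin m × Fin m) := by
    refine ⟨Fintype.equivOfCardEq ?_⟩
    rw [← hcard, Fintype.card_prod, Fintype.card_fin]
  have hex : ∀ a : Fin m × Fin m, ∃ g ∈ N, (ρ g).map PadicInt.toZMod = B (e.symm a) := by
    intro a
    obtain ⟨g, hg, hg'⟩ := hsub ⟨e.symm a, rfl⟩
    exact ⟨g, hg, hg'⟩
  choose γ hγ hγ' using hex
  set M : Matrix (Fin m × Fin m) (Fin m × Fin m) ℤ_[p] :=
    Matrix.of fun a ij => ρ (γ a) ij.1 ij.2 with hM
  have hdet : M.det ≠ 0 := by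
    intro h0
    have h1 : (M.map PadicInt.toZMod).det = 0 := by
      rw [← RingHom.mapMatrix_apply, ← RingHom.map_det, h0, map_zero]
    have hli : LinearIndependent (ZMod p) (M.map PadicInt.toZMod).row := by
      have h2 : LinearIndependent (ZMod p) (fun a : Fin m × Fin m => B (e.symm a)) :=
        B.linearIndependent.comp _ e.symm.injective
      let f : Matrix (Fin m) (Fin m) (ZMod p) →ₗ[ZMod p] (Fin m × Fin m → ZMod p) :=
        { toFun := fun A ij => A ij.1 ij.2
          map_add' := fun _ _ => rfl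
          map_smul' := fun _ _ => rfl }
      have hf : LinearMap.ker f = ⊥ := by
        rw [LinearMap.ker_eq_bot]
        intro A A' hA
        ext i j
        exact congrFun hA (i, j)
      have h3 := h2.map' f hf
      have hrow : (M.map PadicInt.toZMod).row = (⇑f ∘ fun a => B (e.symm a)) := by
        funext a ij
        show PadicInt.toZMod (ρ (γ a) ij.1 ij.2) = f (B (e.symm a)) ij
        rw [← hγ' a]
        rfl
      rw [hrow]
      exact h3
    rw [Matrix.linearIndependent_rows_iff_isUnit, Matrix.isUnit_iff_isUnit_det, h1] at hli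
    exact not_isUnit_zero hli
  have hdetE : IsUnit (M.map ι).det := by
    rw [isUnit_iff_ne_zero, ← RingHom.mapMatrix_apply, ← RingHom.map_det]
    intro h0
    exact hdet (hι (by rw [h0, map_zero]))
  have hall : ∀ T : Matrix (Fin m) (Fin m) E, ∀ w ∈ W, T.mulVec w ∈ W := by
    intro T w hw
    set c : Fin m × Fin m → E := Matrix.vecMul (fun ij => T ij.1 ij.2) (M.map ι)⁻¹ with hc
    have h1 : Matrix.vecMul c (M.map ι) = fun ij => T ij.1 ij.2 := by
      rw [hc, Matrix.vecMul_vecMul, Matrix.nonsing_inv_mul _ hdetE, Matrix.vecMul_one]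
    have h2 : T = ∑ a, c a • (ρ (γ a)).map ι := by
      ext i j
      have := congrFun h1 (i, j)
      simp only [Matrix.vecMul, dotProduct] at this
      rw [← this, Matrix.sum_apply]
      rfl
    rw [h2, Matrix.sum_mulVec]
    refine Submodule.sum_mem _ fun a _ => ?_
    rw [Matrix.smul_mulVec]
    exact W.smul_mem _ (hW _ (hγ a) w hw)
  rcases eq_or_ne W ⊥ with h0 | h0
  · exact Or.inl h0
  right
  obtain ⟨w, hw, hw0⟩ := (Submodule.ne_bot_iff W).1 h0
  obtain ⟨j, hj⟩ : ∃ j, w j ≠ 0 := by
    by_contra hcon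
    push Not at hcon
    exact hw0 (funext hcon)
  rw [Submodule.eq_top_iff']
  intro v
  have h1 := hall (Matrix.of fun i k => if k = j then v i / w j else 0) w hw
  have h2 : (Matrix.of fun i k => if k = j then v i / w j else 0).mulVec w = v := by
    funext i
    simp only [Matrix.mulVec, dotProduct, Matrix.of_apply, ite_mul, zero_mul,
      Finset.sum_ite_eq', Finset.mem_univ, if_true]
    field_simp
  rw [h2] at h1
  exact h1

end Pool.Agent.OM
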