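import Pool.Agent.Lib_helper44.OX.Defs

/-!
# Block X2
-/

set_option autoImplicit false

namespace Pool.Agent.OX

open Module Pool.Agent.OM

section

variable {E V : Type*} [Field E] [AddCommGroup V] [Module E V]

theorem x2_nd {b : LinearMap.BilinForm E V}
    (hs : (∀ x y, b x y = b y x) ∨ ∀ x y, b x y = - b y x)
    (hn : ∀ x, (∀ y, b x y = 0) → x = 0) : b.Nondegenerate := by
  refine ⟨hn, fun y hy => hn y fun x => ?_⟩
  rcases hs with h | h
  · rw [h, hy]
  · rw [h, hy, neg_zero]

theorem x2_wedge {b : LinearMap.BilinForm E V} (hs : ∀ x y, b x y = b y x) (x y : V) :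
    wedge b x y ∈ Skew b := by
  rw [mem_Skew]
  intro u v
  rw [wedge, LinearMap.sub_apply, LinearMap.smulRight_apply, LinearMap.smulRight_apply,
    LinearMap.sub_apply, LinearMap.smulRight_apply, LinearMap.smulRight_apply, map_sub, map_sub,
    LinearMap.sub_apply, map_smul, map_smul, map_smul, map_smul, LinearMap.smul_apply,
    LinearMap.smul_apply, smul_eq_mul, smul_eq_mul, smul_eq_mul, smul_eq_mul, hs u x, hs u y]
  ring

theorem x2_wedgeS {b : LinearMap.BilinForm E V} (hs : ∀ x y, b x y = - b y x) (x y : V) :
    wedgeS b x y ∈ Skew b := by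
  rw [mem_Skew]
  intro u v
  rw [wedgeS, LinearMap.add_apply, LinearMap.smulRight_apply, LinearMap.smulRight_apply,
    LinearMap.add_apply, LinearMap.smulRight_apply, LinearMap.smulRight_apply, map_add, map_add,
    LinearMap.add_apply, map_smul, map_smul, map_smul, map_smul, LinearMap.smul_apply,
    LinearMap.smul_apply, smul_eq_mul, smul_eq_mul, smul_eq_mul, smul_eq_mul, hs u x, hs u y]
  ring

/-- linear independence from a dual family of functionals -/
theorem x2_indep {W ι : Type*} [DecidableEq ι] [AddCommGroup W] [Module E W] (w : ι → W)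
    (f : ι → W →ₗ[E] E)
    (h : ∀ i j, f i (w j) = if i = j then 1 else 0) : LinearIndependent E w := by
  rw [linearIndependent_iff']
  intro s g hg i hi
  have h1 := congrArg (f i) hg
  rw [map_sum, map_zero] at h1
  simp only [map_smul, h, smul_eq_mul, mul_ite, mul_one, mul_zero] at h1
  rw [Finset.sum_ite_eq, if_pos hi] at h1
  exact h1

theorem x2_card (m : ℕ) : Fintype.card (Σ j : Fin m, Fin j) * 2 = m * (m - 1) := by
  rw [Fintype.card_sigma]
  simp only [Fintype.card_fin]
  rw [Fin.sum_univ_eq_sum_range (fun i => i) m, Finset.sum_range_id_mul_two]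

theorem ox_dim [FiniteDimensional E V] (h2 : (2 : E) ≠ 0) (b : LinearMap.BilinForm E V)
    (hs : (∀ x y, b x y = b y x) ∨ ∀ x y, b x y = - b y x)
    (hn : ∀ x, (∀ y, b x y = 0) → x = 0) :
    finrank E V * (finrank E V - 1) ≤ 2 * finrank E (Skew b) := by
  classical
  have hB := x2_nd hs hn
  set m := finrank E V with hm
  set e := finBasis E V with he
  set d := b.dualBasis hB e with hd
  have hdl : ∀ i j, b (d i) (e j) = if j = i then 1 else 0 :=
    fun i j => LinearMap.BilinForm.apply_dualBasis_left hB e i j
  -- the family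
  obtain ⟨c, W, hW, hWv⟩ : ∃ (c : E) (W : V → V → Module.End E V), (∀ x y, W x y ∈ Skew b) ∧
      ∀ k l j i, e.coord i (W (e k) (e l) (c • d j)) =
        (if l = j then (if k = i then 1 else 0) else 0) -
        (if k = j then (if l = i then (c) else 0) else 0) := by
    rcases hs with hs | hs
    · refine ⟨1, wedge b, x2_wedge hs, ?_⟩
      intro k l j i
      rw [one_smul, wedge, LinearMap.sub_apply, LinearMap.smulRight_apply,
        LinearMap.smulRight_apply, hs (e l), hs (e k), hdl, hdl, map_sub, map_smul, map_smul,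
        Basis.coord_apply, Basis.coord_apply, Basis.repr_self, Basis.repr_self,
        Finsupp.single_apply, Finsupp.single_apply]
      split_ifs <;> simp
    · refine ⟨-1, wedgeS b, x2_wedgeS hs, ?_⟩
      intro k l j i
      rw [wedgeS, LinearMap.add_apply, LinearMap.smulRight_apply,
        LinearMap.smulRight_apply, map_smul, map_smul, hs (e l), hs (e k), hdl, hdl, map_add,
        map_smul, map_smul, Basis.coord_apply, Basis.coord_apply, Basis.repr_self, Basis.repr_self,
        Finsupp.single_apply, Finsupp.single_apply]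
      split_ifs <;> simp
  let ι := Σ j : Fin m, Fin j
  let lo : ι → Fin m := fun z => ⟨z.2.1, z.2.2.trans z.1.2⟩
  have hlo : ∀ z : ι, (lo z).1 < z.1.1 := fun z => z.2.2
  let w : ι → Skew b := fun z => ⟨W (e (lo z)) (e z.1), hW _ _⟩
  let f : ι → Skew b →ₗ[E] E := fun z =>
    { toFun := fun X => e.coord (lo z) (X.1 (c • d z.1))
      map_add' := by
        intro X Y
        rw [Submodule.coe_add, LinearMap.add_apply, map_add]
      map_smul' := by
        intro r X
        rw [Submodule.coe_smul, LinearMap.smul_apply, map_smul, RingHom.id_apply] }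
  have key : ∀ i j, f i (w j) = if i = j then 1 else 0 := by
    intro z z'
    show e.coord (lo z) (W (e (lo z')) (e z'.1) (c • d z.1)) = _
    rw [hWv]
    have h1 := hlo z
    have h2 := hlo z'
    by_cases hz : z = z'
    · subst hz
      rw [if_pos rfl, if_pos rfl, if_pos rfl, if_neg, sub_zero]
      intro h
      rw [h] at h1
      exact lt_irrefl _ h1
    · rw [if_neg hz]
      have h3 : (if z'.1 = z.1 then (if lo z' = lo z then (1 : E) else 0) else 0) = 0 := by
        split_ifs with h4 h5
        · exfalso
          apply hz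
          obtain ⟨a, a'⟩ := z
          obtain ⟨a1, a1'⟩ := z'
          simp only at h4
          subst h4
          have h6 : a1'.1 = a'.1 := congrArg (fun q : Fin m => q.1) h5
          rw [Fin.ext h6]
        · rfl
        · rfl
      have h3' : (if lo z' = z.1 then (if z'.1 = lo z then (c : E) else 0) else 0) = 0 := by
        split_ifs with h4 h5
        · exfalso
          rw [h4, h5] at h2
          exact absurd h1 (not_lt.2 h2.le)
        · rfl
        · rfl
      rw [h3, h3', sub_zero]
  have hli := (x2_indep w f key).fintype_card_le_finrank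
  have hc := x2_card m
  have hc' : Fintype.card ι = Fintype.card (Σ j : Fin m, Fin j) := rfl
  omega

theorem x2_mk [FiniteDimensional E V] {ι : Type*} [Fintype ι] (b : LinearMap.BilinForm E V)
    (hn' : ∀ y, (∀ x, b x y = 0) → y = 0) (e : Basis ι E V) (τ : ι → ι)
    (hτ : ∀ i, τ (τ i) = i) (σ : ι → E) (hσ : ∀ i, σ i ≠ 0)
    (hk : ∀ u v, ∑ i, σ i * b (e (τ i)) u * b (e i) v =
      - ∑ i, σ i * b (e (τ i)) v * b u (e i)) :
    ∃ X ∈ Skew b, LinearMap.det X ≠ 0 := by
  classical
  let X : Module.End E V := ∑ i, (b (e (τ i))).smulRight (σ i • e i)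
  have hX : ∀ v, X v = ∑ i, b (e (τ i)) v • σ i • e i := by
    intro v
    show (∑ i, (b (e (τ i))).smulRight (σ i • e i)) v = _
    rw [LinearMap.sum_apply]
    exact Finset.sum_congr rfl fun i _ => LinearMap.smulRight_apply _ _ _
  refine ⟨X, ?_, ?_⟩
  · rw [mem_Skew]
    intro u v
    have h := hk u v
    have h1 : b (X u) v = ∑ i, σ i * b (e (τ i)) u * b (e i) v := by
      rw [hX, map_sum, LinearMap.sum_apply]
      refine Finset.sum_congr rfl fun i _ => ?_
      rw [map_smul, map_smul, LinearMap.smul_apply, LinearMap.smul_apply, smul_eq_mul,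
        smul_eq_mul]
      ring
    have h2 : b u (X v) = ∑ i, σ i * b (e (τ i)) v * b u (e i) := by
      rw [hX, map_sum]
      refine Finset.sum_congr rfl fun i _ => ?_
      rw [map_smul, map_smul, smul_eq_mul, smul_eq_mul]
      ring
    rw [h1, h2, h]
  · have hinj : Function.Injective X := by
      rw [injective_iff_map_eq_zero]
      intro v hv
      rw [hX] at hv
      have h0 : ∑ i, (b (e (τ i)) v * σ i) • e i = 0 := by
        rw [← hv]
        exact Finset.sum_congr rfl fun i _ => mul_smul _ _ _
      have h1 := (linearIndependent_iff'.1 e.linearIndependent) Finset.univ _ h0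
      have h2 : ∀ i, b (e i) v = 0 := by
        intro i
        have h3 := h1 (τ i) (Finset.mem_univ _)
        rw [hτ] at h3
        exact (mul_eq_zero.1 h3).resolve_right (hσ _)
      apply hn' v
      intro x
      rw [← e.sum_repr x, map_sum, LinearMap.sum_apply]
      refine Finset.sum_eq_zero fun i _ => ?_
      rw [map_smul, LinearMap.smul_apply, h2, smul_zero]
    have hu : IsUnit X := by
      rw [Module.End.isUnit_iff]
      exact ⟨hinj, (LinearMap.injective_iff_surjective).1 hinj⟩
    exact ((LinearMap.isUnit_iff_isUnit_det X).1 hu).ne_zero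

theorem ox_inv [FiniteDimensional E V] (h2 : (2 : E) ≠ 0) (b : LinearMap.BilinForm E V)
    (hs : (∀ x y, b x y = b y x) ∨ ∀ x y, b x y = - b y x)
    (hn : ∀ x, (∀ y, b x y = 0) → x = 0) (hev : Even (finrank E V)) :
    ∃ X ∈ Skew b, LinearMap.det X ≠ 0 := by
  classical
  have hB := x2_nd hs hn
  obtain ⟨k, hk⟩ := hev
  rcases hs with hs | hs
  · have eq : Fin (finrank E V) ≃ Fin k ⊕ Fin k := (finCongr hk).trans finSumFinEquiv.symm
    let e := (finBasis E V).reindex eq
    refine x2_mk b hB.2 e Sum.swap Sum.swap_swap (Sum.elim (fun _ => 1) (fun _ => -1)) ?_ ?_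
    · rintro (i | i)
      · exact one_ne_zero
      · exact neg_ne_zero.2 one_ne_zero
    · intro u v
      simp only [Fintype.sum_sum_type, Sum.swap_inl, Sum.swap_inr, Sum.elim_inl, Sum.elim_inr]
      simp only [hs u]
      rw [← Finset.sum_add_distrib, ← Finset.sum_add_distrib, ← Finset.sum_neg_distrib]
      refine Finset.sum_congr rfl fun i _ => ?_
      ring
  · refine x2_mk b hB.2 (finBasis E V) id (fun _ => rfl) (fun _ => 1) (fun _ => one_ne_zero) ?_
    intro u v
    rw [← Finset.sum_neg_distrib]
    refine Finset.sum_congr rfl fun i _ => ?_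
    rw [hs u]
    simp only [id]
    ring

theorem ox_even [FiniteDimensional E V] (h2 : (2 : E) ≠ 0) (b : LinearMap.BilinForm E V)
    (hs : ∀ x y, b x y = - b y x) (hn : ∀ x, (∀ y, b x y = 0) → x = 0) :
    Even (finrank E V) := by
  classical
  have hB := x2_nd (Or.inr hs) hn
  set e := finBasis E V with he
  have hdet := (LinearMap.BilinForm.nondegenerate_iff_det_ne_zero e).1 hB
  set M := LinearMap.BilinForm.toMatrix e b with hM
  have hT : M.transpose = -M := by
    ext i j
    rw [Matrix.transpose_apply, Matrix.neg_apply, hM, LinearMap.BilinForm.toMatrix_apply,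
      LinearMap.BilinForm.toMatrix_apply, hs]
  have h3 : M.det = (-1) ^ (finrank E V) * M.det := by
    conv_lhs => rw [← Matrix.det_transpose, hT, Matrix.det_neg, Fintype.card_fin]
  rcases Nat.even_or_odd (finrank E V) with h | h
  · exact h
  · exfalso
    rw [h.neg_one_pow] at h3
    apply hdet
    have h4 : (2 : E) * M.det = 0 := by linear_combination h3
    exact (mul_eq_zero.1 h4).resolve_left h2

end



end Pool.Agent.OX
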