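import Pool.Agent.Lib_helper7.TB.Lie
import Pool.Agent.Lib_helper44.OX.Defs

/-!
# OX block Y2, helper16: logarithms of a direct sum
-/

set_option autoImplicit false

namespace Pool.Agent.OX

open Module Pool.Agent.TBL Filter Topology

theorem y2_lim {k R : Type*} [NontriviallyNormedField k] [NormedRing R] [NormedAlgebra k R]
    {p : ℕ} {a L : R} (h : Tendsto (dq k p a) atTop (𝓝 L)) : lg k p a = L := by
  have h1 : ∃ L : R, Tendsto (dq k p a) atTop (𝓝 L) := ⟨L, h⟩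
  rw [lg, dif_pos h1]
  exact tendsto_nhds_unique h1.choose_spec h

section

variable {k : Type*} [NontriviallyNormedField k] [IsUltrametricDist k] [CompleteSpace k]
  {n : Type*} [Fintype n] [DecidableEq n] {n' : Type*} [Fintype n'] [DecidableEq n']

attribute [local instance] matRing matAlg matUltra matComplete

variable {G : Type*} [Group G] (A : G →* Matrix n n k) (A' : G →* Matrix n' n' k)
  (N : Subgroup G)

theorem y2_cont : Continuous (fun q : Matrix n n k × Matrix n' n' k =>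
    (Matrix.fromBlocks q.1 0 0 q.2 : Matrix (n ⊕ n') (n ⊕ n') k)) := by
  apply continuous_pi
  intro i
  apply continuous_pi
  intro j
  rcases i with i | i <;> rcases j with j | j
  · exact (continuous_apply_apply i j).comp continuous_fst
  · exact continuous_const
  · exact continuous_const
  · exact (continuous_apply_apply i j).comp continuous_snd

theorem y2_dq (p : ℕ) (h : G) (m : ℕ) : dq k p (join A A' h) m =
    Matrix.fromBlocks (dq k p (A h) m) 0 0 (dq k p (A' h) m) := by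
  have h1 : join A A' h ^ p ^ m = Matrix.fromBlocks (A h ^ p ^ m) 0 0 (A' h ^ p ^ m) := by
    rw [← map_pow, ← map_pow A, ← map_pow A']
    rfl
  rw [dq, dq, dq, h1]
  ext i j
  rcases i with i | i <;> rcases j with j | j <;>
    simp [Matrix.fromBlocks, Matrix.one_apply]

theorem y2_lg {p : ℕ} (hp0 : (p : k) ≠ 0) (hp : ‖(p : k)‖ < 1)
    (hN : ∀ h ∈ N, ‖A h - 1‖ ≤ ‖(p : k)‖ ^ 2) (hN' : ∀ h ∈ N, ‖A' h - 1‖ ≤ ‖(p : k)‖ ^ 2)
    {h : G} (hh : h ∈ N) :
    lg k p (join A A' h) = Matrix.fromBlocks (lg k p (A h)) 0 0 (lg k p (A' h)) := by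
  have h1 := tendsto_dq (k := k) hp0 hp (hN h hh)
  have h2 := tendsto_dq (k := k) hp0 hp (hN' h hh)
  have h3 : Tendsto (dq k p (join A A' h)) atTop
      (𝓝 (Matrix.fromBlocks (lg k p (A h)) 0 0 (lg k p (A' h)))) := by
    have h4 := ((y2_cont (k := k) (n := n) (n' := n')).tendsto
      (lg k p (A h), lg k p (A' h))).comp (h1.prodMk_nhds h2)
    refine h4.congr fun m => ?_
    rw [y2_dq]
    rfl
  exact y2_lim h3

theorem ox_join1 {p : ℕ} (hp0 : (p : k) ≠ 0) (hp : ‖(p : k)‖ < 1)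
    (hN : ∀ h ∈ N, ‖A h - 1‖ ≤ ‖(p : k)‖ ^ 2) (hN' : ∀ h ∈ N, ‖A' h - 1‖ ≤ ‖(p : k)‖ ^ 2)
    {X : Matrix (n ⊕ n') (n ⊕ n') k} (hX : X ∈ sp (join A A') N p) :
    ∃ Y ∈ sp A N p, ∃ Z ∈ sp A' N p, X = Matrix.fromBlocks Y 0 0 Z := by
  induction hX using Submodule.span_induction with
  | mem x hx =>
    obtain ⟨h, hh, rfl⟩ := hx
    exact ⟨_, lg_mem_sp A N p hh, _, lg_mem_sp A' N p hh, y2_lg A A' N hp0 hp hN hN' hh⟩
  | zero => exact ⟨0, zero_mem _, 0, zero_mem _, Matrix.fromBlocks_zero.symm⟩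
  | add x y _ _ hx hy =>
    obtain ⟨Y, hY, Z, hZ, rfl⟩ := hx
    obtain ⟨Y', hY', Z', hZ', rfl⟩ := hy
    refine ⟨Y + Y', add_mem hY hY', Z + Z', add_mem hZ hZ', ?_⟩
    rw [Matrix.fromBlocks_add, add_zero, add_zero]
  | smul c x _ hx =>
    obtain ⟨Y, hY, Z, hZ, rfl⟩ := hx
    refine ⟨c • Y, Submodule.smul_mem _ _ hY, c • Z, Submodule.smul_mem _ _ hZ, ?_⟩
    rw [Matrix.fromBlocks_smul, smul_zero, smul_zero]

theorem ox_join2 {p : ℕ} (hp0 : (p : k) ≠ 0) (hp : ‖(p : k)‖ < 1)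
    (hN : ∀ h ∈ N, ‖A h - 1‖ ≤ ‖(p : k)‖ ^ 2) (hN' : ∀ h ∈ N, ‖A' h - 1‖ ≤ ‖(p : k)‖ ^ 2)
    {Y : Matrix n n k} (hY : Y ∈ sp A N p) :
    ∃ Z, Matrix.fromBlocks Y 0 0 Z ∈ sp (join A A') N p := by
  induction hY using Submodule.span_induction with
  | mem x hx =>
    obtain ⟨h, hh, rfl⟩ := hx
    refine ⟨lg k p (A' h), ?_⟩
    rw [← y2_lg A A' N hp0 hp hN hN' hh]
    exact lg_mem_sp (join A A') N p hh
  | zero => exact ⟨0, by rw [Matrix.fromBlocks_zero]; exact zero_mem _⟩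
  | add x y _ _ hx hy =>
    obtain ⟨Z, hZ⟩ := hx
    obtain ⟨Z', hZ'⟩ := hy
    refine ⟨Z + Z', ?_⟩
    have h1 := add_mem hZ hZ'
    rwa [Matrix.fromBlocks_add, add_zero, add_zero] at h1
  | smul c x _ hx =>
    obtain ⟨Z, hZ⟩ := hx
    refine ⟨c • Z, ?_⟩
    have h1 := Submodule.smul_mem _ c hZ
    rwa [Matrix.fromBlocks_smul, smul_zero, smul_zero] at h1

end


end Pool.Agent.OX
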