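import Pool.Agent.Lib_helper44.OF.Alg
import Pool.Agent.Lib_helper44.OF.Base
import Pool.Agent.Lib_helper44.OF.R3
import Pool.Agent.Lib_helper44.OF.R4
import Pool.Agent.Lib_helper44.OF.R5
import Pool.Agent.Lib_helper44.OF.X2
import Pool.Agent.Lib_helper44.OF.Y1
import Pool.Agent.Lib_helper44.OF.Y2

/-!
# The Lie algebra of the joint representation
-/

set_option autoImplicit false

namespace Pool.Agent.OX

open Pool.Agent.TBL Pool.Agent.OM Topology Module

attribute [local instance] matRing matAlg matUltra matComplete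

/-- The hypotheses on the representation `ρ`. -/
structure Hyp {G : Type*} [Group G] [TopologicalSpace G] (p q m : ℕ) [Fact p.Prime]
    (ρ : G →* Matrix (Fin m) (Fin m) ℤ_[p]) (B : Matrix (Fin m) (Fin m) ℤ_[p]) (c : G → ℤ_[p])
    (g₀ : G) : Prop where
  hq : q = 2 ∨ q = 3
  hpq : p ≠ q
  hm : 5 ≤ m
  cont : Continuous ρ
  det0 : B.det ≠ 0
  sim : ∀ g, (ρ g).transpose * B * ρ g = c g • B
  typ : (B.transpose = B ∧ ∀ g, c g = 1) ∨ (B.transpose = -B ∧ q = 3)
  inf : ∀ U : Subgroup G, IsOpen (U : Set G) → ∃ h ∈ U, ∀ a : ℤ_[p], ρ h ≠ a • 1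
  ord : (ρ g₀).map PadicInt.toZMod ^ q = 1
  rk : ((ρ g₀).map PadicInt.toZMod - 1).rank = q - 1
  spn : Submodule.span (ZMod p) ((fun g => (ρ g).map PadicInt.toZMod) ''
      (Subgroup.normalClosure {g₀} : Set G)) = ⊤

theorem schur {k : Type*} [Field k] [IsAlgClosed k] {m : ℕ} (hm : 0 < m)
    (T : Matrix (Fin m) (Fin m) k) (S : Set (Matrix (Fin m) (Fin m) k))
    (hS : ∀ U : Submodule k (Fin m → k), (∀ X ∈ S, ∀ u ∈ U, X.mulVec u ∈ U) → U = ⊥ ∨ U = ⊤)
    (hT : ∀ X ∈ S, T * X = X * T) : ∃ a : k, T = a • (1 : Matrix (Fin m) (Fin m) k) := by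
  have hnt : Nontrivial (Fin m → k) := by
    have : Nonempty (Fin m) := ⟨⟨0, hm⟩⟩
    exact Function.nontrivial
  obtain ⟨a, ha⟩ := Module.End.exists_eigenvalue (Matrix.toLin' T)
  refine ⟨a, ?_⟩
  have hmem : ∀ u, u ∈ Module.End.eigenspace (Matrix.toLin' T) a ↔ T.mulVec u = a • u := by
    intro u
    rw [Module.End.mem_eigenspace_iff, Matrix.toLin'_apply]
  rcases hS (Module.End.eigenspace (Matrix.toLin' T) a) (by
    intro X hX u hu
    rw [hmem] at hu ⊢
    rw [Matrix.mulVec_mulVec, hT X hX, ← Matrix.mulVec_mulVec, hu, Matrix.mulVec_smul]) with h | h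
  · exact absurd h ha
  · apply Matrix.toLin'.injective
    apply LinearMap.ext
    intro u
    have h2 : u ∈ Module.End.eigenspace (Matrix.toLin' T) a := by rw [h]; trivial
    rw [hmem] at h2
    rw [Matrix.toLin'_apply, h2, map_smul, Matrix.toLin'_one, LinearMap.smul_apply,
      LinearMap.id_apply]

section

variable {p : ℕ} [hp : Fact p.Prime]

theorem descend {m : ℕ} (hm : 0 < m) (M : Matrix (Fin m) (Fin m) ℤ_[p]) (a : ℂ_[p])
    (h : M.map (inc p) = a • (1 : Matrix (Fin m) (Fin m) ℂ_[p])) :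
    ∃ a' : ℤ_[p], M = a' • (1 : Matrix (Fin m) (Fin m) ℤ_[p]) := by
  have h1 : ∀ i j, inc p (M i j) = (a • (1 : Matrix (Fin m) (Fin m) ℂ_[p])) i j := by
    intro i j
    rw [← h, Matrix.map_apply]
  refine ⟨M ⟨0, hm⟩ ⟨0, hm⟩, ?_⟩
  ext i j
  by_cases hij : i = j
  · subst hij
    rw [Matrix.smul_apply, Matrix.one_apply_eq, smul_eq_mul, mul_one]
    apply inc_inj
    rw [h1, h1, Matrix.smul_apply, Matrix.smul_apply, Matrix.one_apply_eq, Matrix.one_apply_eq]
  · rw [Matrix.smul_apply, Matrix.one_apply_ne hij, smul_zero]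
    apply inc_inj
    rw [h1, map_zero, Matrix.smul_apply, Matrix.one_apply_ne hij, smul_zero]

end

/-- Conjugation by a similitude. -/
theorem mult_conj {k : Type*} [Field k] {n : Type*} [Fintype n] [DecidableEq n]
    (BC A A' Z : Matrix n n k) (c μ : k) (hA : A.transpose * BC * A = c • BC) (hAA : A * A' = 1)
    (hZ : Z.transpose * BC + BC * Z = μ • BC) :
    (A * Z * A').transpose * BC + BC * (A * Z * A') = μ • BC := by
  have h1 : A'.transpose * A.transpose = 1 := by
    rw [← Matrix.transpose_mul, hAA, Matrix.transpose_one]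
  have h2 : BC * A = c • (A'.transpose * BC) := by
    calc BC * A = (A'.transpose * A.transpose) * BC * A := by rw [h1, one_mul]
      _ = A'.transpose * (A.transpose * BC * A) := by simp only [mul_assoc]
      _ = c • (A'.transpose * BC) := by rw [hA, mul_smul_comm]
  have h3 : (A * Z * A').transpose * BC = c • (A'.transpose * (Z.transpose * BC) * A') := by
    calc (A * Z * A').transpose * BC
        = A'.transpose * Z.transpose * (A.transpose * BC * (A * A')) := by
          rw [hAA, mul_one, Matrix.transpose_mul, Matrix.transpose_mul]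
          simp only [mul_assoc]
      _ = A'.transpose * Z.transpose * ((A.transpose * BC * A) * A') := by
          simp only [mul_assoc]
      _ = c • (A'.transpose * (Z.transpose * BC) * A') := by
          rw [hA, smul_mul_assoc, mul_smul_comm]
          simp only [mul_assoc]
  have h4 : BC * (A * Z * A') = c • (A'.transpose * (BC * Z) * A') := by
    calc BC * (A * Z * A') = (BC * A) * Z * A' := by simp only [mul_assoc]
      _ = c • (A'.transpose * (BC * Z) * A') := by
        rw [h2, smul_mul_assoc, smul_mul_assoc]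
        simp only [mul_assoc]
  rw [h3, h4, ← smul_add, ← add_mul, ← mul_add, hZ, mul_smul_comm, smul_mul_assoc, smul_comm c μ,
    ← smul_mul_assoc, ← h2, mul_assoc, hAA, mul_one]

theorem join_norm {k : Type*} [NontriviallyNormedField k] [IsUltrametricDist k]
    {n : Type*} [Fintype n] [DecidableEq n] {n' : Type*} [Fintype n'] [DecidableEq n']
    {G : Type*} [Group G] (A : G →* Matrix n n k) (A' : G →* Matrix n' n' k) (h : G) {r : ℝ}
    (hr : 0 ≤ r) (h1 : ‖A h - 1‖ ≤ r) (h2 : ‖A' h - 1‖ ≤ r) : ‖join A A' h - 1‖ ≤ r := by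
  rw [Matrix.norm_le_iff hr] at h1 h2 ⊢
  have h3 : join A A' h - 1 = Matrix.fromBlocks (A h - 1) 0 0 (A' h - 1) := by
    have h4 : (1 : Matrix (n ⊕ n') (n ⊕ n') k) = Matrix.fromBlocks 1 0 0 1 :=
      Matrix.fromBlocks_one.symm
    have h5 : join A A' h = Matrix.fromBlocks (A h) 0 0 (A' h) := rfl
    rw [h5, h4, sub_eq_add_neg, Matrix.fromBlocks_neg, Matrix.fromBlocks_add]
    simp [sub_eq_add_neg]
  rw [h3]
  intro i j
  rcases i with i | i <;> rcases j with j | j
  · exact h1 i j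
  · rw [Matrix.fromBlocks_apply₁₂, Matrix.zero_apply, norm_zero]; exact hr
  · rw [Matrix.fromBlocks_apply₂₁, Matrix.zero_apply, norm_zero]; exact hr
  · exact h2 i j


/-- The Lie algebra of a small normal subgroup: irreducibility and all skew-symmetric matrices. -/
theorem lie_all {G : Type*} [Group G] [TopologicalSpace G] [IsTopologicalGroup G]
    [CompactSpace G] {p q m : ℕ} [hp : Fact p.Prime] {ρ : G →* Matrix (Fin m) (Fin m) ℤ_[p]}
    {B : Matrix (Fin m) (Fin m) ℤ_[p]} {c : G → ℤ_[p]} {g₀ : G} (Y : Hyp p q m ρ B c g₀)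
    (N : Subgroup G) (hNn : N.Normal) (hNo : IsOpen (N : Set G))
    (hN : ∀ h ∈ N, ‖toC ρ h - 1‖ ≤ ‖(p : ℂ_[p])‖ ^ 2) (hp0 : (p : ℂ_[p]) ≠ 0)
    (hp1 : ‖(p : ℂ_[p])‖ < 1) :
    (∀ U : Submodule ℂ_[p] (Fin m → ℂ_[p]), (∀ X ∈ sp (toC ρ) N p, ∀ u ∈ U, X.mulVec u ∈ U) →
      U = ⊥ ∨ U = ⊤) ∧
    (∀ X : Matrix (Fin m) (Fin m) ℂ_[p], X.transpose * B.map (inc p) + B.map (inc p) * X = 0 →
      X ∈ sp (toC ρ) N p) ∧
    ∀ {d : ℕ} (ν : G →* Matrix (Fin d) (Fin d) ℂ_[p]),
      (∀ h ∈ N, ‖dual ν h - 1‖ ≤ ‖(p : ℂ_[p])‖ ^ 2) →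
      (2 * d ^ 2 < m * (m - 1) ∨ ∃ g, ν g = 1 ∧ ∀ a : ℤ_[p], ρ g ≠ a • 1) →
      ∀ X : Matrix (Fin m) (Fin m) ℂ_[p], X.transpose * B.map (inc p) + B.map (inc p) * X = 0 →
        Matrix.fromBlocks X 0 0 0 ∈ sp (join (toC ρ) (dual ν)) N p := by
  classical
  have hq1 : 2 ≤ q ∧ q ≤ 3 := by rcases Y.hq with h | h <;> omega
  have hm := Y.hm
  have hm0 : 0 < m := by omega
  obtain ⟨σ, hσ1, hσ2⟩ := om_lim ρ Y.cont Y.hq Y.hpq g₀ Y.ord
  -- the normal closures
  have hspan : Submodule.span (ZMod p) ((fun g => (ρ g).map PadicInt.toZMod) ''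
      (Subgroup.normalClosure {σ} : Set G)) = ⊤ := by
    rw [eq_top_iff, ← Y.spn]
    apply Submodule.span_mono
    rintro _ ⟨g, hg, rfl⟩
    obtain ⟨g', hg', h4⟩ := ncl_lift (toF ρ) hσ1 g hg
    exact ⟨g', hg', h4⟩
  set A := toC ρ with hA
  set BC : Matrix (Fin m) (Fin m) ℂ_[p] := B.map (inc p) with hBC
  have hBC0 : BC.det ≠ 0 := by
    rw [hBC, ← RingHom.mapMatrix_apply, ← RingHom.map_det]
    intro h
    exact Y.det0 ((map_eq_zero_iff _ inc_inj).mp h)
  have hsim : ∀ g, (A g).transpose * BC * A g = inc p (c g) • BC := by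
    intro g
    rw [hA, toC_apply, hBC, ← Matrix.transpose_map, ← Matrix.map_mul, ← Matrix.map_mul, Y.sim]
    ext i j
    rw [Matrix.map_apply, Matrix.smul_apply, Matrix.smul_apply, Matrix.map_apply, smul_eq_mul,
      smul_eq_mul, map_mul]
  have hcase : (BC.transpose = BC ∧ ∀ g, (A g).transpose * BC * A g = BC) ∨
      (BC.transpose = -BC ∧ q = 3 ∧ ∀ g, ∃ c : ℂ_[p], (A g).transpose * BC * A g = c • BC) := by
    rcases Y.typ with ⟨h1, h2⟩ | ⟨h1, h2⟩
    · left
      refine ⟨by rw [hBC, ← Matrix.transpose_map, h1], fun g => ?_⟩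
      rw [hsim, h2, map_one, one_smul]
    · right
      refine ⟨?_, h2, fun g => ⟨_, hsim g⟩⟩
      rw [hBC, ← Matrix.transpose_map, h1]
      ext i j
      simp
  have hAσ : A σ ^ q = 1 := by
    rw [hA, toC_apply]
    have h4 : (ρ σ).map (inc p) ^ q = ((ρ σ) ^ q).map (inc p) := by
      rw [← RingHom.mapMatrix_apply, ← RingHom.mapMatrix_apply, map_pow]
    rw [h4, hσ2, Matrix.map_one _ (map_zero _) (map_one _)]
  have hrk : (A σ - 1).rank = q - 1 := by
    have h4 := om_rk_eq (ρ σ) Y.hq Y.hpq hσ2 (inc p) inc_inj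
    rw [hσ1, Y.rk] at h4
    exact h4
  have hAA : ∀ g, A g * A g⁻¹ = 1 := fun g => by rw [← map_mul, mul_inv_cancel, map_one]
  have hAA' : ∀ g, A g⁻¹ * A g = 1 := fun g => by rw [← map_mul, inv_mul_cancel, map_one]
  have key := fun M h1 h2 h3 h4 => alg Y.hq Y.hm A BC hBC0 hcase σ hAσ hrk
    (fun U hU => om_span ρ _ hspan (inc p) inc_inj U hU) M h1 h2 h3 h4
  -- scalars
  have hscal : ∀ g (a : ℂ_[p]), A g = a • 1 → ∃ a' : ℤ_[p], ρ g = a' • 1 :=
    fun g a h => descend hm0 (ρ g) a h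
  have hskadd : ∀ X Z : Matrix (Fin m) (Fin m) ℂ_[p], X.transpose * BC + BC * X = 0 →
      Z.transpose * BC + BC * Z = 0 → (X + Z).transpose * BC + BC * (X + Z) = 0 := by
    intro X Z hX hZ
    have : (X + Z).transpose * BC + BC * (X + Z) =
        (X.transpose * BC + BC * X) + (Z.transpose * BC + BC * Z) := by
      rw [Matrix.transpose_add]
      noncomm_ring
    rw [this, hX, hZ, add_zero]
  have hsksmul : ∀ (a : ℂ_[p]) (X : Matrix (Fin m) (Fin m) ℂ_[p]),
      X.transpose * BC + BC * X = 0 → (a • X).transpose * BC + BC * (a • X) = 0 := by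
    intro a X hX
    rw [Matrix.transpose_smul, smul_mul_assoc, mul_smul_comm, ← smul_add, hX, smul_zero]
  have hskbr : ∀ X Z : Matrix (Fin m) (Fin m) ℂ_[p], X.transpose * BC + BC * X = 0 →
      Z.transpose * BC + BC * Z = 0 →
        (X * Z - Z * X).transpose * BC + BC * (X * Z - Z * X) = 0 := by
    intro X Z hX hZ
    have hX' : X.transpose * BC = -(BC * X) := eq_neg_of_add_eq_zero_left hX
    have hZ' : Z.transpose * BC = -(BC * Z) := eq_neg_of_add_eq_zero_left hZ
    rw [Matrix.transpose_sub, Matrix.transpose_mul, Matrix.transpose_mul, sub_mul, mul_assoc,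
      hX', mul_assoc, hZ', mul_neg, mul_neg, ← mul_assoc, ← mul_assoc, hX', hZ']
    noncomm_ring
  have hskconj : ∀ g (X : Matrix (Fin m) (Fin m) ℂ_[p]), X.transpose * BC + BC * X = 0 →
      (A g * X * A g⁻¹).transpose * BC + BC * (A g * X * A g⁻¹) = 0 := by
    intro g X hX
    have h4 := mult_conj BC (A g) (A g⁻¹) X (inc p (c g)) 0 (hsim g) (hAA g)
      (by rw [hX, zero_smul])
    rw [h4, zero_smul]
  -- the algebra of trace zero parts
  let L₀ : Submodule ℂ_[p] (Matrix (Fin m) (Fin m) ℂ_[p]) :=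
    { carrier := {X | X.transpose * BC + BC * X = 0 ∧ ∃ a : ℂ_[p], X + a • 1 ∈ sp A N p}
      zero_mem' := ⟨by simp, 0, by simp⟩
      add_mem' := by
        rintro X Z ⟨hX, a, ha⟩ ⟨hZ, b, hb⟩
        refine ⟨hskadd X Z hX hZ, a + b, ?_⟩
        have : X + Z + (a + b) • (1 : Matrix (Fin m) (Fin m) ℂ_[p]) =
            (X + a • 1) + (Z + b • 1) := by
          rw [add_smul]; abel
        rw [this]
        exact add_mem ha hb
      smul_mem' := by
        rintro b X ⟨hX, a, ha⟩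
        refine ⟨hsksmul b X hX, b * a, ?_⟩
        rw [mul_smul, ← smul_add]
        exact Submodule.smul_mem _ _ ha }
  have hL₀ : ∀ X, X ∈ L₀ ↔ X.transpose * BC + BC * X = 0 ∧ ∃ a : ℂ_[p], X + a • 1 ∈ sp A N p :=
    fun X => Iff.rfl
  have hk0 := key L₀ (fun X hX => hX.1) (by
      rintro X ⟨hX, a, ha⟩ Z ⟨hZ, b, hb⟩
      refine ⟨hskbr X Z hX hZ, 0, ?_⟩
      have h4 := sp_bracket A N hp0 hp1 hNn hN ha hb
      rw [zero_smul, add_zero]
      have : (X + a • 1) * (Z + b • 1) - (Z + b • 1) * (X + a • 1) = X * Z - Z * X := by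
        simp only [add_mul, mul_add, smul_mul_assoc, mul_smul_comm, one_mul, mul_one, smul_add,
          smul_smul, mul_comm b a]
        abel
      rwa [this] at h4) (by
      rintro g X ⟨hX, a, ha⟩
      refine ⟨hskconj g X hX, a, ?_⟩
      have h4 := sp_conj A N hp0 hp1 hNn hN g ha
      rw [mul_add, add_mul, mul_smul_comm, mul_one, smul_mul_assoc, hAA] at h4
      exact h4) (by
      by_contra hcon
      push Not at hcon
      obtain ⟨h, hh, h5⟩ := Y.inf N hNo
      obtain ⟨a, ha⟩ := ox_scal A N hp0 hp1 hN (by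
        intro Z hZ
        obtain ⟨μ, hμ⟩ := ox_skewc A N hp0 hp1 hN BC (fun g => inc p (c g))
          (fun g _ => hsim g) hZ
        refine ⟨μ / 2, ?_⟩
        have h6 := hcon (Z - (μ / 2) • 1) ⟨?_, μ / 2, by rwa [sub_add_cancel]⟩
        · exact sub_eq_zero.mp h6
        · have : (Z - (μ / 2) • (1 : Matrix (Fin m) (Fin m) ℂ_[p])).transpose * BC +
              BC * (Z - (μ / 2) • 1) = (Z.transpose * BC + BC * Z) - μ • BC := by
            rw [Matrix.transpose_sub, Matrix.transpose_smul, Matrix.transpose_one, sub_mul,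
              mul_sub, smul_mul_assoc, mul_smul_comm, one_mul, mul_one]
            have h7 : μ • BC = (μ / 2) • BC + (μ / 2) • BC := by rw [← add_smul, add_halves]
            rw [h7]
            abel
          rw [this, hμ, sub_self]) h hh
      obtain ⟨a', ha'⟩ := hscal h a ha
      exact h5 a' ha')
  -- non-scalar elements do not commute with `L₀`
  have hnc : ∀ g, (∀ a : ℤ_[p], ρ g ≠ a • 1) → ∃ X ∈ L₀, A g * X ≠ X * A g := by
    intro g hg
    by_contra hcon
    push Not at hcon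
    obtain ⟨a, ha⟩ := schur hm0 (A g) (L₀ : Set (Matrix (Fin m) (Fin m) ℂ_[p])) hk0.1 hcon
    obtain ⟨a', ha'⟩ := hscal g a ha
    exact hg a' ha'
  have hcomm : ∀ g X, A g * X * A g⁻¹ - X = 0 → A g * X = X * A g := by
    intro g X h
    rw [sub_eq_zero] at h
    calc A g * X = A g * X * (A g⁻¹ * A g) := by rw [hAA', mul_one]
      _ = (A g * X * A g⁻¹) * A g := by simp only [mul_assoc]
      _ = X * A g := by rw [h]
  have hσn : ∀ a : ℤ_[p], ρ σ ≠ a • 1 := by
    intro a ha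
    have h4 : A σ - 1 = (inc p a - 1) • (1 : Matrix (Fin m) (Fin m) ℂ_[p]) := by
      rw [hA, toC_apply, ha, sub_smul, one_smul]
      congr 1
      ext i j
      by_cases hij : i = j
      · subst hij; simp
      · simp [hij]
    rw [h4] at hrk
    by_cases h5 : inc p a - 1 = 0
    · rw [h5, zero_smul, Matrix.rank_zero] at hrk
      omega
    · rw [Matrix.rank_smul_of_mem_nonZeroDivisors _ (mem_nonZeroDivisors_of_ne_zero h5),
        Matrix.rank_one, Fintype.card_fin] at hrk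
      omega
  -- the skew-symmetric part of the Lie algebra
  let L₁ : Submodule ℂ_[p] (Matrix (Fin m) (Fin m) ℂ_[p]) :=
    { carrier := {X | X.transpose * BC + BC * X = 0 ∧ X ∈ sp A N p}
      zero_mem' := ⟨by simp, Submodule.zero_mem _⟩
      add_mem' := fun hX hZ => ⟨hskadd _ _ hX.1 hZ.1, add_mem hX.2 hZ.2⟩
      smul_mem' := fun b X hX => ⟨hsksmul b X hX.1, Submodule.smul_mem _ _ hX.2⟩ }
  have hk1 := key L₁ (fun X hX => hX.1) (fun X hX Z hZ =>
      ⟨hskbr X Z hX.1 hZ.1, sp_bracket A N hp0 hp1 hNn hN hX.2 hZ.2⟩) (fun g X hX =>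
      ⟨hskconj g X hX.1, sp_conj A N hp0 hp1 hNn hN g hX.2⟩) (by
      obtain ⟨X, ⟨hX, a, ha⟩, hX2⟩ := hnc σ hσn
      refine ⟨A σ * X * A σ⁻¹ - X, ⟨?_, ?_⟩, fun h => hX2 (hcomm σ X h)⟩
      · rw [sub_eq_add_neg, ← neg_one_smul ℂ_[p] X]
        exact hskadd _ _ (hskconj σ X hX) (hsksmul _ _ hX)
      · have h4 := sub_mem (sp_conj A N hp0 hp1 hNn hN σ ha) ha
        rw [mul_add, add_mul, mul_smul_comm, mul_one, smul_mul_assoc, hAA, add_sub_add_right_eq_sub]
          at h4
        exact h4)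
  refine ⟨fun U hU => hk1.1 U fun X hX u hu => hU X hX.2 u hu, fun X hX => (hk1.2 X hX).2, ?_⟩
  intro d ν hνN hind
  set A' := dual ν with hA'
  have hJ : ∀ h ∈ N, ‖join A A' h - 1‖ ≤ ‖(p : ℂ_[p])‖ ^ 2 := fun h hh =>
    join_norm A A' h (by positivity) (hN h hh) (hνN h hh)
  let I : Submodule ℂ_[p] (Matrix (Fin m) (Fin m) ℂ_[p]) :=
    { carrier := {X | X.transpose * BC + BC * X = 0 ∧
        Matrix.fromBlocks X 0 0 0 ∈ sp (join A A') N p}
      zero_mem' := ⟨by simp, by rw [Matrix.fromBlocks_zero]; exact Submodule.zero_mem _⟩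
      add_mem' := fun {X Z} hX hZ => ⟨hskadd _ _ hX.1 hZ.1, by
        have h4 := add_mem hX.2 hZ.2
        rw [Matrix.fromBlocks_add] at h4
        simpa using h4⟩
      smul_mem' := fun b X hX => ⟨hsksmul b X hX.1, by
        have h4 := Submodule.smul_mem _ b hX.2
        rw [Matrix.fromBlocks_smul] at h4
        simpa using h4⟩ }
  have hI : ∀ X, X ∈ I ↔ X.transpose * BC + BC * X = 0 ∧
        Matrix.fromBlocks X 0 0 0 ∈ sp (join A A') N p := fun X => Iff.rfl
  have hjapp : ∀ g, join A A' g = Matrix.fromBlocks (A g) 0 0 (A' g) := fun g => rfl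
  suffices hne : ∃ X ∈ I, X ≠ 0 by
    intro X hX
    refine ((key I (fun X hX => hX.1) ?_ ?_ hne).2 X hX).2
    · intro X hX Z hZ
      refine ⟨hskbr X Z hX.1 hZ.1, ?_⟩
      have h4 := sp_bracket (join A A') N hp0 hp1 hNn hJ hX.2 hZ.2
      rw [Matrix.fromBlocks_multiply, Matrix.fromBlocks_multiply, sub_eq_add_neg,
        Matrix.fromBlocks_neg, Matrix.fromBlocks_add] at h4
      simpa [sub_eq_add_neg] using h4
    · intro g X hX
      refine ⟨hskconj g X hX.1, ?_⟩
      have h4 := sp_conj (join A A') N hp0 hp1 hNn hJ g hX.2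
      rw [hjapp, hjapp, Matrix.fromBlocks_multiply, Matrix.fromBlocks_multiply] at h4
      simpa using h4
  rcases hind with hdim | ⟨g, hg1, hg2⟩
  · -- dimensions
    by_contra hcon
    push Not at hcon
    set b : LinearMap.BilinForm ℂ_[p] (Fin m → ℂ_[p]) := Matrix.toBilin' BC with hb
    have hbapp : ∀ x y, b x y = x ⬝ᵥ BC.mulVec y := fun x y => Matrix.toBilin'_apply' BC x y
    have hnd : ∀ x, (∀ y, b x y = 0) → x = 0 := by
      intro x hx
      have h4 : Matrix.vecMul x BC = 0 := by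
        apply dotProduct_eq_zero
        intro y
        rw [← Matrix.dotProduct_mulVec, ← hbapp]
        exact hx y
      exact Matrix.eq_zero_of_vecMul_eq_zero hBC0 h4
    have hs : (∀ x y, b x y = b y x) ∨ ∀ x y, b x y = - b y x := by
      rcases hcase with ⟨h1, _⟩ | ⟨h1, _⟩
      · left
        intro x y
        rw [hbapp, hbapp, Matrix.dotProduct_mulVec, dotProduct_comm, ← Matrix.mulVec_transpose,
          h1]
      · right
        intro x y
        rw [hbapp, hbapp, Matrix.dotProduct_mulVec, dotProduct_comm, ← Matrix.mulVec_transpose,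
          h1, Matrix.neg_mulVec, dotProduct_neg]
    have h5 := ox_dim two_ne_zero b hs hnd
    rw [Module.finrank_fin_fun] at h5
    let D : Submodule ℂ_[p] (Matrix (Fin m ⊕ Fin d) (Fin m ⊕ Fin d) ℂ_[p]) :=
      { carrier := {Z | Z ∈ sp (join A A') N p ∧
          Z.toBlocks₁₁.transpose * BC + BC * Z.toBlocks₁₁ = 0}
        zero_mem' := ⟨Submodule.zero_mem _, by
          have : (0 : Matrix (Fin m ⊕ Fin d) (Fin m ⊕ Fin d) ℂ_[p]).toBlocks₁₁ = 0 := rfl
          rw [this]
          simp⟩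
        add_mem' := fun {X Z} hX hZ => ⟨add_mem hX.1 hZ.1, hskadd _ _ hX.2 hZ.2⟩
        smul_mem' := fun b X hX => ⟨Submodule.smul_mem _ _ hX.1, hsksmul b _ hX.2⟩ }
    let φ : D →ₗ[ℂ_[p]] Matrix (Fin d) (Fin d) ℂ_[p] :=
      { toFun := fun Z => Z.1.toBlocks₂₂
        map_add' := fun _ _ => rfl
        map_smul' := fun _ _ => rfl }
    have hφ : Function.Injective φ := by
      rw [← LinearMap.ker_eq_bot, LinearMap.ker_eq_bot']
      rintro ⟨Z, hZ1, hZ2⟩ hZ3
      have hZ3' : Z.toBlocks₂₂ = 0 := hZ3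
      obtain ⟨Y1, _, Y2, _, rfl⟩ := ox_join1 A A' N hp0 hp1 hN hνN hZ1
      rw [Matrix.toBlocks_fromBlocks₂₂] at hZ3'
      rw [Matrix.toBlocks_fromBlocks₁₁] at hZ2
      subst hZ3'
      have h6 := hcon Y1 ⟨hZ2, hZ1⟩
      subst h6
      apply Subtype.ext
      exact Matrix.fromBlocks_zero
    have h6 := LinearMap.finrank_le_finrank_of_injective hφ
    rw [Module.finrank_matrix, Module.finrank_self, Fintype.card_fin, mul_one] at h6
    let e : Matrix (Fin m) (Fin m) ℂ_[p] ≃ₐ[ℂ_[p]] Module.End ℂ_[p] (Fin m → ℂ_[p]) :=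
      Matrix.toLinAlgEquiv'
    have he : ∀ X v, e X v = X.mulVec v := fun X v => rfl
    have hsk : ∀ X : Matrix (Fin m) (Fin m) ℂ_[p], X.transpose * BC + BC * X = 0 ↔
        e X ∈ Skew b := by
      intro X
      rw [mem_Skew]
      constructor
      · intro h4 x y
        rw [he, he, hbapp, hbapp, ← Matrix.vecMul_transpose, ← Matrix.dotProduct_mulVec,
          Matrix.mulVec_mulVec, Matrix.mulVec_mulVec, eq_neg_of_add_eq_zero_left h4,
          Matrix.neg_mulVec, dotProduct_neg]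
      · intro h4
        apply Matrix.toBilin'.injective
        apply LinearMap.ext₂
        intro x y
        rw [map_add, map_zero]
        have h5 := h4 x y
        rw [he, he, hbapp, hbapp, ← Matrix.vecMul_transpose, ← Matrix.dotProduct_mulVec,
          Matrix.mulVec_mulVec, Matrix.mulVec_mulVec] at h5
        rw [LinearMap.add_apply, LinearMap.add_apply, Matrix.toBilin'_apply',
          Matrix.toBilin'_apply', h5]
        simp
    let ψ : D →ₗ[ℂ_[p]] Skew b :=
      { toFun := fun Z => ⟨e Z.1.toBlocks₁₁, (hsk _).mp Z.2.2⟩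
        map_add' := fun X Z => Subtype.ext (by
          have : (X + Z).1.toBlocks₁₁ = X.1.toBlocks₁₁ + Z.1.toBlocks₁₁ := rfl
          change e (X + Z).1.toBlocks₁₁ = e X.1.toBlocks₁₁ + e Z.1.toBlocks₁₁
          rw [this, map_add])
        map_smul' := fun a Z => Subtype.ext (by
          have : (a • Z).1.toBlocks₁₁ = a • Z.1.toBlocks₁₁ := rfl
          change e (a • Z).1.toBlocks₁₁ = a • e Z.1.toBlocks₁₁
          rw [this, map_smul]) }
    have hψ : Function.Surjective ψ := by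
      rintro ⟨T, hT⟩
      have h7 : e (e.symm T) = T := e.apply_symm_apply T
      have h8 : (e.symm T).transpose * BC + BC * (e.symm T) = 0 := by
        rw [hsk, h7]
        exact hT
      obtain ⟨Z, hZ⟩ := ox_join2 A A' N hp0 hp1 hN hνN (hk1.2 _ h8).2
      refine ⟨⟨Matrix.fromBlocks (e.symm T) 0 0 Z, hZ, ?_⟩, ?_⟩
      · rw [Matrix.toBlocks_fromBlocks₁₁]
        exact h8
      · apply Subtype.ext
        change e (Matrix.fromBlocks (e.symm T) 0 0 Z).toBlocks₁₁ = T
        rw [Matrix.toBlocks_fromBlocks₁₁, h7]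
    have h7 := LinearMap.finrank_le_finrank_of_surjective hψ
    have h8 : d * d = d ^ 2 := by ring
    rw [h8] at h6
    omega
  · -- an element in the kernel of `ν`
    obtain ⟨X, ⟨hX, a, ha⟩, hX2⟩ := hnc g hg2
    have hνi : ν g⁻¹ = 1 := by
      have h4 : ν g * ν g⁻¹ = 1 := by rw [← map_mul, mul_inv_cancel, map_one]
      rwa [hg1, one_mul] at h4
    have hd1 : A' g = 1 := by
      change (ν g⁻¹).transpose = 1
      rw [hνi, Matrix.transpose_one]
    have hd2 : A' g⁻¹ = 1 := by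
      change (ν g⁻¹⁻¹).transpose = 1
      rw [inv_inv, hg1, Matrix.transpose_one]
    obtain ⟨Z, hZ⟩ := ox_join2 A A' N hp0 hp1 hN hνN ha
    refine ⟨A g * X * A g⁻¹ - X, ⟨?_, ?_⟩, fun h => hX2 (hcomm g X h)⟩
    · rw [sub_eq_add_neg, ← neg_one_smul ℂ_[p] X]
      exact hskadd _ _ (hskconj g X hX) (hsksmul _ _ hX)
    · have h4 := sub_mem (sp_conj (join A A') N hp0 hp1 hNn hJ g hZ) hZ
      rw [hjapp, hjapp, hd1, hd2, Matrix.fromBlocks_multiply, Matrix.fromBlocks_multiply,
        sub_eq_add_neg, Matrix.fromBlocks_neg, Matrix.fromBlocks_add] at h4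
      have h5 : A g * (X + a • 1) * A g⁻¹ + -(X + a • 1) = A g * X * A g⁻¹ - X := by
        rw [mul_add, add_mul, mul_smul_comm, mul_one, smul_mul_assoc, hAA]
        abel
      have h6 : A g * (X + a • 1) * A g⁻¹ + (-(a • 1) + -X) = A g * X * A g⁻¹ - X := by
        rw [← h5]
        abel
      simpa [h6] using h4

end Pool.Agent.OX
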