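import Pool.Agent.Lib_helper44.OF.F1
import Pool.Agent.Lib_helper44.OX.Defs

/-!
# Block X5: invariants of the orthogonal Lie algebra and isometries
-/

set_option autoImplicit false

namespace Pool.Agent.OX

open Module Pool.Agent.OM

/-! ### rational functions on words -/

section words

variable {ι : Type} [Fintype ι] [DecidableEq ι] {N : ℕ}

theorem x5_sum_swap (φ : (ι → Fin N) → ℚ) (i j : ι) :
    ∑ c : ι → Fin N, φ (c ∘ Equiv.swap i j) = ∑ c : ι → Fin N, φ c := by
  refine Fintype.sum_equiv (Equiv.arrowCongr (Equiv.swap i j) (Equiv.refl (Fin N))) _ _ fun c => ?_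
  congr 1

theorem x5_energy (φ : (ι → Fin N) → ℚ)
    (hD : ∀ c, ∑ i0, (((N : ℚ) - 1) * φ c + ∑ i ∈ Finset.univ.erase i0, φ (c ∘ Equiv.swap i0 i)) = 0) :
    ∑ i0 : ι, ∑ i ∈ Finset.univ.erase i0, ∑ c : ι → Fin N, (φ c + φ (c ∘ Equiv.swap i0 i)) ^ 2 =
      2 * (Fintype.card ι : ℚ) * ((Fintype.card ι : ℚ) - N) * ∑ c : ι → Fin N, φ c ^ 2 := by
  have h1 : ∀ i0 i : ι, ∑ c : ι → Fin N, (φ c + φ (c ∘ Equiv.swap i0 i)) ^ 2 =
      2 * (∑ c : ι → Fin N, φ c ^ 2) + 2 * ∑ c : ι → Fin N, φ c * φ (c ∘ Equiv.swap i0 i) := by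
    intro i0 i
    have h2 := x5_sum_swap (fun c => φ c ^ 2) i0 i
    have h3 : ∀ c : ι → Fin N, (φ c + φ (c ∘ Equiv.swap i0 i)) ^ 2 = φ c ^ 2 +
        φ (c ∘ Equiv.swap i0 i) ^ 2 + 2 * (φ c * φ (c ∘ Equiv.swap i0 i)) := fun c => by ring
    simp_rw [h3]
    rw [Finset.sum_add_distrib, Finset.sum_add_distrib, h2, ← Finset.mul_sum]
    ring
  have h4 : ∑ c : ι → Fin N, φ c * ∑ i0, (((N : ℚ) - 1) * φ c +
      ∑ i ∈ Finset.univ.erase i0, φ (c ∘ Equiv.swap i0 i)) = 0 := by
    refine Finset.sum_eq_zero fun c _ => ?_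
    rw [hD c, mul_zero]
  have h5 : ∑ c : ι → Fin N, φ c * ∑ i0, (((N : ℚ) - 1) * φ c +
      ∑ i ∈ Finset.univ.erase i0, φ (c ∘ Equiv.swap i0 i)) =
      ∑ i0 : ι, (((N : ℚ) - 1) * (∑ c : ι → Fin N, φ c ^ 2) +
        ∑ i ∈ Finset.univ.erase i0, ∑ c : ι → Fin N, φ c * φ (c ∘ Equiv.swap i0 i)) := by
    simp_rw [Finset.mul_sum]
    rw [Finset.sum_comm]
    refine Finset.sum_congr rfl fun i0 _ => ?_
    simp_rw [mul_add]
    rw [Finset.sum_add_distrib]
    congr 1
    · refine Finset.sum_congr rfl fun c _ => ?_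
      ring
    · simp_rw [Finset.mul_sum]
      rw [Finset.sum_comm]
  rw [h5, Finset.sum_add_distrib, Finset.sum_const, Finset.card_univ, nsmul_eq_mul] at h4
  simp_rw [h1]
  simp_rw [Finset.sum_add_distrib, Finset.sum_const, ← Finset.mul_sum]
  have h6 : ∀ i0 : ι, ((Finset.univ.erase i0).card : ℚ) = (Fintype.card ι : ℚ) - 1 := by
    intro i0
    have h7 : 1 ≤ Fintype.card ι := Fintype.card_pos_iff.2 ⟨i0⟩
    rw [Finset.card_erase_of_mem (Finset.mem_univ _), Finset.card_univ, Nat.cast_sub h7,
      Nat.cast_one]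
  simp_rw [nsmul_eq_mul, h6]
  rw [Finset.sum_const, Finset.card_univ, nsmul_eq_mul]
  linear_combination 2 * h4

theorem x5_alt (φ : (ι → Fin N) → ℚ)
    (hD : ∀ c, ∑ i0, (((N : ℚ) - 1) * φ c + ∑ i ∈ Finset.univ.erase i0, φ (c ∘ Equiv.swap i0 i)) = 0)
    (hN : Fintype.card ι ≤ N) {i j : ι} (hij : i ≠ j) (c : ι → Fin N) :
    φ (c ∘ Equiv.swap i j) = - φ c := by
  have h1 := x5_energy φ hD
  have h2 : ∑ i0 : ι, ∑ i ∈ Finset.univ.erase i0, ∑ c : ι → Fin N,
      (φ c + φ (c ∘ Equiv.swap i0 i)) ^ 2 = 0 := by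
    refine le_antisymm ?_ ?_
    · rw [h1]
      have h3 : ((Fintype.card ι : ℚ) - N) ≤ 0 := by
        have : (Fintype.card ι : ℚ) ≤ N := by exact_mod_cast hN
        linarith
      have h4 : 0 ≤ ∑ c : ι → Fin N, φ c ^ 2 := Finset.sum_nonneg fun c _ => sq_nonneg _
      have h5 : (0 : ℚ) ≤ 2 * (Fintype.card ι : ℚ) := by positivity
      nlinarith [mul_nonneg h5 h4]
    · exact Finset.sum_nonneg fun _ _ => Finset.sum_nonneg fun _ _ =>
        Finset.sum_nonneg fun _ _ => sq_nonneg _
  rw [Finset.sum_eq_zero_iff_of_nonneg (fun _ _ => Finset.sum_nonneg fun _ _ =>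
        Finset.sum_nonneg fun _ _ => sq_nonneg _)] at h2
  have h3 := h2 i (Finset.mem_univ _)
  rw [Finset.sum_eq_zero_iff_of_nonneg (fun _ _ => Finset.sum_nonneg fun _ _ => sq_nonneg _)] at h3
  have h4 := h3 j (Finset.mem_erase.2 ⟨hij.symm, Finset.mem_univ _⟩)
  rw [Finset.sum_eq_zero_iff_of_nonneg (fun _ _ => sq_nonneg _)] at h4
  have h5 := pow_eq_zero_iff (two_ne_zero) |>.1 (h4 c (Finset.mem_univ _))
  linarith

theorem x5_small (φ : (ι → Fin N) → ℚ)
    (hD : ∀ c, ∑ i0, (((N : ℚ) - 1) * φ c + ∑ i ∈ Finset.univ.erase i0, φ (c ∘ Equiv.swap i0 i)) = 0)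
    (hN : Fintype.card ι < N) [Nonempty ι] (c : ι → Fin N) : φ c = 0 := by
  have h1 := x5_energy φ hD
  have h0 : (0 : ℚ) < (Fintype.card ι : ℚ) := by exact_mod_cast Fintype.card_pos
  have h3 : ((Fintype.card ι : ℚ) - N) < 0 := by
    have : (Fintype.card ι : ℚ) < N := by exact_mod_cast hN
    linarith
  have h4 : 0 ≤ ∑ c : ι → Fin N, φ c ^ 2 := Finset.sum_nonneg fun c _ => sq_nonneg _
  have h6 : 0 ≤ 2 * (Fintype.card ι : ℚ) * ((Fintype.card ι : ℚ) - N) *
      ∑ c : ι → Fin N, φ c ^ 2 := by
    rw [← h1]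
    exact Finset.sum_nonneg fun _ _ => Finset.sum_nonneg fun _ _ =>
        Finset.sum_nonneg fun _ _ => sq_nonneg _
  have h7 : ∑ c : ι → Fin N, φ c ^ 2 = 0 := by
    refine le_antisymm ?_ h4
    by_contra hcon
    push Not at hcon
    have : 2 * (Fintype.card ι : ℚ) * ((Fintype.card ι : ℚ) - N) *
      (∑ c : ι → Fin N, φ c ^ 2) < 0 := by
      have h8 : 2 * (Fintype.card ι : ℚ) * ((Fintype.card ι : ℚ) - N) < 0 := by nlinarith
      exact mul_neg_of_neg_of_pos h8 hcon
    linarith
  rw [Finset.sum_eq_zero_iff_of_nonneg (fun _ _ => sq_nonneg _)] at h7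
  exact pow_eq_zero_iff (two_ne_zero) |>.1 (h7 c (Finset.mem_univ _))

/-- replace one letter `a` by `b` -/
def x5_G (a b : Fin N) (φ : (ι → Fin N) → ℚ) (c : ι → Fin N) : ℚ :=
  ∑ i, if c i = a then φ (Function.update c i b) else 0

theorem x5_adj (a b : Fin N) (φ ψ : (ι → Fin N) → ℚ) :
    ∑ c, φ c * x5_G a b ψ c = ∑ c, x5_G b a φ c * ψ c := by
  unfold x5_G
  simp_rw [Finset.mul_sum, Finset.sum_mul]
  rw [Finset.sum_comm, Finset.sum_comm (s := Finset.univ) (t := Finset.univ)
    (f := fun c i => (if c i = b then φ (Function.update c i a) else 0) * ψ c)]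
  refine Finset.sum_congr rfl fun i _ => ?_
  simp_rw [mul_ite, mul_zero, ite_mul, zero_mul]
  rw [← Finset.sum_filter, ← Finset.sum_filter]
  refine Finset.sum_nbij' (fun c => Function.update c i b) (fun c => Function.update c i a)
    ?_ ?_ ?_ ?_ ?_
  · intro c _
    simp
  · intro c _
    simp
  · intro c hc
    have : c i = a := (Finset.mem_filter.1 hc).2
    rw [Function.update_idem, ← this, Function.update_eq_self]
  · intro c hc
    have : c i = b := (Finset.mem_filter.1 hc).2
    rw [Function.update_idem, ← this, Function.update_eq_self]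
  · intro c hc
    have : c i = a := (Finset.mem_filter.1 hc).2
    have h2 : Function.update (Function.update c i b) i a = c := by
      rw [Function.update_idem, ← this, Function.update_eq_self]
    simp only [h2]

omit [Fintype ι] in
theorem x5_upd_swap (c : ι → Fin N) {i j : ι} (hij : j ≠ i) :
    Function.update (Function.update c i (c j)) j (c i) = c ∘ Equiv.swap i j := by
  funext x
  by_cases h1 : x = j
  · subst h1
    simp
  · by_cases h2 : x = i
    · subst h2
      rw [Function.update_of_ne h1, Function.update_self]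
      simp
    · rw [Function.update_of_ne h1, Function.update_of_ne h2, Function.comp_apply,
        Equiv.swap_apply_of_ne_of_ne h2 h1]

theorem x5_GG (φ : (ι → Fin N) → ℚ) (c : ι → Fin N) :
    ∑ a, ∑ b, x5_G a b (x5_G b a φ) c = (Fintype.card ι : ℚ) * φ c +
      ∑ i0, (((N : ℚ) - 1) * φ c + ∑ i ∈ Finset.univ.erase i0, φ (c ∘ Equiv.swap i0 i)) := by
  have h1 : ∑ a, ∑ b, x5_G a b (x5_G b a φ) c = ∑ i, ∑ b, ∑ j,
      (if Function.update c i b j = b then φ (Function.update (Function.update c i b) j (c i))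
        else 0) := by
    unfold x5_G
    have h2 : ∀ a : Fin N, ∑ b, ∑ i, (if c i = a then
        (∑ j, if Function.update c i b j = b then φ (Function.update (Function.update c i b) j a)
          else 0) else 0) = ∑ i, (if c i = a then ∑ b, ∑ j, (if Function.update c i b j = b then
            φ (Function.update (Function.update c i b) j a) else 0) else 0) := by
      intro a
      rw [Finset.sum_comm]
      refine Finset.sum_congr rfl fun i _ => ?_
      split_ifs with h
      · rfl
      · simp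
    simp_rw [h2]
    rw [Finset.sum_comm]
    refine Finset.sum_congr rfl fun i _ => ?_
    rw [Finset.sum_ite_eq]
    simp
  rw [h1]
  have h3 : ∀ i, ∑ b, ∑ j, (if Function.update c i b j = b then
      φ (Function.update (Function.update c i b) j (c i)) else 0) =
      (N : ℚ) * φ c + ∑ j ∈ Finset.univ.erase i, φ (c ∘ Equiv.swap i j) := by
    intro i
    rw [Finset.sum_comm, ← Finset.add_sum_erase Finset.univ _ (Finset.mem_univ i)]
    congr 1
    · simp
    · refine Finset.sum_congr rfl fun j hj => ?_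
      have hji : j ≠ i := Finset.ne_of_mem_erase hj
      have h4 : ∀ b, (if Function.update c i b j = b then
          φ (Function.update (Function.update c i b) j (c i)) else 0) =
          if c j = b then φ (Function.update (Function.update c i b) j (c i)) else 0 := by
        intro b
        rw [Function.update_of_ne hji]
      simp_rw [h4]
      rw [Finset.sum_ite_eq, if_pos (Finset.mem_univ _), x5_upd_swap c hji]
  simp_rw [h3]
  rw [Finset.sum_add_distrib, Finset.sum_add_distrib, Finset.sum_const, Finset.sum_const,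
    Finset.card_univ, nsmul_eq_mul, nsmul_eq_mul]
  ring

theorem x5_Gaa (a : Fin N) (φ : (ι → Fin N) → ℚ) (c : ι → Fin N) :
    x5_G a a φ c = ((Finset.univ.filter fun i => c i = a).card : ℚ) * φ c := by
  unfold x5_G
  rw [← Finset.sum_filter, Finset.sum_congr rfl (g := fun _ => φ c), Finset.sum_const,
    nsmul_eq_mul]
  intro i hi
  have : c i = a := (Finset.mem_filter.1 hi).2
  rw [← this, Function.update_eq_self]

theorem x5_big (φ : (ι → Fin N) → ℚ)
    (hD : ∀ c, ∑ i0, (((N : ℚ) - 1) * φ c + ∑ i ∈ Finset.univ.erase i0, φ (c ∘ Equiv.swap i0 i)) = 0)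
    (hN : N < Fintype.card ι) (c : ι → Fin N) : φ c = 0 := by
  set k : (ι → Fin N) → Fin N → ℕ := fun c a => (Finset.univ.filter fun i => c i = a).card with hk
  have hk1 : ∀ c, ∑ a, k c a = Fintype.card ι := by
    intro c
    rw [← Finset.card_univ, Finset.card_eq_sum_card_fiberwise (f := c) (t := Finset.univ)]
    intro i _
    simp
  have h1 : ∀ c, ∑ a, ∑ b, x5_G a b (x5_G b a φ) c = (Fintype.card ι : ℚ) * φ c := by
    intro c
    rw [x5_GG, hD c, add_zero]
  have h2 : ∑ a, ∑ b, ∑ c, (x5_G b a φ c) ^ 2 = (Fintype.card ι : ℚ) * ∑ c, φ c ^ 2 := by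
    have h3 : ∑ c, φ c * ∑ a, ∑ b, x5_G a b (x5_G b a φ) c =
        (Fintype.card ι : ℚ) * ∑ c, φ c ^ 2 := by
      rw [Finset.mul_sum]
      refine Finset.sum_congr rfl fun c _ => ?_
      rw [h1]
      ring
    rw [← h3]
    simp_rw [Finset.mul_sum]
    rw [Finset.sum_comm (s := (Finset.univ : Finset (ι → Fin N)))]
    refine Finset.sum_congr rfl fun a _ => ?_
    rw [Finset.sum_comm (s := (Finset.univ : Finset (ι → Fin N)))]
    refine Finset.sum_congr rfl fun b _ => ?_
    rw [x5_adj]
    refine Finset.sum_congr rfl fun c _ => ?_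
    ring
  have h4 : ∑ a, ∑ c, (x5_G a a φ c) ^ 2 ≤ ∑ a, ∑ b, ∑ c, (x5_G b a φ c) ^ 2 := by
    refine Finset.sum_le_sum fun a _ => ?_
    exact Finset.single_le_sum (f := fun b => ∑ c, (x5_G b a φ c) ^ 2)
      (fun b _ => Finset.sum_nonneg fun c _ => sq_nonneg _) (Finset.mem_univ a)
  have h5 : ∑ a, ∑ c, (x5_G a a φ c) ^ 2 = ∑ c, ((∑ a, k c a ^ 2 : ℕ) : ℚ) * φ c ^ 2 := by
    rw [Finset.sum_comm]
    refine Finset.sum_congr rfl fun c _ => ?_
    push_cast
    rw [Finset.sum_mul]
    refine Finset.sum_congr rfl fun a _ => ?_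
    rw [x5_Gaa]
    ring
  rw [h2, h5, Finset.mul_sum, ← sub_nonneg, ← Finset.sum_sub_distrib] at h4
  have h6 : ∀ c : ι → Fin N, Fintype.card ι + 1 ≤ ∑ a, k c a ^ 2 := by
    intro c
    obtain ⟨i, j, hij, hcij⟩ := Fintype.exists_ne_map_eq_of_card_lt c (by simpa using hN)
    have h7 : 2 ≤ k c (c i) := by
      have : ({i, j} : Finset ι) ⊆ Finset.univ.filter fun x => c x = c i := by
        intro x hx
        rcases Finset.mem_insert.1 hx with rfl | hx
        · simp
        · rw [Finset.mem_singleton.1 hx]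
          simp [hcij]
      calc 2 = ({i, j} : Finset ι).card := (Finset.card_pair hij).symm
        _ ≤ _ := Finset.card_le_card this
    have h8 : ∑ a, k c a < ∑ a, k c a ^ 2 := by
      refine Finset.sum_lt_sum (fun a _ => ?_) ⟨c i, Finset.mem_univ _, ?_⟩
      · exact Nat.le_self_pow two_ne_zero _
      · nlinarith
    rw [hk1] at h8
    exact h8
  have h9 : ∑ c : ι → Fin N, φ c ^ 2 ≤ 0 := by
    have h10 : ∑ c : ι → Fin N, ((Fintype.card ι : ℚ) * φ c ^ 2 -
        ((∑ a, k c a ^ 2 : ℕ) : ℚ) * φ c ^ 2) ≤ ∑ c : ι → Fin N, -(φ c ^ 2) := by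
      refine Finset.sum_le_sum fun c _ => ?_
      have h11 : (Fintype.card ι : ℚ) + 1 ≤ ((∑ a, k c a ^ 2 : ℕ) : ℚ) := by exact_mod_cast h6 c
      nlinarith [sq_nonneg (φ c)]
    rw [Finset.sum_neg_distrib] at h10
    linarith
  have h12 : ∑ c : ι → Fin N, φ c ^ 2 = 0 :=
    le_antisymm h9 (Finset.sum_nonneg fun c _ => sq_nonneg _)
  rw [Finset.sum_eq_zero_iff_of_nonneg (fun _ _ => sq_nonneg _)] at h12
  exact pow_eq_zero_iff (two_ne_zero) |>.1 (h12 c (Finset.mem_univ _))

end words

/-! ### multilinear maps -/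

section maps

variable {E V : Type*} [Field E] [CharZero E] [AddCommGroup V] [Module E V]
  [FiniteDimensional E V] {ι : Type} [Fintype ι] [DecidableEq ι]

omit [FiniteDimensional E V] in
theorem x5_lam (f : MultilinearMap E (fun _ : ι => V) E) {N : ℕ} (e : Fin N → V)
    (hD : ∀ v, ∑ i0, (((N : E) - 1) * f v +
      ∑ i ∈ Finset.univ.erase i0, f (v ∘ Equiv.swap i0 i)) = 0) (l : E →ₗ[ℚ] ℚ)
    (c : ι → Fin N) : ∑ i0, (((N : ℚ) - 1) * l (f (e ∘ c)) +
      ∑ i ∈ Finset.univ.erase i0, l (f (e ∘ (c ∘ Equiv.swap i0 i)))) = 0 := by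
  have h1 := congrArg l (hD (e ∘ c))
  rw [map_zero, map_sum] at h1
  rw [← h1]
  refine Finset.sum_congr rfl fun i0 _ => ?_
  rw [map_add, map_sum]
  congr 1
  have h2 : ((N : E) - 1) * f (e ∘ c) = ((N : ℚ) - 1) • f (e ∘ c) := by
    rw [Algebra.smul_def, map_sub, map_natCast, map_one]
  rw [h2, map_smul, smul_eq_mul]

theorem x5_K0 (f : MultilinearMap E (fun _ : ι => V) E)
    (hD : ∀ v, ∑ i0, (((finrank E V : E) - 1) * f v +
      ∑ i ∈ Finset.univ.erase i0, f (v ∘ Equiv.swap i0 i)) = 0) [Nonempty ι]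
    (hN : Fintype.card ι ≠ finrank E V) : f = 0 := by
  refine Basis.ext_multilinear (fun _ => finBasis E V) fun c => ?_
  have h1 := x5_lam f (finBasis E V) hD
  rw [zero_apply]
  rw [← Module.forall_dual_apply_eq_zero_iff ℚ]
  intro l
  have h2 : l (f ((finBasis E V) ∘ c)) = 0 := by
    rcases lt_or_gt_of_ne hN with h | h
    · exact x5_small (fun c => l (f ((finBasis E V) ∘ c))) (h1 l) h c
    · exact x5_big (fun c => l (f ((finBasis E V) ∘ c))) (h1 l) h c
  exact h2

theorem x5_K1 (f : MultilinearMap E (fun _ : ι => V) E)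
    (hD : ∀ v, ∑ i0, (((finrank E V : E) - 1) * f v +
      ∑ i ∈ Finset.univ.erase i0, f (v ∘ Equiv.swap i0 i)) = 0)
    (hN : Fintype.card ι = finrank E V) {i j : ι} (hij : i ≠ j) (v : ι → V) :
    f (v ∘ Equiv.swap i j) = - f v := by
  have h0 : f.domDomCongr (Equiv.swap i j) + f = 0 := by
    refine Basis.ext_multilinear (fun _ => finBasis E V) fun c => ?_
    have h1 := x5_lam f (finBasis E V) hD
    rw [zero_apply]
    rw [← Module.forall_dual_apply_eq_zero_iff ℚ]
    intro l
    have h2 := x5_alt (fun c => l (f ((finBasis E V) ∘ c))) (h1 l) hN.le hij c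
    rw [add_apply, map_add, MultilinearMap.domDomCongr_apply]
    have h3 : l (f fun k => (finBasis E V) (c (Equiv.swap i j k))) =
      - l (f ((finBasis E V) ∘ c)) := h2
    rw [h3]
    exact neg_add_cancel _
  have h1 := congrArg (fun m => m v) h0
  simp only [add_apply, MultilinearMap.domDomCongr_apply,
    zero_apply] at h1
  exact eq_neg_of_add_eq_zero_left h1

/-- the alternating map -/
def x5_A (f : MultilinearMap E (fun _ : ι => V) E)
    (h : ∀ i j : ι, i ≠ j → ∀ v, f (v ∘ Equiv.swap i j) = - f v) : V [⋀^ι]→ₗ[E] E :=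
  { f with
    map_eq_zero_of_eq' := by
      intro v i j hv hij
      have h1 := h i j hij v
      have h2 : v ∘ Equiv.swap i j = v := by
        funext x
        by_cases hx : x = i
        · subst hx
          simp [hv]
        · by_cases hx' : x = j
          · subst hx'
            simp [hv]
          · rw [Function.comp_apply, Equiv.swap_apply_of_ne_of_ne hx hx']
      rw [h2] at h1
      have h3 : (2 : E) * f v = 0 := by linear_combination h1
      rcases mul_eq_zero.1 h3 with h4 | h4
      · exact absurd h4 two_ne_zero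
      · exact h4 }

omit [CharZero E] in
theorem x5_det (A : V [⋀^ι]→ₗ[E] E) (hN : Fintype.card ι = finrank E V) (g : Module.End E V)
    (v : ι → V) : A (fun i => g (v i)) = LinearMap.det g * A v := by
  have e : Basis ι E V := (finBasis E V).reindex (Fintype.equivFinOfCardEq hN).symm
  rw [AlternatingMap.eq_smul_basis_det e A, AlternatingMap.smul_apply, AlternatingMap.smul_apply]
  have h1 : e.det (fun i => g (v i)) = LinearMap.det g * e.det v := Basis.det_comp e g v
  rw [h1, smul_eq_mul, smul_eq_mul]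
  ring

/-! ### isometries -/

variable (b : LinearMap.BilinForm E V)

omit [CharZero E] in
theorem x5_surj (hn : ∀ x, (∀ y, b x y = 0) → x = 0) (g : Module.End E V)
    (hg : ∀ x y, b (g x) (g y) = b x y) : Function.Surjective g := by
  rw [← LinearMap.injective_iff_surjective, injective_iff_map_eq_zero]
  intro x hx
  refine hn x fun y => ?_
  rw [← hg, hx, map_zero, LinearMap.zero_apply]

omit [CharZero E] [FiniteDimensional E V] in
theorem x5_wedge (g : Module.End E V) (hg : ∀ x y, b (g x) (g y) = b x y) (x y u : V) :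
    g (wedge b x y u) = wedge b (g x) (g y) (g u) := by
  rw [f1_wedge, f1_wedge, hg, hg, map_sub, map_smul, map_smul]

/-- composition with an operator in every variable -/
def x5_c (g : Module.End E V) (f : MultilinearMap E (fun _ : ι => V) E) :
    MultilinearMap E (fun _ : ι => V) E := f.compLinearMap fun _ => g

omit [CharZero E] [FiniteDimensional E V] [Fintype ι] [DecidableEq ι] in
theorem x5_c_apply (g : Module.End E V) (f : MultilinearMap E (fun _ : ι => V) E) (v : ι → V) :
    x5_c g f v = f (fun i => g (v i)) := rfl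

omit [CharZero E] [FiniteDimensional E V] [Fintype ι] in
theorem x5_upd (g : Module.End E V) (v : ι → V) (i : ι) (w : V) :
    (fun k => g (Function.update v i w k)) = Function.update (fun k => g (v k)) i (g w) := by
  funext k
  by_cases h : k = i
  · subst h
    simp
  · simp [h]

omit [CharZero E] [FiniteDimensional E V] in
theorem x5_c_inv (g : Module.End E V) (hg : ∀ x y, b (g x) (g y) = b x y)
    (f : MultilinearMap E (fun _ : ι => V) E) (hf : f1_Inv b f) : f1_Inv b (x5_c g f) := by
  intro x y v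
  have h := hf (g x) (g y) (fun k => g (v k))
  rw [← h]
  refine Finset.sum_congr rfl fun i _ => ?_
  rw [x5_c_apply, x5_upd, x5_wedge b g hg]

omit [CharZero E] [FiniteDimensional E V] in
theorem x5_add_inv {f h : MultilinearMap E (fun _ : ι => V) E} (hf : f1_Inv b f)
    (hh : f1_Inv b h) : f1_Inv b (f + h) := by
  intro x y v
  simp only [add_apply]
  rw [Finset.sum_add_distrib, hf, hh, add_zero]

omit [CharZero E] [FiniteDimensional E V] in
theorem x5_sub_inv {f h : MultilinearMap E (fun _ : ι => V) E} (hf : f1_Inv b f)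
    (hh : f1_Inv b h) : f1_Inv b (f - h) := by
  intro x y v
  simp only [sub_apply]
  rw [Finset.sum_sub_distrib, hf, hh, sub_zero]

omit [CharZero E] [FiniteDimensional E V] [Fintype ι] in
theorem x5_C_add {N : ℕ} (e e' : Fin N → V) {i0 j : ι} (hij : i0 ≠ j)
    (f h : MultilinearMap E (fun _ : ι => V) E) :
    f1_C e e' i0 j (f + h) = f1_C e e' i0 j f + f1_C e e' i0 j h := by
  ext w
  let U : ι → V := fun z => if h : z ≠ i0 ∧ z ≠ j then w ⟨z, h⟩ else 0
  have hU : ∀ z : {x : ι // x ≠ i0 ∧ x ≠ j}, U z.1 = w z := fun z => by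
    simp only [U]
    rw [dif_pos z.2]
  rw [add_apply, f1_C_apply e e' hij _ w U hU, f1_C_apply e e' hij _ w U hU,
    f1_C_apply e e' hij _ w U hU, ← Finset.sum_add_distrib]
  rfl

omit [CharZero E] [FiniteDimensional E V] [Fintype ι] in
theorem x5_C_sub {N : ℕ} (e e' : Fin N → V) {i0 j : ι} (hij : i0 ≠ j)
    (f h : MultilinearMap E (fun _ : ι => V) E) :
    f1_C e e' i0 j (f - h) = f1_C e e' i0 j f - f1_C e e' i0 j h := by
  ext w
  let U : ι → V := fun z => if h : z ≠ i0 ∧ z ≠ j then w ⟨z, h⟩ else 0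
  have hU : ∀ z : {x : ι // x ≠ i0 ∧ x ≠ j}, U z.1 = w z := fun z => by
    simp only [U]
    rw [dif_pos z.2]
  rw [sub_apply, f1_C_apply e e' hij _ w U hU, f1_C_apply e e' hij _ w U hU,
    f1_C_apply e e' hij _ w U hU, ← Finset.sum_sub_distrib]
  rfl

omit [CharZero E] [Fintype ι] in
theorem x5_C_c (hs : ∀ x y, b x y = b y x) (hn : ∀ x, (∀ y, b x y = 0) → x = 0)
    {N : ℕ} (e e' : Fin N → V) (he : ∀ v, ∑ k, b (e' k) v • e k = v)
    (he' : ∀ v, ∑ k, b (e k) v • e' k = v) (g : Module.End E V)
    (hg : ∀ x y, b (g x) (g y) = b x y) {i0 j : ι} (hij : i0 ≠ j)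
    (f : MultilinearMap E (fun _ : ι => V) E) :
    f1_C e e' i0 j (x5_c g f) = x5_c g (f1_C e e' i0 j f) := by
  ext w
  let U : ι → V := fun z => if h : z ≠ i0 ∧ z ≠ j then w ⟨z, h⟩ else 0
  have hU : ∀ z : {x : ι // x ≠ i0 ∧ x ≠ j}, U z.1 = w z := fun z => by
    simp only [U]
    rw [dif_pos z.2]
  have hU' : ∀ z : {x : ι // x ≠ i0 ∧ x ≠ j}, (fun k => g (U k)) z.1 = (fun i => g (w i)) z :=
    fun z => by simp only [hU]
  rw [f1_C_apply e e' hij _ w U hU, x5_c_apply, f1_C_apply e e' hij f _ (fun k => g (U k)) hU']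
  simp only [x5_c_apply, x5_upd]
  set T : ι → V := fun k => g (U k) with hT
  -- expand `g e_k`
  have h1 : ∀ k, f (Function.update (Function.update T i0 (g (e k))) j (g (e' k))) =
      ∑ l, b (e' l) (g (e k)) * f (Function.update (Function.update T i0 (e l)) j (g (e' k))) := by
    intro k
    have h2 : ∀ a c : V, f (Function.update (Function.update T i0 a) j c) =
        f (Function.update (Function.update T j c) i0 a) := by
      intro a c
      rw [Function.update_comm hij]
    simp_rw [h2]
    rw [f1_lin, he]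
  simp_rw [h1]
  rw [Finset.sum_comm]
  refine Finset.sum_congr rfl fun l _ => ?_
  rw [f1_lin]
  congr 2
  obtain ⟨w', hw'⟩ := x5_surj b hn g hg (e' l)
  have h3 : ∑ k, b (e' l) (g (e k)) • g (e' k) = g (∑ k, b (e k) w' • e' k) := by
    rw [map_sum]
    refine Finset.sum_congr rfl fun k _ => ?_
    rw [map_smul, ← hw', hg, hs]
  rw [h3, he', hw']

/-! ### determinant one -/

theorem x5_so (hs : ∀ x y, b x y = b y x) (hn : ∀ x, (∀ y, b x y = 0) → x = 0)
    (g : Module.End E V) (hg : ∀ x y, b (g x) (g y) = b x y) (hd : LinearMap.det g = 1) :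
    ∀ (n : ℕ) (ι : Type) [Fintype ι] [DecidableEq ι], Fintype.card ι = n →
      ∀ f : MultilinearMap E (fun _ : ι => V) E, f1_Inv b f → x5_c g f = f := by
  intro n
  induction n using Nat.strong_induction_on with
  | _ n ih =>
  intro ι _ _ hcard f hf
  rcases isEmpty_or_nonempty ι with hι | hι
  · ext v
    rw [x5_c_apply]
    congr 1
    funext i
    exact isEmptyElim i
  · obtain ⟨e, e', he, he', htr⟩ := f1_dual b hs hn
    set h : MultilinearMap E (fun _ : ι => V) E := x5_c g f - f with hh
    have hinv : f1_Inv b h := x5_sub_inv b (x5_c_inv b g hg f hf) hf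
    have hC : ∀ i0 i : ι, i0 ≠ i → f1_C e e' i0 i h = 0 := by
      intro i0 i hne
      have hc : Fintype.card {x : ι // x ≠ i0 ∧ x ≠ i} < n := by
        rw [← hcard]
        exact Fintype.card_subtype_lt (x := i0) (by simp)
      have h1 := ih _ hc _ rfl (f1_C e e' i0 i f) (f1_C_inv b hs e e' he he' hne f hf)
      rw [hh, x5_C_sub e e' hne, x5_C_c b hs hn e e' he he' g hg hne, h1, sub_self]
    have hD : ∀ v, ∑ i0, (((finrank E V : E) - 1) * h v +
        ∑ i ∈ Finset.univ.erase i0, h (v ∘ Equiv.swap i0 i)) = 0 := by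
      intro v
      refine Finset.sum_eq_zero fun i0 _ => ?_
      rw [f1_key b hs e e' he he' htr i0 h hinv v]
      refine Finset.sum_eq_zero fun i hi => ?_
      rw [hC i0 i (Finset.ne_of_mem_erase hi).symm, zero_apply, mul_zero]
    have hz : h = 0 := by
      rcases eq_or_ne (Fintype.card ι) (finrank E V) with hN | hN
      · have h1 := x5_A h (fun i j hij v => x5_K1 h hD hN hij v)
        have h2 : ∀ v, MultilinearMap.alternatization (x5_c g f) v =
            MultilinearMap.alternatization f v := by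
          intro v
          have h3 : MultilinearMap.alternatization (x5_c g f) v =
              MultilinearMap.alternatization f (fun i => g (v i)) := by
            rw [MultilinearMap.alternatization_apply, MultilinearMap.alternatization_apply]
            rfl
          rw [h3, x5_det _ hN g v, hd, one_mul]
        have h4 : MultilinearMap.alternatization h = 0 := by
          ext v
          rw [hh, map_sub]
          simp only [AlternatingMap.sub_apply, h2, sub_self, AlternatingMap.zero_apply]
        have h5 : ((x5_A h (fun i j hij v => x5_K1 h hD hN hij v) : V [⋀^ι]→ₗ[E] E) :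
            MultilinearMap E (fun _ => V) E) = h := by
          ext v
          rfl
        have h6 := AlternatingMap.coe_alternatization
          (x5_A h (fun i j hij v => x5_K1 h hD hN hij v))
        rw [h5, h4] at h6
        ext v
        have h7 := congrArg (fun A : V [⋀^ι]→ₗ[E] E => A v) h6
        simp only [AlternatingMap.zero_apply, AlternatingMap.smul_apply] at h7
        rw [nsmul_eq_mul] at h7
        rcases mul_eq_zero.1 h7.symm with h8 | h8
        · exact absurd h8 (by exact_mod_cast Nat.factorial_ne_zero _)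
        · exact h8
      · exact x5_K0 h hD hN
    exact sub_eq_zero.1 hz

omit [CharZero E] in
theorem x5_det_sq (hs : ∀ x y, b x y = b y x) (hn : ∀ x, (∀ y, b x y = 0) → x = 0)
    (g : Module.End E V) (hg : ∀ x y, b (g x) (g y) = b x y) :
    LinearMap.det g * LinearMap.det g = 1 := by
  have hB : b.Nondegenerate := by
    constructor
    · intro x hx
      exact hn x hx
    · intro x hx
      exact hn x (fun y => by rw [hs]; exact hx y)
  have h1 : b.comp g g = b := by
    ext x y
    exact hg x y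
  have h2 := LinearMap.BilinForm.toMatrix_comp (finBasis E V) (finBasis E V) b g g
  rw [h1] at h2
  have h3 := (LinearMap.BilinForm.nondegenerate_iff_det_ne_zero (finBasis E V)).1 hB
  have h4 := congrArg Matrix.det h2
  rw [Matrix.det_mul, Matrix.det_mul, Matrix.det_transpose, LinearMap.det_toMatrix] at h4
  have h5 : (LinearMap.det g * LinearMap.det g - 1) *
      (LinearMap.BilinForm.toMatrix (finBasis E V) b).det = 0 := by
    linear_combination -h4
  rcases mul_eq_zero.1 h5 with h6 | h6
  · exact sub_eq_zero.1 h6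
  · exact absurd h6 h3

/-! ### determinant different from one -/

/-- the operator `D` -/
noncomputable def x5_D (E V : Type*) [Field E] [AddCommGroup V] [Module E V] (ι : Type)
    [Fintype ι] [DecidableEq ι] :
    MultilinearMap E (fun _ : ι => V) E →ₗ[E] MultilinearMap E (fun _ : ι => V) E where
  toFun f := ∑ i0, (((finrank E V : E) - 1) • f +
    ∑ i ∈ Finset.univ.erase i0, f.domDomCongr (Equiv.swap i0 i))
  map_add' f h := by
    rw [← Finset.sum_add_distrib]
    refine Finset.sum_congr rfl fun i0 _ => ?_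
    have h1 : ∑ i ∈ Finset.univ.erase i0, (f + h).domDomCongr (Equiv.swap i0 i) =
        ∑ i ∈ Finset.univ.erase i0, f.domDomCongr (Equiv.swap i0 i) +
        ∑ i ∈ Finset.univ.erase i0, h.domDomCongr (Equiv.swap i0 i) := by
      rw [← Finset.sum_add_distrib]
      rfl
    rw [h1, smul_add]
    abel
  map_smul' a f := by
    rw [RingHom.id_apply, Finset.smul_sum]
    refine Finset.sum_congr rfl fun i0 _ => ?_
    have h1 : ∑ i ∈ Finset.univ.erase i0, (a • f).domDomCongr (Equiv.swap i0 i) =
        a • ∑ i ∈ Finset.univ.erase i0, f.domDomCongr (Equiv.swap i0 i) := by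
      rw [Finset.smul_sum]
      rfl
    rw [h1, smul_add, smul_comm]

omit [CharZero E] [FiniteDimensional E V] in
theorem x5_D_apply (f : MultilinearMap E (fun _ : ι => V) E) (v : ι → V) :
    x5_D E V ι f v = ∑ i0, (((finrank E V : E) - 1) * f v +
      ∑ i ∈ Finset.univ.erase i0, f (v ∘ Equiv.swap i0 i)) := by
  change (∑ i0, (((finrank E V : E) - 1) • f +
    ∑ i ∈ Finset.univ.erase i0, f.domDomCongr (Equiv.swap i0 i))) v = _
  rw [sum_apply]
  refine Finset.sum_congr rfl fun i0 _ => ?_
  rw [add_apply, sum_apply]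
  rfl

/-- combinations of pairings, as multilinear maps -/
def x5_S (ι : Type) : Submodule E (MultilinearMap E (fun _ : ι => V) E) where
  carrier := {m | (fun v => m v) ∈ Submodule.span E {F : (ι → V) → E | f1_Pair b ι F}}
  zero_mem' := by
    have h0 : (fun _ => 0 : (ι → V) → E) ∈ Submodule.span E {F : (ι → V) → E | f1_Pair b ι F} :=
      Submodule.zero_mem _
    exact h0
  add_mem' := fun {m m'} hm hm' => by
    have h1 : (fun v => m v) ∈ Submodule.span E {F : (ι → V) → E | f1_Pair b ι F} := hm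
    have h2 : (fun v => m' v) ∈ Submodule.span E {F : (ι → V) → E | f1_Pair b ι F} := hm'
    exact Submodule.add_mem _ h1 h2
  smul_mem' := fun a m hm => by
    have hm' : (fun v => m v) ∈ Submodule.span E {F : (ι → V) → E | f1_Pair b ι F} := hm
    exact Submodule.smul_mem _ a hm'

omit [CharZero E] [FiniteDimensional E V] [Fintype ι] [DecidableEq ι] in
theorem x5_S_inv {m : MultilinearMap E (fun _ : ι => V) E} (hm : m ∈ x5_S b ι)
    (g : Module.End E V) (hg : ∀ x y, b (g x) (g y) = b x y) : x5_c g m = m := by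
  have h : ∀ F ∈ Submodule.span E {F : (ι → V) → E | f1_Pair b ι F},
      ∀ v, F (fun i => g (v i)) = F v := by
    intro F hF
    induction hF using Submodule.span_induction with
    | mem F hF =>
      intro v
      obtain ⟨κ, hκ, π, hπ⟩ := hF
      rw [hπ, hπ]
      refine Finset.prod_congr rfl fun i _ => ?_
      rw [hg]
    | zero => intro v; rfl
    | add F G _ _ hF hG =>
      intro v
      rw [Pi.add_apply, Pi.add_apply, hF, hG]
    | smul a F _ hF =>
      intro v
      rw [Pi.smul_apply, Pi.smul_apply, hF]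
  ext v
  exact h _ hm v

omit [CharZero E] [FiniteDimensional E V] in
theorem x5_D_mem {m : MultilinearMap E (fun _ : ι => V) E} (hm : m ∈ x5_S b ι) :
    x5_D E V ι m ∈ x5_S b ι := by
  change (fun v => x5_D E V ι m v) ∈ Submodule.span E {F : (ι → V) → E | f1_Pair b ι F}
  have h1 : (fun v => x5_D E V ι m v) = ∑ i0 : ι, (((finrank E V : E) - 1) • (fun v => m v) +
      ∑ i ∈ Finset.univ.erase i0, (fun v : ι → V => m (v ∘ Equiv.swap i0 i))) := by
    funext v
    rw [x5_D_apply, Finset.sum_apply]
    refine Finset.sum_congr rfl fun i0 _ => ?_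
    rw [Pi.add_apply, Finset.sum_apply]
    rfl
  rw [h1]
  refine Submodule.sum_mem _ fun i0 _ => Submodule.add_mem _ (Submodule.smul_mem _ _ hm)
    (Submodule.sum_mem _ fun i _ => ?_)
  exact f1_perm (Equiv.swap i0 i) (F := fun v => m v) hm

theorem x5_ker (g : Module.End E V) (hd : LinearMap.det g ≠ 1) [Nonempty ι]
    (u : MultilinearMap E (fun _ : ι => V) E) (hD : x5_D E V ι u = 0) (hu : x5_c g u = u) :
    u = 0 := by
  have hD' : ∀ v, ∑ i0, (((finrank E V : E) - 1) * u v +
      ∑ i ∈ Finset.univ.erase i0, u (v ∘ Equiv.swap i0 i)) = 0 := by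
    intro v
    rw [← x5_D_apply, hD, zero_apply]
  rcases eq_or_ne (Fintype.card ι) (finrank E V) with hN | hN
  · ext v
    have h1 := x5_det (x5_A u (fun i j hij v => x5_K1 u hD' hN hij v)) hN g v
    have h2 : u (fun i => g (v i)) = LinearMap.det g * u v := h1
    rw [← x5_c_apply, hu] at h2
    have h3 : (LinearMap.det g - 1) * u v = 0 := by linear_combination -h2
    rcases mul_eq_zero.1 h3 with h4 | h4
    · exact absurd (sub_eq_zero.1 h4) hd
    · exact h4
  · exact x5_K0 u hD' hN

theorem x5_o (hs : ∀ x y, b x y = b y x) (hn : ∀ x, (∀ y, b x y = 0) → x = 0)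
    (g : Module.End E V) (hg : ∀ x y, b (g x) (g y) = b x y) (hd : LinearMap.det g ≠ 1) :
    ∀ (n : ℕ) (ι : Type) [Fintype ι] [DecidableEq ι], Fintype.card ι = n →
      ∀ f : MultilinearMap E (fun _ : ι => V) E, f1_Inv b f → f + x5_c g f ∈ x5_S b ι := by
  have hgg : ∀ x y, b ((g * g) x) ((g * g) y) = b x y := by
    intro x y
    rw [Module.End.mul_apply, Module.End.mul_apply, hg, hg]
  have hdg : LinearMap.det (g * g) = 1 := by
    rw [map_mul, x5_det_sq b hs hn g hg]
  intro n
  induction n using Nat.strong_induction_on with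
  | _ n ih =>
  intro ι _ _ hcard f hf
  rcases isEmpty_or_nonempty ι with hι | hι
  · have h1 : (fun v => (f + x5_c g f) v) =
        ((f + x5_c g f) (fun i => isEmptyElim i)) • (fun _ : ι → V => (1 : E)) := by
      funext v
      rw [Pi.smul_apply, smul_eq_mul, mul_one]
      congr 1
      funext i
      exact isEmptyElim i
    change (fun v => (f + x5_c g f) v) ∈ Submodule.span E {F : (ι → V) → E | f1_Pair b ι F}
    rw [h1]
    apply Submodule.smul_mem
    apply Submodule.subset_span
    refine ⟨Empty, inferInstance, ⟨fun x => x.1.elim, fun x => isEmptyElim x, fun x => x.1.elim,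
      fun x => isEmptyElim x⟩, fun v => by simp⟩
  · obtain ⟨e, e', he, he', htr⟩ := f1_dual b hs hn
    set h : MultilinearMap E (fun _ : ι => V) E := f + x5_c g f with hh
    have hinv : f1_Inv b h := x5_add_inv b hf (x5_c_inv b g hg f hf)
    have hC : ∀ i0 i : ι, i0 ≠ i → f1_C e e' i0 i h ∈ x5_S b {x : ι // x ≠ i0 ∧ x ≠ i} := by
      intro i0 i hne
      have hc : Fintype.card {x : ι // x ≠ i0 ∧ x ≠ i} < n := by
        rw [← hcard]
        exact Fintype.card_subtype_lt (x := i0) (by simp)
      have h1 := ih _ hc _ rfl (f1_C e e' i0 i f) (f1_C_inv b hs e e' he he' hne f hf)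
      rw [hh, x5_C_add e e' hne, x5_C_c b hs hn e e' he he' g hg hne]
      exact h1
    have hDh : x5_D E V ι h ∈ x5_S b ι := by
      change (fun v => x5_D E V ι h v) ∈ Submodule.span E {F : (ι → V) → E | f1_Pair b ι F}
      have h1 : (fun v => x5_D E V ι h v) = ∑ i0 : ι, ∑ i ∈ Finset.univ.erase i0,
          (fun v : ι → V => b (v i0) (v i) * f1_C e e' i0 i h (fun x => v x.1)) := by
        funext v
        rw [x5_D_apply, Finset.sum_apply]
        refine Finset.sum_congr rfl fun i0 _ => ?_
        rw [f1_key b hs e e' he he' htr i0 h hinv v, Finset.sum_apply]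
      rw [h1]
      refine Submodule.sum_mem _ fun i0 _ => Submodule.sum_mem _ fun i hi => ?_
      have hne : i0 ≠ i := (Finset.ne_of_mem_erase hi).symm
      exact f1_ext hne (G := fun w => f1_C e e' i0 i h w) (hC i0 i hne)
    -- `D` is bijective on the combinations of pairings
    have hmap : ∀ m ∈ x5_S b ι, x5_D E V ι m ∈ x5_S b ι := fun m hm => x5_D_mem b hm
    have hinj : Function.Injective ((x5_D E V ι).restrict hmap) := by
      rw [injective_iff_map_eq_zero]
      intro m hm
      have h2 : x5_D E V ι m.1 = 0 := congrArg Subtype.val hm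
      exact Subtype.ext (x5_ker g hd m.1 h2 (x5_S_inv b m.2 g hg))
    have hfd : Module.Finite E (MultilinearMap E (fun _ : ι => V) E) :=
      Module.Finite.multilinearMap
    have hfd' : FiniteDimensional E (x5_S b ι : Submodule E
        (MultilinearMap E (fun _ : ι => V) E)) := FiniteDimensional.finiteDimensional_submodule _
    have hsur : Function.Surjective ((x5_D E V ι).restrict hmap) :=
      (LinearMap.injective_iff_surjective (K := E) (V := (x5_S b ι : Submodule E
        (MultilinearMap E (fun _ : ι => V) E))) (f := (x5_D E V ι).restrict hmap)).1 hinj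
    obtain ⟨s, hs'⟩ := hsur ⟨x5_D E V ι h, hDh⟩
    have hs2 : x5_D E V ι s.1 = x5_D E V ι h := congrArg Subtype.val hs'
    have hu : h - s.1 = 0 := by
      refine x5_ker g hd _ (by rw [map_sub, hs2, sub_self]) ?_
      have h3 : x5_c g h = h := by
        have h4 : x5_c g (x5_c g f) = f := by
          have h5 := x5_so b hs hn (g * g) hgg hdg n ι hcard f hf
          conv_rhs => rw [← h5]
          rfl
        have h6 : x5_c g h = x5_c g f + x5_c g (x5_c g f) := rfl
        rw [h6, h4, hh, add_comm]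
      have h7 : x5_c g (h - s.1) = x5_c g h - x5_c g s.1 := rfl
      rw [h7, h3, x5_S_inv b s.2 g hg]
    rw [sub_eq_zero.1 hu]
    exact s.2

end maps

section final

variable {E V : Type*} [Field E] [CharZero E] [AddCommGroup V] [Module E V]
  [FiniteDimensional E V]

/-- OX9: invariants of the orthogonal Lie algebra are invariant under the special orthogonal
group. -/
theorem ox_so (b : LinearMap.BilinForm E V) (hs : ∀ x y, b x y = b y x)
    (hn : ∀ x, (∀ y, b x y = 0) → x = 0) (n : ℕ)
    (f : MultilinearMap E (fun _ : Fin n => V) E)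
    (hf : ∀ (x y : V) (v : Fin n → V), ∑ i, f (Function.update v i (wedge b x y (v i))) = 0)
    (g : Module.End E V) (hg : ∀ x y, b (g x) (g y) = b x y) (hd : LinearMap.det g = 1)
    (v : Fin n → V) : f (fun i => g (v i)) = f v := by
  have h := x5_so b hs hn g hg hd n (Fin n) (Fintype.card_fin n) f hf
  exact congrArg (fun m : MultilinearMap E (fun _ : Fin n => V) E => m v) h

/-- OX10: invariants of the orthogonal Lie algebra that are invariant under one isometry of
determinant different from `1`. -/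
theorem ox_o (b : LinearMap.BilinForm E V) (hs : ∀ x y, b x y = b y x)
    (hn : ∀ x, (∀ y, b x y = 0) → x = 0) (n : ℕ)
    (f : MultilinearMap E (fun _ : Fin n => V) E)
    (hf : ∀ (x y : V) (v : Fin n → V), ∑ i, f (Function.update v i (wedge b x y (v i))) = 0)
    (g : Module.End E V) (hg : ∀ x y, b (g x) (g y) = b x y) (hd : LinearMap.det g ≠ 1) :
    (fun v => f v + f (fun i => g (v i))) ∈
      Submodule.span E {F : (Fin n → V) → E | IsPairing b n F} := by
  have h := x5_o b hs hn g hg hd n (Fin n) (Fintype.card_fin n) f hf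
  refine Submodule.span_mono ?_ h
  rintro F ⟨κ, hκ, π, hπ⟩
  let q := Fintype.equivFin κ
  refine ⟨Fintype.card κ, (Equiv.prodCongr q.symm (Equiv.refl _)).trans π, fun v => ?_⟩
  rw [hπ, ← Equiv.prod_comp q.symm]
  rfl

end final



end Pool.Agent.OX
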